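import Pool.Agent.W761.HF.Sector

/-!
# States adapted to an invariant block state
-/

set_option autoImplicit false

open Finset BigOperators Matrix

set_option linter.unusedSectionVars false
set_option linter.unusedSimpArgs false

namespace Pool.Agent.W761.HF

variable {Q : Type} [Fintype Q] [DecidableEq Q]

/-- a highest weight state of magnetisation `M` per site, with a diagonalisation -/
structure AdState (M : ℝ) (σ W : Matrix (Q → Bool) (Q → Bool) ℝ) (r : (Q → Bool) → ℝ) : Prop where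
  hM0 : 0 ≤ M
  hM1 : M ≤ 1 / 2
  hW : Orth W
  hdiag : σ = W * diagonal r * Wᵀ
  hr : ∀ k, 0 ≤ r k
  hr1 : ∑ k, r k = 1
  hpos : Pos σ
  hZ : tot Q zM * σ = ((Fintype.card Q : ℝ) * M) • σ
  hP : tot Q pM * σ = 0

theorem tau_comm {n : ℕ} (hn : Fintype.card Q ≤ 2 * n) {R : Matrix (Q → Bool) (Q → Bool) ℝ}
    (hinv : Inv R) : hw Q n * R = hw Q n * R * hw Q n := by
  rw [Matrix.mul_assoc, ← hw_comm hn hinv, ← Matrix.mul_assoc, hw_sq hn]

theorem tau_pos {n : ℕ} (hn : Fintype.card Q ≤ 2 * n) {R : Matrix (Q → Bool) (Q → Bool) ℝ}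
    (hinv : Inv R) (hR : Pos R) : Pos (hw Q n * R) := by
  constructor
  · rw [transpose_mul, hR.1, hw_T hn, hw_comm hn hinv]
  · intro A
    have h := hR.2 (hw Q n * A)
    rw [transpose_mul, hw_T hn] at h
    have h2 : (hw Q n * R * (A * Aᵀ)).trace = (R * (hw Q n * A * (Aᵀ * hw Q n))).trace := by
      calc (hw Q n * R * (A * Aᵀ)).trace = (hw Q n * (R * hw Q n * (A * Aᵀ))).trace := by
            conv_lhs => rw [tau_comm hn hinv]
            simp only [Matrix.mul_assoc]
        _ = (R * hw Q n * (A * Aᵀ) * hw Q n).trace := trace_mul_comm _ _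
        _ = _ := by simp only [Matrix.mul_assoc]
    rw [h2]; exact h

theorem tau_fc {n : ℕ} (hn : Fintype.card Q ≤ 2 * n) {R V W : Matrix (Q → Bool) (Q → Bool) ℝ}
    {e w : (Q → Bool) → ℝ} (hinv : Inv R) (hV : Orth V) (hR : R = V * diagonal e * Vᵀ)
    (hW : Orth W) (hw' : hw Q n * R = W * diagonal w * Wᵀ) (f : ℝ → ℝ) (hf : f 0 = 0) :
    (hw Q n * (V * diagonal (fun i => f (e i)) * Vᵀ)).trace = ∑ k, f (w k) := by
  have h1 : hw Q n * (V * diagonal e * Vᵀ) = (W * diagonal w * Wᵀ) * hw Q n := by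
    rw [← hw', ← hR]; exact tau_comm hn hinv
  have h2 := fc_intertwine hV hW h1 f
  have h3 : (1 - hw Q n) * ((1 : Matrix (Q → Bool) (Q → Bool) ℝ) * diagonal (fun _ => 0) * (1 : Matrix _ _ ℝ)ᵀ) =
      (W * diagonal w * Wᵀ) * (1 - hw Q n) := by
    rw [← hw', Matrix.mul_sub, Matrix.mul_one, ← tau_comm hn hinv, sub_self]
    simp
  have h4 := fc_intertwine orth_one hW h3 f
  simp only [hf] at h4
  have h5 : (W * diagonal (fun i => f (w i)) * Wᵀ) * hw Q n = W * diagonal (fun i => f (w i)) * Wᵀ := by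
    have h6 : (W * diagonal (fun i => f (w i)) * Wᵀ) * (1 - hw Q n) = 0 := by
      rw [← h4]; simp
    rw [Matrix.mul_sub, Matrix.mul_one, sub_eq_zero] at h6
    exact h6.symm
  rw [h2, h5, trace_diag hW]

theorem inv_one : Inv (1 : Matrix (Q → Bool) (Q → Bool) ℝ) := by constructor <;> simp

theorem cj_one {n : Type} [DecidableEq n] (e : n ≃ n) : cj e (1 : Matrix n n ℝ) = 1 := by
  unfold cj; exact submatrix_one_equiv e

theorem adapted [Nonempty Q] {R V : Matrix (Q → Bool) (Q → Bool) ℝ} {e : (Q → Bool) → ℝ}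
    (hR : Pos R) (htr : R.trace = 1) (hinv : Inv R) (hfl : cj (fl Q) R = R) (hV : Orth V)
    (hd : R = V * diagonal e * Vᵀ) :
    ∃ (s : Finset ℕ) (p M : ℕ → ℝ) (σ W : ℕ → Matrix (Q → Bool) (Q → Bool) ℝ)
      (r : ℕ → (Q → Bool) → ℝ),
      (∀ n ∈ s, 0 < p n ∧ AdState (M n) (σ n) (W n) (r n)) ∧ ∑ n ∈ s, p n = 1 ∧
      (∀ A, Inv A → cj (fl Q) A = A → ∑ n ∈ s, p n * (σ n * A).trace = (R * A).trace) ∧
      ∑ k, Real.negMulLog (e k) ≤ ∑ n ∈ s, p n * ∑ k, Real.negMulLog (r n k) +
        2 * Real.log (Fintype.card Q + 1) := by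
  classical
  set b := Fintype.card Q with hb
  have hb0 : 0 < b := Fintype.card_pos
  have hb0' : (0 : ℝ) < b := by exact_mod_cast hb0
  set t : ℕ → ℝ := fun n => (hw Q n * R).trace with ht
  set g : ℕ → ℝ := fun n => 2 * (n : ℝ) - b + 1 with hg
  have hex : ∀ n, ∃ (W : Matrix (Q → Bool) (Q → Bool) ℝ) (w : (Q → Bool) → ℝ),
      b ≤ 2 * n → Orth W ∧ hw Q n * R = W * diagonal w * Wᵀ := by
    intro n
    by_cases hn : b ≤ 2 * n
    · obtain ⟨W, w, h1, h2⟩ := exists_diag (hw Q n * R) (tau_pos hn hinv hR).1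
      exact ⟨W, w, fun _ => ⟨h1, h2⟩⟩
    · exact ⟨0, 0, fun h => absurd h hn⟩
  choose W w hW using hex
  have hw0 : ∀ n, b ≤ 2 * n → ∀ k, 0 ≤ w n k := by
    intro n hn k
    exact pos_eig (hW n hn).1 (by rw [← (hW n hn).2]; exact tau_pos hn hinv hR) k
  have hwt : ∀ n, b ≤ 2 * n → ∑ k, w n k = t n := by
    intro n hn
    simp only [ht]
    rw [(hW n hn).2, trace_diag (hW n hn).1]
  have ht0 : ∀ n, b ≤ 2 * n → 0 ≤ t n := by
    intro n hn
    rw [← hwt n hn]
    exact Finset.sum_nonneg fun k _ => hw0 n hn k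
  have hg1 : ∀ n, b ≤ 2 * n → 1 ≤ g n := by
    intro n hn
    have : (b : ℝ) ≤ 2 * n := by exact_mod_cast hn
    simp only [hg]; linarith
  set s : Finset ℕ := (range (b + 1)).filter (fun n => b ≤ 2 * n ∧ 0 < t n) with hs
  have hmem : ∀ n ∈ s, n ≤ b ∧ b ≤ 2 * n ∧ 0 < t n := by
    intro n hn
    rw [hs, Finset.mem_filter, Finset.mem_range] at hn
    exact ⟨by omega, hn.2.1, hn.2.2⟩
  set p : ℕ → ℝ := fun n => g n * t n with hp
  set M : ℕ → ℝ := fun n => (n : ℝ) / b - 1 / 2 with hM
  set σ : ℕ → Matrix (Q → Bool) (Q → Bool) ℝ := fun n => (t n)⁻¹ • (hw Q n * R) with hσ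
  set r : ℕ → (Q → Bool) → ℝ := fun n k => (t n)⁻¹ * w n k with hr
  have hsum : ∀ F : ℕ → ℝ, (∀ n, b ≤ 2 * n → t n = 0 → F n = 0) →
      ∑ n ∈ range (b + 1), (if b ≤ 2 * n then g n * F n else 0) = ∑ n ∈ s, g n * F n := by
    intro F hF
    rw [hs, Finset.sum_filter]
    refine Finset.sum_congr rfl fun n _ => ?_
    by_cases h1 : b ≤ 2 * n
    · by_cases h2 : 0 < t n
      · rw [if_pos h1, if_pos ⟨h1, h2⟩]
      · have : t n = 0 := le_antisymm (not_lt.1 h2) (ht0 n h1)
        rw [if_pos h1, if_neg (fun h => h2 h.2), hF n h1 this, mul_zero]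
    · rw [if_neg h1, if_neg (fun h => h1 h.1)]
  have hen : ∀ A, Inv A → cj (fl Q) A = A → ∑ n ∈ s, p n * (σ n * A).trace = (R * A).trace := by
    intro A hA hfA
    have h1 := trace_identity (hinv.mul hA) (by rw [cj_mul, hfl, hfA])
    have h2 := hsum (fun n => (hw Q n * (R * A)).trace) (by
      intro n hn h0
      have : hw Q n * R = 0 := pos_zero (tau_pos hn hinv hR) h0
      rw [← Matrix.mul_assoc, this, Matrix.zero_mul, trace_zero])
    rw [← h1]
    refine Eq.trans ?_ h2.symm
    refine Finset.sum_congr rfl fun n hn => ?_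
    obtain ⟨_, h4, h5⟩ := hmem n hn
    simp only [hp, hσ]
    rw [Matrix.smul_mul, trace_smul, smul_eq_mul, Matrix.mul_assoc]
    field_simp
  have hrsum : ∀ n ∈ s, ∑ k, r n k = 1 := by
    intro n hn
    obtain ⟨_, h4, h5⟩ := hmem n hn
    simp only [hr]
    rw [← Finset.mul_sum, hwt n h4, inv_mul_cancel₀ h5.ne']
  have hσtr : ∀ n ∈ s, (σ n).trace = 1 := by
    intro n hn
    obtain ⟨_, h4, h5⟩ := hmem n hn
    simp only [hσ]
    rw [trace_smul, smul_eq_mul]
    exact inv_mul_cancel₀ h5.ne'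
  have hp1 : ∑ n ∈ s, p n = 1 := by
    have := hen 1 inv_one (cj_one _)
    rw [Matrix.mul_one, htr] at this
    rw [← this]
    refine Finset.sum_congr rfl fun n hn => ?_
    rw [Matrix.mul_one, hσtr n hn, mul_one]
  have hp0 : ∀ n ∈ s, 0 < p n := by
    intro n hn
    obtain ⟨_, h4, h5⟩ := hmem n hn
    exact mul_pos (by linarith [hg1 n h4]) h5
  refine ⟨s, p, M, σ, W, r, ?_, hp1, hen, ?_⟩
  · intro n hn
    obtain ⟨h3, h4, h5⟩ := hmem n hn
    refine ⟨hp0 n hn, ?_, ?_, (hW n h4).1, ?_, ?_, hrsum n hn, ?_, ?_, ?_⟩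
    · simp only [hM]
      have : (b : ℝ) ≤ 2 * n := by exact_mod_cast h4
      rw [sub_nonneg, le_div_iff₀ hb0']; linarith
    · simp only [hM]
      have : (n : ℝ) ≤ b := by exact_mod_cast h3
      have h6 : (n : ℝ) / b ≤ 1 := by rw [div_le_one hb0']; exact this
      linarith
    · simp only [hσ, hr]
      rw [(hW n h4).2]
      have : diagonal (fun k => (t n)⁻¹ * w n k) = (t n)⁻¹ • diagonal (w n) := by
        rw [← diagonal_smul]; rfl
      rw [this, Matrix.mul_smul, Matrix.smul_mul]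
    · intro k
      exact mul_nonneg (inv_nonneg.2 h5.le) (hw0 n h4 k)
    · constructor
      · simp only [hσ]
        rw [transpose_smul, (tau_pos h4 hinv hR).1]
      · intro A
        simp only [hσ]
        rw [Matrix.smul_mul, trace_smul, smul_eq_mul]
        exact mul_nonneg (inv_nonneg.2 h5.le) ((tau_pos h4 hinv hR).2 A)
    · simp only [hσ, hM]
      rw [Matrix.mul_smul, ← Matrix.mul_assoc, ← sec_hw h4, ← Matrix.mul_assoc, Z_sec,
        Matrix.smul_mul, Matrix.smul_mul, smul_comm]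
      congr 1
      rw [← hb]
      field_simp
    · simp only [hσ]
      rw [Matrix.mul_smul, ← Matrix.mul_assoc, P_hw h4, Matrix.zero_mul, smul_zero]
  · -- entropy
    have hIf : Inv (V * diagonal (fun i => Real.negMulLog (e i)) * Vᵀ) := by
      constructor
      · exact fc_comm hV (by rw [← hd]; exact hinv.cP) Real.negMulLog
      · exact fc_comm hV (by rw [← hd]; exact hinv.cM) Real.negMulLog
    have hcf : cj (fl Q) (V * diagonal (fun i => Real.negMulLog (e i)) * Vᵀ) =
        V * diagonal (fun i => Real.negMulLog (e i)) * Vᵀ :=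
      fc_cj hV (by rw [← hd]; exact hfl) Real.negMulLog
    have h1 := trace_identity hIf hcf
    rw [trace_diag hV] at h1
    have h2 := hsum (fun n => ∑ k, Real.negMulLog (w n k)) (by
      intro n hn h0
      have h3 := (Finset.sum_eq_zero_iff_of_nonneg (fun k _ => hw0 n hn k)).1 (by rw [hwt n hn, h0])
      refine Finset.sum_eq_zero fun k hk => ?_
      rw [h3 k hk, Real.negMulLog_zero])
    have h3 : ∑ k, Real.negMulLog (e k) = ∑ n ∈ s, g n * ∑ k, Real.negMulLog (w n k) := by
      rw [← h1, ← h2]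
      refine Finset.sum_congr rfl fun n _ => ?_
      split_ifs with h4
      · rw [tau_fc h4 hinv hV hd (hW n h4).1 (hW n h4).2 Real.negMulLog Real.negMulLog_zero]
      · rfl
    have h4 : ∀ n ∈ s, g n * ∑ k, Real.negMulLog (w n k) =
        p n * ∑ k, Real.negMulLog (r n k) + (Real.negMulLog (p n) + p n * Real.log (g n)) := by
      intro n hn
      obtain ⟨_, h4, h5⟩ := hmem n hn
      have h6 : ∀ k, w n k = t n * r n k := by
        intro k; simp only [hr]; field_simp
      have h7 : ∑ k, Real.negMulLog (w n k) = Real.negMulLog (t n) + t n * ∑ k, Real.negMulLog (r n k) := by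
        simp only [h6, Real.negMulLog_mul]
        rw [Finset.sum_add_distrib, ← Finset.sum_mul, hrsum n hn, one_mul, ← Finset.mul_sum]
      rw [h7]
      have h8 : Real.negMulLog (p n) = - (g n * t n) * (Real.log (g n) + Real.log (t n)) := by
        simp only [hp, Real.negMulLog]
        rw [Real.log_mul (by linarith [hg1 n h4]) h5.ne']
      rw [h8]
      simp only [hp, Real.negMulLog]
      ring
    rw [h3, Finset.sum_congr rfl h4, Finset.sum_add_distrib, Finset.sum_add_distrib]
    have h5 : ∑ n ∈ s, p n * Real.log (g n) ≤ Real.log (b + 1) := by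
      calc ∑ n ∈ s, p n * Real.log (g n) ≤ ∑ n ∈ s, p n * Real.log (b + 1) := by
            refine Finset.sum_le_sum fun n hn => mul_le_mul_of_nonneg_left ?_ (hp0 n hn).le
            obtain ⟨h6, h7, _⟩ := hmem n hn
            apply Real.log_le_log (by linarith [hg1 n h7])
            have : (n : ℝ) ≤ b := by exact_mod_cast h6
            simp only [hg]; linarith
        _ = _ := by rw [← Finset.sum_mul, hp1, one_mul]
    have h6 : ∑ n ∈ s, Real.negMulLog (p n) ≤ Real.log (b + 1) := by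
      have hb1 : (0 : ℝ) < b + 1 := by linarith
      have h7 : ∀ n ∈ s, Real.negMulLog (p n) ≤ p n * Real.log (b + 1) + (1 / (b + 1) - p n) := by
        intro n hn
        have hpn := hp0 n hn
        have h8 := Real.log_le_sub_one_of_pos (show (0 : ℝ) < 1 / (p n * (b + 1)) by positivity)
        rw [one_div, Real.log_inv, Real.log_mul hpn.ne' hb1.ne'] at h8
        have h9 := mul_le_mul_of_nonneg_left h8 hpn.le
        have h10 : p n * ((p n * (b + 1))⁻¹ - 1) = 1 / (b + 1) - p n := by field_simp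
        rw [h10] at h9
        simp only [Real.negMulLog]
        linarith
      have h8 := Finset.sum_le_sum h7
      rw [Finset.sum_add_distrib, ← Finset.sum_mul, Finset.sum_sub_distrib, hp1, Finset.sum_const,
        nsmul_eq_mul] at h8
      have h9 : (s.card : ℝ) ≤ b + 1 := by
        have : s.card ≤ b + 1 := by
          calc s.card ≤ (range (b + 1)).card := Finset.card_filter_le _ _
            _ = b + 1 := Finset.card_range _
        exact_mod_cast this
      have h10 : (s.card : ℝ) * (1 / (b + 1)) ≤ 1 := by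
        rw [mul_one_div, div_le_one hb1]; exact h9
      linarith
    linarith

end Pool.Agent.W761.HF
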