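import Pool.Agent.W761.HF.Spec

/-!
# Coherences of the trial kernels
-/

set_option autoImplicit false

open Finset BigOperators

set_option linter.unusedSectionVars false
set_option linter.unusedSimpArgs false

namespace Pool.Agent.W761.HF

open Pool.Agent.H11R2.BEC (Site cu red emb inn cf ph chi Cd t6cW t2a_red ki_emb_add ki_inn
  ki_emb_zero ki_cu_bij t8_card_site t8_card_cube ki_inn_card)

section qf
variable {Λ : Type} [Fintype Λ]

/-- the symmetrised bilinear form -/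
noncomputable def bs (C : Λ → Λ → ℝ) (α β : Λ → ℝ) : ℝ :=
  ∑ x, ∑ y, (α x * β y + β x * α y) * C x y

theorem qf_smul_add (C : Λ → Λ → ℝ) (α β : Λ → ℝ) (θ : ℝ) :
    qf C (fun x => θ * α x + β x) = θ ^ 2 * qf C α + θ * bs C α β + qf C β := by
  unfold qf bs
  rw [Finset.mul_sum, Finset.mul_sum, ← Finset.sum_add_distrib, ← Finset.sum_add_distrib]
  refine Finset.sum_congr rfl fun x _ => ?_
  rw [Finset.mul_sum, Finset.mul_sum, ← Finset.sum_add_distrib, ← Finset.sum_add_distrib]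
  refine Finset.sum_congr rfl fun y _ => ?_
  ring

theorem dot_smul_add (m α β : Λ → ℝ) (θ : ℝ) :
    ∑ x, (θ * α x + β x) * m x = θ * ∑ x, α x * m x + ∑ x, β x * m x := by
  rw [Finset.mul_sum, ← Finset.sum_add_distrib]
  exact Finset.sum_congr rfl fun x _ => by ring

theorem qf_le {C : Λ → Λ → ℝ} {c : ℝ} (hC : ∀ x y, C x y ≤ c) {α : Λ → ℝ} (h0 : ∀ x, 0 ≤ α x)
    (h1 : ∑ x, α x = 1) : qf C α ≤ c := by
  have h2 : qf C α ≤ ∑ x, ∑ y, α x * α y * c := by
    unfold qf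
    refine Finset.sum_le_sum fun x _ => Finset.sum_le_sum fun y _ => ?_
    exact mul_le_mul_of_nonneg_left (hC x y) (mul_nonneg (h0 x) (h0 y))
  have h3 : ∑ x, ∑ y, α x * α y * c = c := by
    have : ∀ x, ∑ y, α x * α y * c = α x * c := by
      intro x
      rw [← Finset.sum_mul, ← Finset.mul_sum, h1, mul_one]
    simp only [this]
    rw [← Finset.sum_mul, h1, one_mul]
  linarith

end qf

section trial
variable {Q : Type} [Fintype Q] [DecidableEq Q] {M : ℝ} {Γ : Q → Q → ℝ} {m : Q → ℝ}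

theorem Trial.nn (h : Trial M Γ m) (α : Q → ℝ) (t : ℝ) :
    0 ≤ qf Γ α + 2 * t * ∑ q, α q * m q + t ^ 2 := by
  have h1 := h.ext α
  have h2 : (∑ q, α q * m q) ^ 2 ≤ qf Γ α := h1
  nlinarith [sq_nonneg (∑ q, α q * m q + t)]

theorem Trial.qf_nonneg (h : Trial M Γ m) (α : Q → ℝ) : 0 ≤ qf Γ α := by
  have := h.nn α 0
  simpa using this

theorem Trial.split (h : Trial M Γ m) (δ β : Q → ℝ) {θ : ℝ} (hθ : 0 < θ) (t : ℝ) :
    (1 - θ) * qf Γ δ - (qf Γ β + 2 * t * ∑ q, β q * m q + t ^ 2) / θ ≤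
      qf Γ (fun q => 1 * δ q + β q) + 2 * t * ∑ q, (1 * δ q + β q) * m q + t ^ 2 := by
  have h1 := h.nn (fun q => θ * δ q + β q) t
  have h2 := h.nn β t
  rw [qf_smul_add, dot_smul_add] at h1
  rw [qf_smul_add, dot_smul_add]
  set X := qf Γ β + 2 * t * ∑ q, β q * m q + t ^ 2 with hX
  set a := qf Γ δ
  set b := bs Γ δ β
  set dm := ∑ q, δ q * m q
  have h3 : -(θ * a) - X / θ ≤ b + 2 * t * dm := by
    have h4 : 0 ≤ θ * (θ * a + (b + 2 * t * dm) + X / θ) := by
      have : θ * (θ * a + (b + 2 * t * dm) + X / θ) = θ ^ 2 * a + θ * b + qf Γ β +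
          2 * t * (θ * dm + ∑ q, β q * m q) + t ^ 2 := by
        rw [hX]; field_simp; ring
      rw [this]; exact h1
    have h5 := nonneg_of_mul_nonneg_right h4 hθ
    linarith
  have h6 : 1 ^ 2 * a + 1 * b + qf Γ β + 2 * t * (1 * dm + ∑ q, β q * m q) + t ^ 2 =
      a + (b + 2 * t * dm) + X := by rw [hX]; ring
  rw [h6]
  nlinarith

end trial

section weights
variable {d J : ℕ}

theorem t6_nonneg (s : ℕ) (z x : Site d J) : 0 ≤ t6cW s z x := by
  unfold t6cW
  exact mul_nonneg (by positivity) (Finset.sum_nonneg fun u _ => by split_ifs <;> norm_num)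

theorem t6_sum (s : ℕ) (z : Site d J) (f : Site d J → ℝ) :
    ∑ x, t6cW s z x * f x = (1 / (2 : ℝ) ^ (d * s)) * ∑ u : Fin d → Fin (2 ^ s), f (z + cu J u) := by
  unfold t6cW
  simp only [Finset.mul_sum, Finset.sum_mul]
  rw [Finset.sum_comm]
  refine Finset.sum_congr rfl fun u _ => ?_
  rw [Finset.sum_eq_single (z + cu J u)]
  · simp
  · intro b _ hb
    rw [if_neg (fun h => hb h.symm)]
    simp
  · intro h; exact absurd (Finset.mem_univ _) h

theorem t6_one (s : ℕ) (z : Site d J) : ∑ x, t6cW s z x = 1 := by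
  have h := t6_sum s z (fun _ => (1 : ℝ))
  simp only [mul_one] at h
  rw [h, Finset.sum_const, Finset.card_univ, nsmul_eq_mul, t8_card_cube]
  field_simp

theorem qf_t6 (C : Site d J → Site d J → ℝ) (s : ℕ) (z : Site d J) :
    qf C (t6cW s z) = (1 / (2 : ℝ) ^ (d * s)) * ∑ u : Fin d → Fin (2 ^ s),
      (1 / (2 : ℝ) ^ (d * s)) * ∑ v : Fin d → Fin (2 ^ s), C (z + cu J u) (z + cu J v) := by
  unfold qf
  have h1 : ∀ x, ∑ y, t6cW s z x * t6cW s z y * C x y =
      t6cW s z x * ∑ y, t6cW s z y * C x y := by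
    intro x
    rw [Finset.mul_sum]; exact Finset.sum_congr rfl fun y _ => by ring
  simp only [h1]
  rw [t6_sum s z (fun x => ∑ y, t6cW s z y * C x y)]
  congr 1
  refine Finset.sum_congr rfl fun u _ => ?_
  rw [t6_sum s z (fun y => C (z + cu J u) y)]

theorem t6_top (z x : Site d J) : t6cW J z x = 1 / (2 : ℝ) ^ (d * J) := by
  unfold t6cW
  have h := ki_cu_bij d J
  have : ∑ u : Fin d → Fin (2 ^ J), (if z + cu J u = x then (1 : ℝ) else 0) = 1 := by
    obtain ⟨u, hu⟩ := h.2 (x - z)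
    rw [Finset.sum_eq_single u]
    · rw [if_pos]
      show z + cu J u = x
      have : cu J u = x - z := hu
      rw [this]; abel
    · intro v _ hv
      rw [if_neg]
      intro h2
      apply hv
      apply h.1
      show cu J v = cu J u
      have : cu J u = x - z := hu
      rw [this, ← h2]; abel
    · intro h; exact absurd (Finset.mem_univ _) h
  rw [this, mul_one]

theorem t6_avg (s : ℕ) (f : Site d J → ℝ) : ∑ z, ∑ x, t6cW s z x * f x = ∑ x, f x := by
  simp only [t6_sum]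
  rw [← Finset.mul_sum, Finset.sum_comm]
  have : ∀ u : Fin d → Fin (2 ^ s), ∑ z : Site d J, f (z + cu J u) = ∑ z, f z := fun u =>
    Equiv.sum_comp (Equiv.addRight (cu J u)) f
  simp only [this]
  rw [Finset.sum_const, Finset.card_univ, nsmul_eq_mul, t8_card_cube]
  field_simp

end weights

section tile
variable {d J j : ℕ} (hj : j ≤ J) (e : Site d J ≃ (Fin d → Fin (2 ^ (J - j))) × Site d j)
  (h1 : ∀ x, (e x).2 = red j x)
  (h2 : ∀ (i : Fin d → Fin (2 ^ (J - j))) (z : Site d j) (s : ℕ) (u : Fin d → Fin (2 ^ s)),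
        (∀ ν, (z ν).val + (u ν : ℕ) < 2 ^ j) →
          e.symm (i, z) + cu J u = e.symm (i, z + cu j u))

/-- the trial kernel on the torus -/
noncomputable def cn (e : Site d J ≃ (Fin d → Fin (2 ^ (J - j))) × Site d j)
    (Γ : Site d j → Site d j → ℝ) (m : Site d j → ℝ) (x y : Site d J) : ℝ :=
  if (e x).1 = (e y).1 then Γ (e x).2 (e y).2 else m (e x).2 * m (e y).2

include hj in
theorem red_add_cu {s : ℕ} (z : Site d J) (u : Fin d → Fin (2 ^ s)) :
    red j (z + cu J u) = red j z + cu j u := by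
  funext ν
  rw [Pi.add_apply, t2a_red hj, t2a_red hj, Pi.add_apply, map_add]
  simp [cu]

variable {M : ℝ} {Γ : Site d j → Site d j → ℝ} {m : Site d j → ℝ} (hT : Trial M Γ m)

include hT in
theorem cn_ge (α : Site d J → ℝ) : (∑ x, α x * m (e x).2) ^ 2 ≤ qf (cn e Γ m) α := by
  have e1 : qf (cn e Γ m) α = ∑ a : (Fin d → Fin (2 ^ (J - j))) × Site d j,
      ∑ a' : (Fin d → Fin (2 ^ (J - j))) × Site d j,
      α (e.symm a) * α (e.symm a') * (if a.1 = a'.1 then Γ a.2 a'.2 else m a.2 * m a'.2) := by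
    unfold qf
    rw [← Equiv.sum_comp e.symm]
    refine Finset.sum_congr rfl fun a _ => ?_
    rw [← Equiv.sum_comp e.symm]
    refine Finset.sum_congr rfl fun a' _ => ?_
    unfold cn
    rw [Equiv.apply_symm_apply, Equiv.apply_symm_apply]
  have e2 : (∑ x, α x * m (e x).2) = ∑ a : (Fin d → Fin (2 ^ (J - j))) × Site d j,
      α (e.symm a) * m a.2 := by
    rw [← Equiv.sum_comp e.symm]
    refine Finset.sum_congr rfl fun a _ => ?_
    rw [Equiv.apply_symm_apply]
  have e3 : qf (cn e Γ m) α = (∑ x, α x * m (e x).2) ^ 2 +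
      ∑ i : Fin d → Fin (2 ^ (J - j)), (qf Γ (fun q => α (e.symm (i, q))) -
        (∑ q, α (e.symm (i, q)) * m q) ^ 2) := by
    have e4 : ∀ a a' : (Fin d → Fin (2 ^ (J - j))) × Site d j,
        α (e.symm a) * α (e.symm a') * (if a.1 = a'.1 then Γ a.2 a'.2 else m a.2 * m a'.2) =
        (α (e.symm a) * m a.2) * (α (e.symm a') * m a'.2) +
        (if a.1 = a'.1 then α (e.symm a) * α (e.symm a') * Γ a.2 a'.2 -
          (α (e.symm a) * m a.2) * (α (e.symm a') * m a'.2) else 0) := by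
      intro a a'
      split_ifs <;> ring
    rw [e1]
    simp only [e4, Finset.sum_add_distrib]
    rw [e2, sq, Finset.sum_mul_sum]
    congr 1
    rw [Fintype.sum_prod_type]
    refine Finset.sum_congr rfl fun i _ => ?_
    have e5 : ∀ q : Site d j, ∑ a' : (Fin d → Fin (2 ^ (J - j))) × Site d j,
        (if i = a'.1 then α (e.symm (i, q)) * α (e.symm a') * Γ q a'.2 -
          (α (e.symm (i, q)) * m q) * (α (e.symm a') * m a'.2) else 0) =
        ∑ q', (α (e.symm (i, q)) * α (e.symm (i, q')) * Γ q q' -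
          (α (e.symm (i, q)) * m q) * (α (e.symm (i, q')) * m q')) := by
      intro q
      rw [Fintype.sum_prod_type, Finset.sum_eq_single i]
      · simp
      · intro i' _ hi'
        simp [Ne.symm hi']
      · intro h; exact absurd (Finset.mem_univ _) h
    simp only [e5]
    unfold qf
    rw [sq, Finset.sum_mul_sum, ← Finset.sum_sub_distrib]
    refine Finset.sum_congr rfl fun q _ => ?_
    rw [← Finset.sum_sub_distrib]
  rw [e3]
  have h0 : 0 ≤ ∑ i : Fin d → Fin (2 ^ (J - j)), (qf Γ (fun q => α (e.symm (i, q))) -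
        (∑ q, α (e.symm (i, q)) * m q) ^ 2) := by
    refine Finset.sum_nonneg fun i _ => ?_
    have := hT.ext (fun q => α (e.symm (i, q)))
    have h5 : (∑ q, α (e.symm (i, q)) * m q) ^ 2 ≤ qf Γ (fun q => α (e.symm (i, q))) := this
    linarith
  linarith

include h1 in
theorem symm_red' (z : Site d J) : e.symm ((e z).1, red j z) = z := by
  rw [← h1 z]
  exact e.symm_apply_apply z

include h1 h2 in
theorem cn_inner (s : ℕ) (w : Site d J) (hw : red j w ∈ inn j s) :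
    qf (cn e Γ m) (t6cW s w) = qf Γ (t6cW s (red j w)) := by
  rw [qf_t6, qf_t6]
  have h3 : ∀ u : Fin d → Fin (2 ^ s), e (w + cu J u) = ((e w).1, red j w + cu j u) := by
    intro u
    have := h2 (e w).1 (red j w) s u (ki_inn hw u)
    rw [symm_red' e h1] at this
    rw [this, Equiv.apply_symm_apply]
  congr 1
  refine Finset.sum_congr rfl fun u _ => ?_
  congr 1
  refine Finset.sum_congr rfl fun v _ => ?_
  unfold cn
  rw [h3, h3]
  simp

include hj h1 in
theorem mu_eq (s : ℕ) (w : Site d J) : ∑ x, t6cW s w x * m (e x).2 =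
    ∑ q, t6cW s (red j w) q * m q := by
  rw [t6_sum s w (fun x => m (e x).2), t6_sum]
  congr 1
  refine Finset.sum_congr rfl fun u _ => ?_
  rw [h1, red_add_cu hj]

/-- the local quantity -/
noncomputable def FF (M : ℝ) (Γ : Site d j → Site d j → ℝ) (m : Site d j → ℝ) (α : Site d j → ℝ) : ℝ :=
  qf Γ α + 2 * (-M) * ∑ q, α q * m q + (-M) ^ 2

include hj h1 h2 hT in
theorem ck_lower (s : ℕ) : M ^ 2 + (1 / (2 : ℝ) ^ (d * j)) * ∑ z ∈ inn j s, FF M Γ m (t6cW s z) ≤
    (1 / (2 : ℝ) ^ (d * J)) * ∑ w, qf (cn e Γ m) (t6cW s w) := by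
  classical
  set μ : Site d j → ℝ := fun z => ∑ q, t6cW s z q * m q with hμ
  set h : Site d j → ℝ := fun z => if z ∈ inn j s then qf Γ (t6cW s z) else μ z ^ 2 with hh
  have h3 : ∀ w : Site d J, h (red j w) ≤ qf (cn e Γ m) (t6cW s w) := by
    intro w
    simp only [hh]
    split_ifs with hw
    · rw [cn_inner e h1 h2 s w hw]
    · have := cn_ge e hT (t6cW s w)
      rw [mu_eq hj e h1] at this
      exact this
  have h4 : (1 / (2 : ℝ) ^ (d * j)) * ∑ z, h z ≤
      (1 / (2 : ℝ) ^ (d * J)) * ∑ w, qf (cn e Γ m) (t6cW s w) := by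
    rw [← Pool.Agent.H11R2.BEC.T2c.mean_red hj h]
    exact mul_le_mul_of_nonneg_left (Finset.sum_le_sum fun w _ => h3 w) (by positivity)
  refine le_trans ?_ h4
  have hb : (0 : ℝ) < (2 : ℝ) ^ (d * j) := by positivity
  have h5 : ∑ z, μ z = (2 : ℝ) ^ (d * j) * M := by
    simp only [hμ]
    rw [t6_avg, hT.msum, t8_card_site]
  have h6 : ∀ z, (if z ∈ inn j s then FF M Γ m (t6cW s z) else 0) + (2 * M * μ z - M ^ 2) ≤ h z := by
    intro z
    simp only [hh]
    split_ifs with hz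
    · unfold FF
      simp only [hμ]
      nlinarith
    · nlinarith [sq_nonneg (μ z - M)]
  have h7 := Finset.sum_le_sum fun z (_ : z ∈ (univ : Finset (Site d j))) => h6 z
  rw [Finset.sum_add_distrib, Finset.sum_ite_mem, Finset.univ_inter, Finset.sum_sub_distrib,
    ← Finset.mul_sum, h5, Finset.sum_const, Finset.card_univ, nsmul_eq_mul, t8_card_site] at h7
  calc M ^ 2 + (1 / (2 : ℝ) ^ (d * j)) * ∑ z ∈ inn j s, FF M Γ m (t6cW s z) =
      (1 / (2 : ℝ) ^ (d * j)) * (∑ z ∈ inn j s, FF M Γ m (t6cW s z) +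
        (2 * M * ((2 : ℝ) ^ (d * j) * M) - (2 : ℝ) ^ (d * j) * M ^ 2)) := by
        field_simp; ring
    _ ≤ _ := mul_le_mul_of_nonneg_left h7 (by positivity)

include hT in
theorem FF_unif : FF M Γ m (t6cW j 0) = M / (2 : ℝ) ^ (d * j) := by
  have hb : (0 : ℝ) < (2 : ℝ) ^ (d * j) := by positivity
  unfold FF qf
  simp only [t6_top]
  have e1 : ∑ x : Site d j, ∑ y : Site d j, 1 / (2 : ℝ) ^ (d * j) * (1 / (2 : ℝ) ^ (d * j)) * Γ x y =
      1 / (2 : ℝ) ^ (d * j) * (1 / (2 : ℝ) ^ (d * j)) * ∑ x, ∑ y, Γ x y := by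
    rw [Finset.mul_sum]
    exact Finset.sum_congr rfl fun x _ => by rw [Finset.mul_sum]
  rw [e1, hT.gsum, ← Finset.mul_sum, hT.msum, t8_card_site]
  field_simp
  ring

include hT in
theorem unif_eq : qf Γ (t6cW j 0) = M ^ 2 + M / (2 : ℝ) ^ (d * j) := by
  have h := FF_unif hT
  have hb : (0 : ℝ) < (2 : ℝ) ^ (d * j) := by positivity
  unfold FF at h
  have h2 : ∑ q : Site d j, t6cW j 0 q * m q = M := by
    simp only [t6_top]
    rw [← Finset.mul_sum, hT.msum, t8_card_site]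
    field_simp
  rw [h2] at h
  linarith

include hT in
theorem FF_nonneg (α : Site d j → ℝ) : 0 ≤ FF M Γ m α := hT.nn α (-M)

include hT in
theorem FF_lower {s : ℕ} (z : Site d j) {θ : ℝ} (hθ : 0 < θ) :
    qf Γ (fun q => t6cW s z q - t6cW j 0 q) - (3 * θ + 1 / (2 * (2 : ℝ) ^ (d * j) * θ)) ≤
      FF M Γ m (t6cW s z) := by
  have h1 := hT.split (fun q => t6cW s z q - t6cW j 0 q) (t6cW j 0) hθ (-M)
  have h2 : (fun q => 1 * (t6cW s z q - t6cW j 0 q) + t6cW j 0 q) = t6cW s z := by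
    funext q; ring
  have h3 : ∑ q, (1 * (t6cW s z q - t6cW j 0 q) + t6cW j 0 q) * m q = ∑ q, t6cW s z q * m q := by
    exact Finset.sum_congr rfl fun q _ => by ring
  rw [h2, h3] at h1
  have h4 : qf Γ (t6cW j 0) + 2 * (-M) * ∑ q, t6cW j 0 q * m q + (-M) ^ 2 = M / (2 : ℝ) ^ (d * j) :=
    FF_unif hT
  rw [h4] at h1
  have hb : (0 : ℝ) < (2 : ℝ) ^ (d * j) := by positivity
  -- the bound by 3
  have h5 : qf Γ (fun q => t6cW s z q - t6cW j 0 q) ≤ 3 := by
    have h6 := qf_smul_add Γ (t6cW j 0) (t6cW s z) (-1)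
    have h7 := qf_smul_add Γ (t6cW j 0) (t6cW s z) 1
    have h8 := hT.qf_nonneg (fun x => 1 * t6cW j 0 x + t6cW s z x)
    have h9 := qf_le hT.le (t6_nonneg s z) (t6_one s z)
    have h10 := qf_le hT.le (t6_nonneg j (0 : Site d j)) (t6_one j 0)
    have h11 : (fun x => -1 * t6cW j 0 x + t6cW s z x) = fun q => t6cW s z q - t6cW j 0 q := by
      funext q; ring
    rw [h11] at h6
    rw [h6]
    rw [h7] at h8
    linarith
  have h6 : M / (2 : ℝ) ^ (d * j) / θ ≤ 1 / (2 * (2 : ℝ) ^ (d * j) * θ) := by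
    rw [div_div, div_le_div_iff₀ (by positivity) (by positivity)]
    have := hT.hM1
    have h7 : 0 < (2 : ℝ) ^ (d * j) * θ := by positivity
    nlinarith
  unfold FF
  nlinarith

include hj h1 h2 hT in
theorem ck_big (s : ℕ) : M ^ 2 ≤ (1 / (2 : ℝ) ^ (d * J)) * ∑ w, qf (cn e Γ m) (t6cW s w) := by
  refine le_trans ?_ (ck_lower hj e h1 h2 hT s)
  have : 0 ≤ (1 / (2 : ℝ) ^ (d * j)) * ∑ z ∈ inn j s, FF M Γ m (t6cW s z) :=
    mul_nonneg (by positivity) (Finset.sum_nonneg fun z _ => FF_nonneg hT _)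
  linarith

include hj h1 h2 hT in
theorem ck_small (s : ℕ) {θ : ℝ} (hθ : 0 < θ) : M ^ 2 + (1 / (2 : ℝ) ^ (d * j)) * ∑ z ∈ inn j s,
    qf Γ (fun q => t6cW s z q - t6cW j 0 q) - (3 * θ + 1 / (2 * (2 : ℝ) ^ (d * j) * θ)) ≤
      (1 / (2 : ℝ) ^ (d * J)) * ∑ w, qf (cn e Γ m) (t6cW s w) := by
  refine le_trans ?_ (ck_lower hj e h1 h2 hT s)
  have hb : (0 : ℝ) < (2 : ℝ) ^ (d * j) := by positivity
  have h3 : ∑ z ∈ inn j s, (qf Γ (fun q => t6cW s z q - t6cW j 0 q) -
      (3 * θ + 1 / (2 * (2 : ℝ) ^ (d * j) * θ))) ≤ ∑ z ∈ inn j s, FF M Γ m (t6cW s z) :=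
    Finset.sum_le_sum fun z _ => FF_lower hT z hθ
  rw [Finset.sum_sub_distrib, Finset.sum_const, nsmul_eq_mul] at h3
  have h4 := mul_le_mul_of_nonneg_left h3 (show 0 ≤ 1 / (2 : ℝ) ^ (d * j) by positivity)
  have h5 := ki_inn_card d j s
  have hE : 0 ≤ 3 * θ + 1 / (2 * (2 : ℝ) ^ (d * j) * θ) := by positivity
  have h6 : (1 / (2 : ℝ) ^ (d * j)) * (((inn j s : Finset (Site d j)).card : ℝ) *
      (3 * θ + 1 / (2 * (2 : ℝ) ^ (d * j) * θ))) ≤ 3 * θ + 1 / (2 * (2 : ℝ) ^ (d * j) * θ) := by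
    rw [← mul_assoc]
    have h7 : (1 / (2 : ℝ) ^ (d * j)) * ((inn j s : Finset (Site d j)).card : ℝ) ≤ 1 := by
      rw [one_div, inv_mul_eq_div, div_le_one hb]; exact h5
    nlinarith
  rw [mul_sub] at h4
  linarith

end tile

end Pool.Agent.W761.HF
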