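import Pool.Agent.W761.HF.Adapt

/-!
# Correlations of spins in a state
-/

set_option autoImplicit false

open Finset BigOperators Matrix

set_option linter.unusedSectionVars false
set_option linter.unusedSimpArgs false

namespace Pool.Agent.W761.HF

variable {S : Type} [Fintype S] [DecidableEq S]

/-- spin correlation -/
noncomputable def gam (σ : Matrix (S → Bool) (S → Bool) ℝ) (x y : S) : ℝ := (σ * dot x y).trace

/-- magnetisation -/
noncomputable def mag (σ : Matrix (S → Bool) (S → Bool) ℝ) (x : S) : ℝ := (σ * loc x zM).trace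

theorem sq_trace_le {n : Type} [Fintype n] [DecidableEq n] {σ : Matrix n n ℝ} (hσ : Pos σ)
    (h1 : σ.trace = 1) (B : Matrix n n ℝ) (hB : Bᵀ = B) :
    (σ * B).trace ^ 2 ≤ (σ * (B * B)).trace := by
  set c := (σ * B).trace with hc
  have h := hσ.2 (B - c • 1)
  rw [transpose_sub, transpose_smul, transpose_one, hB] at h
  have h2 : σ * ((B - c • (1 : Matrix n n ℝ)) * (B - c • (1 : Matrix n n ℝ))) =
      σ * (B * B) - (2 * c) • (σ * B) + (c ^ 2) • σ := by
    simp only [Matrix.sub_mul, Matrix.mul_sub, Matrix.smul_mul, Matrix.mul_smul, Matrix.one_mul,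
      Matrix.mul_one]
    module
  rw [h2, trace_add, trace_sub, trace_smul, trace_smul, h1, ← hc, smul_eq_mul, smul_eq_mul] at h
  nlinarith

/-- linear combination of one site operators -/
noncomputable def lin (α : S → ℝ) (a : Matrix Bool Bool ℝ) : Matrix (S → Bool) (S → Bool) ℝ :=
  ∑ x, α x • loc x a

theorem lin_T (α : S → ℝ) (a : Matrix Bool Bool ℝ) : (lin α a)ᵀ = lin α aᵀ := by
  unfold lin
  rw [transpose_sum]
  simp only [transpose_smul, loc_transpose]

theorem lin_mul (α : S → ℝ) (a b : Matrix Bool Bool ℝ) :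
    lin α a * lin α b = ∑ x, ∑ y, (α x * α y) • (loc x a * loc y b) := by
  unfold lin
  rw [Finset.sum_mul]
  refine Finset.sum_congr rfl fun x _ => ?_
  rw [Finset.mul_sum]
  refine Finset.sum_congr rfl fun y _ => ?_
  rw [Matrix.smul_mul, Matrix.mul_smul, smul_smul]

theorem lin_dot (α : S → ℝ) : ∑ x, ∑ y, (α x * α y) • dot x y =
    (1 / 2 : ℝ) • (lin α pM * lin α mM + lin α mM * lin α pM) + lin α zM * lin α zM := by
  rw [lin_mul, lin_mul, lin_mul, ← Finset.sum_add_distrib, Finset.smul_sum, ← Finset.sum_add_distrib]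
  refine Finset.sum_congr rfl fun x _ => ?_
  rw [← Finset.sum_add_distrib, Finset.smul_sum, ← Finset.sum_add_distrib]
  refine Finset.sum_congr rfl fun y _ => ?_
  unfold dot
  module

theorem gam_sum (σ : Matrix (S → Bool) (S → Bool) ℝ) (α : S → ℝ) :
    ∑ x, ∑ y, α x * α y * gam σ x y = (σ * ((1 / 2 : ℝ) • (lin α pM * lin α mM + lin α mM * lin α pM) +
      lin α zM * lin α zM)).trace := by
  rw [← lin_dot, Finset.mul_sum, trace_sum]
  refine Finset.sum_congr rfl fun x _ => ?_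
  rw [Finset.mul_sum, trace_sum]
  refine Finset.sum_congr rfl fun y _ => ?_
  rw [Matrix.mul_smul, trace_smul, smul_eq_mul]
  rfl

theorem mag_sum (σ : Matrix (S → Bool) (S → Bool) ℝ) (α : S → ℝ) :
    ∑ x, α x * mag σ x = (σ * lin α zM).trace := by
  unfold lin
  rw [Finset.mul_sum, trace_sum]
  refine Finset.sum_congr rfl fun x _ => ?_
  rw [Matrix.mul_smul, trace_smul, smul_eq_mul]
  rfl

theorem psd_ext {σ : Matrix (S → Bool) (S → Bool) ℝ} (hσ : Pos σ) (h1 : σ.trace = 1) (α : S → ℝ) :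
    (∑ x, α x * mag σ x) ^ 2 ≤ ∑ x, ∑ y, α x * α y * gam σ x y := by
  rw [gam_sum, mag_sum, Matrix.mul_add, trace_add, Matrix.mul_smul, trace_smul, Matrix.mul_add,
    trace_add, smul_eq_mul]
  have h2 := hσ.2 (lin α pM)
  have h3 := hσ.2 (lin α mM)
  rw [lin_T, pM_T] at h2
  rw [lin_T, mM_T] at h3
  have h4 := sq_trace_le hσ h1 (lin α zM) (by rw [lin_T, zM_T])
  linarith

theorem gam_comm (σ : Matrix (S → Bool) (S → Bool) ℝ) (x y : S) : gam σ x y = gam σ y x := by
  unfold gam; rw [dot_comm]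

theorem gam_self {σ : Matrix (S → Bool) (S → Bool) ℝ} (h1 : σ.trace = 1) (x : S) :
    gam σ x x = 3 / 4 := by
  unfold gam; rw [dot_self, Matrix.mul_smul, trace_smul, Matrix.mul_one, h1]; norm_num

theorem gam_le {σ : Matrix (S → Bool) (S → Bool) ℝ} (hσ : Pos σ) (h1 : σ.trace = 1) {x y : S}
    (h : x ≠ y) : gam σ x y ≤ 1 / 4 := by
  have h2 := hσ.2 (1 - trn x y)
  rw [transpose_sub, transpose_one, trn_transpose] at h2
  have h3 : (1 - trn x y) * (1 - trn x y) = (2 : ℝ) • (1 : Matrix _ _ ℝ) - (2 : ℝ) • trn x y := by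
    rw [Matrix.sub_mul, Matrix.mul_sub, Matrix.mul_sub, Matrix.one_mul, Matrix.one_mul,
      Matrix.mul_one, trn_sq]
    module
  rw [h3, Matrix.mul_sub, trace_sub, Matrix.mul_smul, Matrix.mul_smul, trace_smul, trace_smul,
    Matrix.mul_one, h1, smul_eq_mul, smul_eq_mul] at h2
  unfold gam
  rw [dot_eq h, Matrix.mul_sub, trace_sub, Matrix.mul_smul, Matrix.mul_smul, trace_smul, trace_smul,
    Matrix.mul_one, h1, smul_eq_mul, smul_eq_mul]
  linarith

theorem gam_le' {σ : Matrix (S → Bool) (S → Bool) ℝ} (hσ : Pos σ) (h1 : σ.trace = 1) (x y : S) :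
    gam σ x y ≤ 3 / 4 := by
  by_cases h : x = y
  · rw [h, gam_self h1]
  · have := gam_le hσ h1 h; linarith

theorem mag_sq_le {σ : Matrix (S → Bool) (S → Bool) ℝ} (hσ : Pos σ) (h1 : σ.trace = 1) (x : S) :
    mag σ x ^ 2 ≤ 1 / 4 := by
  have h := sq_trace_le hσ h1 (loc x zM) (by rw [loc_transpose, zM_T])
  rw [loc_mul, zM_sq, loc_smul, loc_one, Matrix.mul_smul, trace_smul, Matrix.mul_one, h1] at h
  unfold mag
  simpa using h

theorem lin_one (a : Matrix Bool Bool ℝ) : lin (fun _ : S => (1 : ℝ)) a = tot S a := by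
  unfold lin tot; simp

section ad
variable {Q : Type} [Fintype Q] [DecidableEq Q] {M : ℝ} {σ W : Matrix (Q → Bool) (Q → Bool) ℝ}
  {r : (Q → Bool) → ℝ}

theorem AdState.tr (h : AdState M σ W r) : σ.trace = 1 := by
  rw [h.hdiag, trace_diag h.hW, h.hr1]

theorem AdState.mag_sum (h : AdState M σ W r) : ∑ q, mag σ q = Fintype.card Q * M := by
  have h1 := HF.mag_sum σ (fun _ : Q => (1 : ℝ))
  simp only [one_mul] at h1
  rw [h1, lin_one, trace_mul_comm, h.hZ, trace_smul, h.tr, smul_eq_mul, mul_one]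

theorem AdState.gam_sum (h : AdState M σ W r) : ∑ q, ∑ q', gam σ q q' =
    (Fintype.card Q * M) ^ 2 + Fintype.card Q * M := by
  have h1 := HF.gam_sum σ (fun _ : Q => (1 : ℝ))
  simp only [one_mul, mul_one] at h1
  rw [h1, lin_one, lin_one, lin_one]
  have h2 : tot Q pM * tot Q mM = tot Q mM * tot Q pM + (2 : ℝ) • tot Q zM := by
    rw [← PM_rel]; abel
  have h3 : (σ * (tot Q mM * tot Q pM)).trace = 0 := by
    rw [← Matrix.mul_assoc, trace_mul_comm, ← Matrix.mul_assoc, h.hP, Matrix.zero_mul, trace_zero]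
  have h4 : (σ * tot Q zM).trace = Fintype.card Q * M := by
    rw [trace_mul_comm, h.hZ, trace_smul, h.tr, smul_eq_mul, mul_one]
  have h5 : (σ * (tot Q zM * tot Q zM)).trace = (Fintype.card Q * M) ^ 2 := by
    rw [← Matrix.mul_assoc, trace_mul_comm, ← Matrix.mul_assoc, h.hZ, Matrix.smul_mul, trace_smul,
      h4, smul_eq_mul, sq]
  rw [h2]
  have h6 : (1 / 2 : ℝ) • (tot Q mM * tot Q pM + (2 : ℝ) • tot Q zM + tot Q mM * tot Q pM) +
      tot Q zM * tot Q zM = tot Q mM * tot Q pM + tot Q zM + tot Q zM * tot Q zM := by module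
  rw [h6, Matrix.mul_add, Matrix.mul_add, trace_add, trace_add, h3, h4, h5]
  ring

theorem AdState.tr_p (h : AdState M σ W r) (q : Q) : (σ * loc q pM).trace = 0 := by
  have h1 : σ * tot Q zM = ((Fintype.card Q : ℝ) * M) • σ := by
    have := congrArg Matrix.transpose h.hZ
    rw [transpose_mul, tZ_T, h.hpos.1, transpose_smul, h.hpos.1] at this
    exact this
  have h2 : loc q pM = cm (tot Q zM) (loc q pM) := by
    rw [cm_tot]
    congr 1
    have := pM_zM
    unfold cm
    rw [← neg_sub, this, neg_neg]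
  rw [h2]
  unfold cm
  rw [Matrix.mul_sub, trace_sub, ← Matrix.mul_assoc, h1, ← Matrix.mul_assoc, trace_mul_comm _ (tot Q zM),
    ← Matrix.mul_assoc, h.hZ, sub_self]

theorem AdState.tr_m (h : AdState M σ W r) (q : Q) : (σ * loc q mM).trace = 0 := by
  have h1 := h.tr_p q
  rw [← trace_transpose, transpose_mul, loc_transpose, pM_T, h.hpos.1, trace_mul_comm] at h1
  exact h1

end ad

end Pool.Agent.W761.HF
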