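import Mathlib

/-!
# Gibbs variational principle for finite real symmetric matrices
-/

set_option autoImplicit false

open Finset BigOperators Matrix

set_option linter.unusedSectionVars false

namespace Pool.Agent.W761.HF

theorem mul_log_ge {x y : ℝ} (hx : 0 ≤ x) (hy : 0 < y) : x - y ≤ x * (Real.log x - Real.log y) := by
  rcases hx.eq_or_lt with h | h
  · rw [← h]; simp; exact hy.le
  · have h1 := Real.one_sub_inv_le_log_of_pos (div_pos h hy)
    rw [Real.log_div h.ne' hy.ne', inv_div] at h1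
    have h2 : x * (1 - y / x) = x - y := by field_simp
    nlinarith

theorem klein {A B : Type} [Fintype A] [Fintype B] (D : A → B → ℝ) (hD : ∀ a b, 0 ≤ D a b)
    (x : A → ℝ) (hx : ∀ a, 0 ≤ x a) (y : B → ℝ) (hy : ∀ b, 0 < y b) :
    ∑ a, ∑ b, D a b * (x a - y b) ≤ ∑ a, ∑ b, D a b * (x a * (Real.log (x a) - Real.log (y b))) :=
  Finset.sum_le_sum fun a _ => Finset.sum_le_sum fun b _ =>
    mul_le_mul_of_nonneg_left (mul_log_ge (hx a) (hy b)) (hD a b)

variable {X : Type} [Fintype X] [DecidableEq X]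

/-- orthogonal matrices -/
def Orth (U : Matrix X X ℝ) : Prop := U * Uᵀ = 1 ∧ Uᵀ * U = 1

theorem exists_diag (A : Matrix X X ℝ) (hA : Aᵀ = A) :
    ∃ (U : Matrix X X ℝ) (e : X → ℝ), Orth U ∧ A = U * diagonal e * Uᵀ := by
  have hH : A.IsHermitian := by
    rw [Matrix.IsHermitian, conjTranspose_eq_transpose_of_trivial]; exact hA
  refine ⟨(hH.eigenvectorUnitary : Matrix X X ℝ), hH.eigenvalues, ?_, ?_⟩
  · have h1 := (Matrix.mem_unitaryGroup_iff).1 hH.eigenvectorUnitary.2
    have h2 := (Matrix.mem_unitaryGroup_iff').1 hH.eigenvectorUnitary.2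
    rw [star_eq_conjTranspose, conjTranspose_eq_transpose_of_trivial] at h1 h2
    exact ⟨h1, h2⟩
  · have h := hH.spectral_theorem
    conv_lhs => rw [h]
    simp [Unitary.conjStarAlgAut_apply, star_eq_conjTranspose, conjTranspose_eq_transpose_of_trivial]

/-- squared overlaps -/
def ov (U V : Matrix X X ℝ) (i k : X) : ℝ := ((Uᵀ * V) i k) ^ 2

theorem ov_nonneg (U V : Matrix X X ℝ) (i k : X) : 0 ≤ ov U V i k := sq_nonneg _

theorem ov_sum_left {U V : Matrix X X ℝ} (hU : Orth U) (hV : Orth V) (k : X) :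
    ∑ i, ov U V i k = 1 := by
  have h : ((Uᵀ * V)ᵀ * (Uᵀ * V)) k k = 1 := by
    rw [transpose_mul, transpose_transpose, Matrix.mul_assoc, ← Matrix.mul_assoc U, hU.1,
      Matrix.one_mul, hV.2, one_apply_eq]
  rw [← h, Matrix.mul_apply]
  refine Finset.sum_congr rfl fun i _ => ?_
  rw [transpose_apply, ov, sq]

theorem ov_sum_right {U V : Matrix X X ℝ} (hU : Orth U) (hV : Orth V) (i : X) :
    ∑ k, ov U V i k = 1 := by
  have h : ((Uᵀ * V) * (Uᵀ * V)ᵀ) i i = 1 := by
    rw [transpose_mul, transpose_transpose, Matrix.mul_assoc, ← Matrix.mul_assoc V, hV.1,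
      Matrix.one_mul, hU.2, one_apply_eq]
  rw [← h, Matrix.mul_apply]
  refine Finset.sum_congr rfl fun k _ => ?_
  rw [transpose_apply, ov, sq]

theorem diag_apply {U V : Matrix X X ℝ} (e : X → ℝ) (k : X) :
    (Vᵀ * (U * diagonal e * Uᵀ) * V) k k = ∑ i, e i * ov U V i k := by
  have h : Vᵀ * (U * diagonal e * Uᵀ) * V = (Uᵀ * V)ᵀ * (diagonal e * (Uᵀ * V)) := by
    rw [transpose_mul, transpose_transpose]; simp only [Matrix.mul_assoc]
  rw [h, Matrix.mul_apply]
  refine Finset.sum_congr rfl fun i _ => ?_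
  rw [diagonal_mul, transpose_apply, ov]
  ring

/-- lower bound for the partition function (Peierls) -/
theorem gibbs_lower {U V : Matrix X X ℝ} (hU : Orth U) (hV : Orth V) (h : X → ℝ)
    (r : X → ℝ) (hr : ∀ k, 0 ≤ r k) (hr1 : ∑ k, r k = 1) :
    ∑ k, r k * (Vᵀ * (U * diagonal h * Uᵀ) * V) k k - ∑ k, r k * Real.log (r k) ≤
      Real.log (∑ i, Real.exp (h i)) := by
  have hne : (univ : Finset X).Nonempty := by
    rw [Finset.nonempty_iff_ne_empty]; intro h0; rw [h0] at hr1; simp at hr1
  set Z := ∑ i, Real.exp (h i) with hZ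
  have hZ0 : 0 < Z := Finset.sum_pos (fun i _ => Real.exp_pos _) hne
  have hk := klein (fun k i => ov U V i k) (fun k i => ov_nonneg U V i k) r hr
    (fun i => Real.exp (h i) / Z) (fun i => div_pos (Real.exp_pos _) hZ0)
  have h1 : ∑ k, ∑ i, ov U V i k * (r k - Real.exp (h i) / Z) = 0 := by
    have e1 : ∀ k, ∑ i, ov U V i k * (r k - Real.exp (h i) / Z) =
        r k - ∑ i, ov U V i k * (Real.exp (h i) / Z) := by
      intro k
      simp only [mul_sub]
      rw [Finset.sum_sub_distrib, ← Finset.sum_mul, ov_sum_left hU hV, one_mul]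
    simp only [e1]
    rw [Finset.sum_sub_distrib, hr1, Finset.sum_comm]
    have e2 : ∀ i, ∑ k, ov U V i k * (Real.exp (h i) / Z) = Real.exp (h i) / Z := by
      intro i
      rw [← Finset.sum_mul, ov_sum_right hU hV, one_mul]
    simp only [e2]
    rw [← Finset.sum_div, ← hZ, div_self hZ0.ne', sub_self]
  have h2 : ∑ k, ∑ i, ov U V i k * (r k * (Real.log (r k) - Real.log (Real.exp (h i) / Z))) =
      ∑ k, r k * Real.log (r k) - ∑ k, r k * (Vᵀ * (U * diagonal h * Uᵀ) * V) k k + Real.log Z := by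
    have e1 : ∀ k, ∑ i, ov U V i k * (r k * (Real.log (r k) - Real.log (Real.exp (h i) / Z))) =
        r k * Real.log (r k) - r k * (Vᵀ * (U * diagonal h * Uᵀ) * V) k k + r k * Real.log Z := by
      intro k
      rw [diag_apply]
      have e3 : ∀ i, ov U V i k * (r k * (Real.log (r k) - Real.log (Real.exp (h i) / Z))) =
          ov U V i k * (r k * Real.log (r k) + r k * Real.log Z) - r k * (h i * ov U V i k) := by
        intro i
        rw [Real.log_div (Real.exp_pos _).ne' hZ0.ne', Real.log_exp]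
        ring
      simp only [e3]
      rw [Finset.sum_sub_distrib, ← Finset.sum_mul, ov_sum_left hU hV, ← Finset.mul_sum]
      ring
    simp only [e1]
    rw [Finset.sum_add_distrib, Finset.sum_sub_distrib, ← Finset.sum_mul, hr1, one_mul]
  rw [h1, h2] at hk
  linarith

/-- upper bound for the partition function -/
theorem gibbs_upper {U V : Matrix X X ℝ} (hU : Orth U) (hV : Orth V) (h : X → ℝ) [Nonempty X]
    (y : X → ℝ) (hy : ∀ k, 0 < y k) (hy1 : ∑ k, y k = 1) :
    Real.log (∑ i, Real.exp (h i)) ≤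
      ∑ i, (Real.exp (h i) / ∑ i, Real.exp (h i)) * h i -
        ∑ k, (Vᵀ * (U * diagonal (fun i => Real.exp (h i) / ∑ i, Real.exp (h i)) * Uᵀ) * V) k k *
          Real.log (y k) := by
  set Z := ∑ i, Real.exp (h i) with hZ
  have hZ0 : 0 < Z := Finset.sum_pos (fun i _ => Real.exp_pos _) Finset.univ_nonempty
  set p : X → ℝ := fun i => Real.exp (h i) / Z with hp
  have hp0 : ∀ i, 0 < p i := fun i => div_pos (Real.exp_pos _) hZ0
  have hp1 : ∑ i, p i = 1 := by
    simp only [hp]; rw [← Finset.sum_div, ← hZ, div_self hZ0.ne']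
  have hk := klein (fun i k => ov U V i k) (fun i k => ov_nonneg U V i k) p (fun i => (hp0 i).le)
    y hy
  have h1 : ∑ i, ∑ k, ov U V i k * (p i - y k) = 0 := by
    have e1 : ∀ i, ∑ k, ov U V i k * (p i - y k) = p i - ∑ k, ov U V i k * y k := by
      intro i
      simp only [mul_sub]
      rw [Finset.sum_sub_distrib, ← Finset.sum_mul, ov_sum_right hU hV, one_mul]
    simp only [e1]
    rw [Finset.sum_sub_distrib, hp1, Finset.sum_comm]
    have e2 : ∀ k, ∑ i, ov U V i k * y k = y k := by
      intro k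
      rw [← Finset.sum_mul, ov_sum_left hU hV, one_mul]
    simp only [e2]
    rw [hy1, sub_self]
  have h2 : ∑ i, ∑ k, ov U V i k * (p i * (Real.log (p i) - Real.log (y k))) =
      ∑ i, p i * h i - Real.log Z - ∑ k, (Vᵀ * (U * diagonal p * Uᵀ) * V) k k * Real.log (y k) := by
    have e1 : ∀ i, ∑ k, ov U V i k * (p i * (Real.log (p i) - Real.log (y k))) =
        (p i * h i - p i * Real.log Z) - ∑ k, p i * ov U V i k * Real.log (y k) := by
      intro i
      have e3 : ∀ k, ov U V i k * (p i * (Real.log (p i) - Real.log (y k))) =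
          ov U V i k * (p i * Real.log (p i)) - p i * ov U V i k * Real.log (y k) := by
        intro k; ring
      simp only [e3]
      rw [Finset.sum_sub_distrib, ← Finset.sum_mul, ov_sum_right hU hV]
      have : Real.log (p i) = h i - Real.log Z := by
        simp only [hp]; rw [Real.log_div (Real.exp_pos _).ne' hZ0.ne', Real.log_exp]
      rw [this]; ring
    simp only [e1]
    rw [Finset.sum_sub_distrib, Finset.sum_sub_distrib, ← Finset.sum_mul, hp1, one_mul,
      Finset.sum_comm]
    congr 1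
    refine Finset.sum_congr rfl fun k _ => ?_
    rw [diag_apply, Finset.sum_mul]
  rw [h1, h2] at hk
  linarith

end Pool.Agent.W761.HF
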