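import Pool.Agent.W761.HF.Spin

/-!
# Functional calculus through diagonalisations
-/

set_option autoImplicit false

open Finset BigOperators Matrix

set_option linter.unusedSectionVars false
set_option linter.unusedSimpArgs false

namespace Pool.Agent.W761.HF

variable {n : Type} [Fintype n] [DecidableEq n]

theorem fc_intertwine {U U₂ : Matrix n n ℝ} (hU : Orth U) (hU₂ : Orth U₂) {h h₂ : n → ℝ}
    {B : Matrix n n ℝ}
    (hB : B * (U * diagonal h * Uᵀ) = (U₂ * diagonal h₂ * U₂ᵀ) * B) (f : ℝ → ℝ) :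
    B * (U * diagonal (fun i => f (h i)) * Uᵀ) =
      (U₂ * diagonal (fun i => f (h₂ i)) * U₂ᵀ) * B := by
  set B' := U₂ᵀ * B * U with hB'
  have hBB : B = U₂ * B' * Uᵀ := by
    rw [hB']
    calc B = (U₂ * U₂ᵀ) * B * (U * Uᵀ) := by rw [hU.1, hU₂.1, Matrix.one_mul, Matrix.mul_one]
      _ = _ := by simp only [Matrix.mul_assoc]
  have h1 : B' * diagonal h = diagonal h₂ * B' := by
    calc B' * diagonal h = U₂ᵀ * (B * (U * diagonal h * Uᵀ)) * U := by
          rw [hB']
          have : U₂ᵀ * (B * (U * diagonal h * Uᵀ)) * U = U₂ᵀ * B * U * diagonal h * (Uᵀ * U) := by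
            simp only [Matrix.mul_assoc]
          rw [this, hU.2, Matrix.mul_one]
      _ = U₂ᵀ * ((U₂ * diagonal h₂ * U₂ᵀ) * B) * U := by rw [hB]
      _ = (U₂ᵀ * U₂) * (diagonal h₂ * (U₂ᵀ * B * U)) := by simp only [Matrix.mul_assoc]
      _ = _ := by rw [hU₂.2, Matrix.one_mul]
  have h2 : B' * diagonal (fun i => f (h i)) = diagonal (fun i => f (h₂ i)) * B' := by
    ext i j
    have h3 := congrFun (congrFun h1 i) j
    rw [mul_diagonal, diagonal_mul] at h3 ⊢
    by_cases h4 : B' i j = 0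
    · rw [h4]; simp
    · have : h j = h₂ i := by
        have h5 : B' i j * (h j - h₂ i) = 0 := by linarith
        rcases mul_eq_zero.1 h5 with h6 | h6
        · exact absurd h6 h4
        · linarith
      rw [this]; ring
  rw [hBB]
  calc U₂ * B' * Uᵀ * (U * diagonal (fun i => f (h i)) * Uᵀ) =
      U₂ * (B' * ((Uᵀ * U) * diagonal (fun i => f (h i)))) * Uᵀ := by simp only [Matrix.mul_assoc]
    _ = U₂ * (diagonal (fun i => f (h₂ i)) * B') * Uᵀ := by rw [hU.2, Matrix.one_mul, h2]
    _ = U₂ * diagonal (fun i => f (h₂ i)) * (U₂ᵀ * U₂) * B' * Uᵀ := by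
        rw [hU₂.2, Matrix.mul_one]; simp only [Matrix.mul_assoc]
    _ = _ := by simp only [Matrix.mul_assoc]

theorem orth_one : Orth (1 : Matrix n n ℝ) := by
  constructor <;> simp

theorem orth_submatrix {m : Type} [Fintype m] [DecidableEq m] {U : Matrix n n ℝ} (hU : Orth U)
    (e : m ≃ n) : Orth (U.submatrix e e) := by
  constructor
  · rw [transpose_submatrix, submatrix_mul_equiv, hU.1, submatrix_one_equiv]
  · rw [transpose_submatrix, submatrix_mul_equiv, hU.2, submatrix_one_equiv]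

theorem diag_submatrix {m : Type} [Fintype m] [DecidableEq m] {U : Matrix n n ℝ}
    (h : n → ℝ) (e : m ≃ n) : (U * diagonal h * Uᵀ).submatrix e e =
      (U.submatrix e e) * diagonal (fun i => h (e i)) * (U.submatrix e e)ᵀ := by
  rw [transpose_submatrix]
  have : diagonal (fun i => h (e i)) = (diagonal h).submatrix e e := by
    rw [submatrix_diagonal_equiv]; rfl
  rw [this, submatrix_mul_equiv, submatrix_mul_equiv]

theorem trace_diag {U : Matrix n n ℝ} (hU : Orth U) (h : n → ℝ) :
    (U * diagonal h * Uᵀ).trace = ∑ i, h i := by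
  rw [trace_mul_comm, ← Matrix.mul_assoc, hU.2, Matrix.one_mul, trace_diagonal]

/-- commuting with `σ` implies commuting with functions of it -/
theorem fc_comm {U : Matrix n n ℝ} (hU : Orth U) {h : n → ℝ} {B : Matrix n n ℝ}
    (hB : B * (U * diagonal h * Uᵀ) = (U * diagonal h * Uᵀ) * B) (f : ℝ → ℝ) :
    B * (U * diagonal (fun i => f (h i)) * Uᵀ) = (U * diagonal (fun i => f (h i)) * Uᵀ) * B :=
  fc_intertwine hU hU hB f

theorem fc_unique {U U₂ : Matrix n n ℝ} (hU : Orth U) (hU₂ : Orth U₂) {h h₂ : n → ℝ}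
    (hB : U * diagonal h * Uᵀ = U₂ * diagonal h₂ * U₂ᵀ) (f : ℝ → ℝ) :
    U * diagonal (fun i => f (h i)) * Uᵀ = U₂ * diagonal (fun i => f (h₂ i)) * U₂ᵀ := by
  have := fc_intertwine (B := 1) hU hU₂ (by rw [Matrix.one_mul, Matrix.mul_one, hB]) f
  rwa [Matrix.one_mul, Matrix.mul_one] at this

theorem fc_cj {U : Matrix n n ℝ} (hU : Orth U) {h : n → ℝ} {e : n ≃ n}
    (hB : cj e (U * diagonal h * Uᵀ) = U * diagonal h * Uᵀ) (f : ℝ → ℝ) :
    cj e (U * diagonal (fun i => f (h i)) * Uᵀ) = U * diagonal (fun i => f (h i)) * Uᵀ := by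
  unfold cj at hB ⊢
  rw [diag_submatrix] at hB ⊢
  exact fc_unique (orth_submatrix hU e) hU hB f

/-- the eigenvalues of a nonnegative matrix are nonnegative -/
theorem pos_eig {U : Matrix n n ℝ} (hU : Orth U) {h : n → ℝ} (hσ : Pos (U * diagonal h * Uᵀ))
    (k : n) : 0 ≤ h k := by
  have h1 := hσ.2 (U * diagonal (fun i => if i = k then 1 else 0))
  have h2 : (U * diagonal (fun i => if i = k then (1 : ℝ) else 0)) *
      (U * diagonal (fun i => if i = k then (1 : ℝ) else 0))ᵀ =
      U * diagonal (fun i => if i = k then (1 : ℝ) else 0) * Uᵀ := by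
    rw [transpose_mul, diagonal_transpose]
    have : diagonal (fun i => if i = k then (1 : ℝ) else 0) *
      diagonal (fun i => if i = k then (1 : ℝ) else 0) = diagonal (fun i => if i = k then (1 : ℝ) else 0) := by
      rw [diagonal_mul_diagonal]
      congr 1
      funext i
      split_ifs <;> simp
    calc _ = U * (diagonal (fun i => if i = k then (1 : ℝ) else 0) *
        diagonal (fun i => if i = k then (1 : ℝ) else 0)) * Uᵀ := by simp only [Matrix.mul_assoc]
      _ = _ := by rw [this]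
  rw [h2] at h1
  have h3 : U * diagonal h * Uᵀ * (U * diagonal (fun i => if i = k then (1 : ℝ) else 0) * Uᵀ) =
      U * diagonal (fun i => if i = k then h k else 0) * Uᵀ := by
    calc _ = U * (diagonal h * (Uᵀ * U) * diagonal (fun i => if i = k then (1 : ℝ) else 0)) * Uᵀ := by
          simp only [Matrix.mul_assoc]
      _ = _ := by
        rw [hU.2, Matrix.mul_one, diagonal_mul_diagonal]
        congr 3
        funext i
        split_ifs with h5
        · rw [h5, mul_one]
        · rw [mul_zero]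
  rw [h3, trace_diag hU, Finset.sum_ite_eq' univ k, if_pos (Finset.mem_univ _)] at h1
  exact h1

theorem pos_zero {σ : Matrix n n ℝ} (hσ : Pos σ) (h0 : σ.trace = 0) : σ = 0 := by
  obtain ⟨U, h, hU, hh⟩ := exists_diag σ hσ.1
  rw [hh] at hσ h0 ⊢
  rw [trace_diag hU] at h0
  have h1 := (Finset.sum_eq_zero_iff_of_nonneg (fun k _ => pos_eig hU hσ k)).1 h0
  have : h = 0 := by funext k; exact h1 k (Finset.mem_univ _)
  rw [this]
  simp

theorem inv_comm {G A : Matrix n n ℝ} (hG : IsUnit G.det) (h : G * A = A * G) :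
    G⁻¹ * A = A * G⁻¹ := by
  calc G⁻¹ * A = G⁻¹ * (A * G) * G⁻¹ := by
        rw [Matrix.mul_assoc, Matrix.mul_assoc, Matrix.mul_nonsing_inv _ hG, Matrix.mul_one]
    _ = _ := by rw [← h, ← Matrix.mul_assoc, Matrix.nonsing_inv_mul _ hG, Matrix.one_mul]

theorem det_unit {A : Matrix n n ℝ} {c : ℝ} (hc : 0 < c) : IsUnit (Aᵀ * A + c • (1 : Matrix n n ℝ)).det := by
  rw [← Matrix.isUnit_iff_isUnit_det]
  have h1 : (Aᵀ * A).PosSemidef := by
    have := Matrix.posSemidef_conjTranspose_mul_self A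
    rwa [conjTranspose_eq_transpose_of_trivial] at this
  have h2 : (c • (1 : Matrix n n ℝ)).PosDef := Matrix.PosDef.one.smul hc
  exact (Matrix.PosDef.posSemidef_add h1 h2).isUnit

end Pool.Agent.W761.HF
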