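import Pool.Agent.W761.HF.Params

/-!
# Macroscopic cycles for the weighted interchange process with weak long-range rates
-/

set_option autoImplicit false

open Finset BigOperators Matrix

set_option linter.unusedSectionVars false
set_option linter.unusedSimpArgs false

namespace Pool.Agent.W761.Interchange

open Pool.Agent.W761.HF
open Pool.Agent.H11R2.LatticeBose (Torus periodize hopping supNorm oneNorm hopping_neg hopping_sum
  hopping_decay hopping_pos periodize_hopping)
open Pool.Agent.H11R2.BEC (Site t8_card_site per per_hasSum per_nonneg per_add t6cW cf Cd)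
open Pool.Agent.H11R2.BEC.Ker (sp ker ker_nonneg two_rpow_lt_one rd)

/-- The rate of the pair `{x, y}` of points of the torus `(ℤ / 2^J)^d`: the sum of the rates
`K z` over the vectors `z` of `ℤ^d` in the class of `y - x`. -/
noncomputable def rate {d : ℕ} (K : (Fin d → ℤ) → ℝ) (J : ℕ) (x y : Torus d J) : ℝ :=
  periodize K J (y - x)

section cyc
variable {Λ : Type} [Fintype Λ] [DecidableEq Λ]

open Classical in
theorem cycle_sum (π : Equiv.Perm Λ) (x : Λ) :
    (cycleLength π x : ℝ) = ∑ y, if π.SameCycle x y then 1 else 0 := by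
  unfold cycleLength
  rw [Set.ncard_eq_toFinset_card', Finset.sum_boole]
  congr 2
  ext y
  simp

variable {r : Λ → Λ → ℝ} {t : ℝ} {U : Matrix (Λ → Bool) (Λ → Bool) ℝ} {h : (Λ → Bool) → ℝ}

theorem wexp_cycle (hU : Orth U) (hH : HL (fun x y => t * r x y) = U * diagonal h * Uᵀ) (x : Λ) :
    wexp r t (fun π => (cycleLength π x : ℝ) / Fintype.card Λ) =
      4 / 3 * ((∑ y, gam (gs U h) x y) / Fintype.card Λ) := by
  classical
  obtain ⟨κ, hκ, h1, h2⟩ := part_sum hU hH
  unfold wexp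
  rw [h1]
  have h3 : ∑ π : Equiv.Perm Λ, law r t π * 2 ^ numCycles π * ((cycleLength π x : ℝ) / Fintype.card Λ) =
      (∑ y, κ * (4 / 3 * gam (gs U h) x y)) / Fintype.card Λ := by
    have h4 : ∀ y, κ * (4 / 3 * gam (gs U h) x y) = ∑ π : Equiv.Perm Λ, law r t π * 2 ^ numCycles π *
        (if π.SameCycle x y then 1 else 0) := by
      intro y
      rw [← h2 x y]
      refine Finset.sum_congr rfl fun π _ => ?_
      by_cases hs : π.SameCycle x y <;> simp [hs]
    simp only [h4]
    rw [Finset.sum_comm, Finset.sum_div]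
    refine Finset.sum_congr rfl fun π _ => ?_
    rw [← Finset.mul_sum, mul_div_assoc]
    congr 2
    rw [cycle_sum π x]
  rw [h3, ← Finset.mul_sum, ← Finset.mul_sum]
  field_simp

theorem wexp_congr {r r' : Λ → Λ → ℝ} (h : ∀ x y, x ≠ y → r x y = r' x y) (t : ℝ)
    (F : Equiv.Perm Λ → ℝ) : wexp r t F = wexp r' t F := by
  unfold wexp law
  rw [generator_congr h]

/-- Markov's inequality -/
theorem wexp_markov (hr : ∀ x y, 0 ≤ r x y) (ht : 0 ≤ t)
    (hZ : 0 < ∑ π, law r t π * 2 ^ numCycles π) (F G : Equiv.Perm Λ → ℝ) (δ : ℝ)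
    (hFG : ∀ π, F π ≤ G π + δ) : wexp r t F - δ ≤ wexp r t G := by
  unfold wexp
  rw [sub_le_iff_le_add, div_add' _ _ _ hZ.ne']
  apply div_le_div_of_nonneg_right _ hZ.le
  rw [Finset.mul_sum, ← Finset.sum_add_distrib]
  refine Finset.sum_le_sum fun π _ => ?_
  have h1 := law_nonneg hr ht π
  have h2 : 0 ≤ law r t π * 2 ^ numCycles π := by positivity
  nlinarith [mul_le_mul_of_nonneg_left (hFG π) h2]

theorem wexp_le (hr : ∀ x y, 0 ≤ r x y) (ht : 0 ≤ t)
    (hZ : 0 < ∑ π, law r t π * 2 ^ numCycles π) (F : Equiv.Perm Λ → ℝ) (hF : ∀ π, F π ≤ 1) :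
    wexp r t F ≤ 1 := by
  unfold wexp
  rw [div_le_one hZ]
  refine Finset.sum_le_sum fun π _ => ?_
  have h1 := law_nonneg hr ht π
  have h2 : 0 ≤ law r t π * 2 ^ numCycles π := by positivity
  nlinarith [hF π]

end cyc

variable {d J : ℕ}

theorem aa_top {C : Site d J → Site d J → ℝ} (hC : Ker C) :
    aa C J = (∑ y, C 0 y) / (2 : ℝ) ^ (d * J) := by
  have hV : (2 : ℝ) ^ (d * J) ≠ 0 := by positivity
  unfold aa qf
  simp only [t6_top]
  have h1 : ∀ x : Site d J, ∑ y, 1 / (2 : ℝ) ^ (d * J) * (1 / (2 : ℝ) ^ (d * J)) * C x y =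
      1 / (2 : ℝ) ^ (d * J) * (1 / (2 : ℝ) ^ (d * J)) * ∑ y, C 0 y := by
    intro x
    rw [← Finset.mul_sum]
    congr 1
    rw [← Equiv.sum_comp (Equiv.addLeft x)]
    refine Finset.sum_congr rfl fun y _ => ?_
    have := hC.trans x 0 y
    rw [add_zero] at this
    exact this
  simp only [h1]
  rw [Finset.sum_const, Finset.card_univ, nsmul_eq_mul, t8_card_site]
  field_simp

theorem per_eq (F : (Fin d → ℤ) → ℝ) (w : Torus d J) : periodize F J w = per F J w := rfl

theorem finite_volume (hd : 1 ≤ d) {σ lam β L : ℝ} (hσ : 0 < σ) (hlam : 0 < lam) (hβ : 0 < β)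
    {R : (Fin d → ℤ) → ℝ} (hR : ∀ z, 0 ≤ R z) (hR0 : R 0 = 0)
    (hL : HasSum (fun z => R z * oneNorm z) (lam * L)) (hL0 : 0 ≤ L) {m : ℕ} (hm : 2 * m ≤ J)
    (hq : 3 / 4 ≤ (2 : ℝ) ^ (-σ)) :
    ∃ b1 a : ℝ, β * lam ≤ b1 ∧
      1 / 4 - Real.log 2 / (b1 * ((2 : ℝ) ^ (-σ)) ^ (2 * m)) - 16 * d * (1 + Cd d) * (1 - (2 : ℝ) ^ (-σ)) -
        28 * (4 + 4 / b1 + L) * (8 / 9) ^ m ≤ a ∧
      wexp (rate (fun z => lam * hopping d σ z + R z) J) β
        (fun π => (cycleLength π (0 : Torus d J) : ℝ) / 2 ^ (d * J)) = 4 / 3 * a ∧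
      0 < ∑ π, law (rate (fun z => lam * hopping d σ z + R z) J) β π * 2 ^ numCycles π := by
  set q : ℝ := (2 : ℝ) ^ (-σ) with hqdef
  have hq0 : 0 < q := by positivity
  have hq1 : q < 1 := two_rpow_lt_one hσ
  have hk1 : 0 < 1 - ker d q 0 := hopping_pos hd hσ
  have hk2 : 0 ≤ ker d q 0 := ker_nonneg hq0.le hq1 0
  set b1 : ℝ := β * lam / (1 - ker d q 0) with hb1
  have hb1p : 0 < b1 := by positivity
  have hb1g : β * lam ≤ b1 := by
    rw [hb1, le_div_iff₀ hk1]
    have : 0 < β * lam := by positivity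
    nlinarith
  have hRs : Summable R := by
    refine Summable.of_nonneg_of_le hR (fun z => ?_) hL.summable
    by_cases hz : z = 0
    · rw [hz, hR0]; simp
    · have h1 : (1 : ℝ) ≤ oneNorm z := by
        have : 1 ≤ oneNorm z := by
          unfold oneNorm
          by_contra hcon
          apply hz
          have h2 : ∑ ν, (z ν).natAbs = 0 := by omega
          rw [Finset.sum_eq_zero_iff] at h2
          funext ν
          exact Int.natAbs_eq_zero.1 (h2 ν (Finset.mem_univ _))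
        exact_mod_cast this
      have := hR z
      nlinarith
  set Rw : Site d J → ℝ := fun w => β * per R J w with hRw
  have hRw0 : ∀ w, 0 ≤ Rw w := fun w => mul_nonneg hβ.le (per_nonneg hR J w)
  have hRL : ∀ z : ℕ, z ≤ J → ∀ N : Site d J → ℝ, (∀ w, 0 ≤ N w) →
      (∀ z' : Fin d → ℤ, N (fun ν => ((z' ν : ℤ) : ZMod (2 ^ J))) ≤
        (∑ ν, ((z' ν).natAbs : ℝ)) * (2 ^ (d * J) / 2 ^ z)) →
      ∑ w, Rw w * N w ≤ b1 * L * (2 ^ (d * J) / 2 ^ z) := by
    intro z _ N hN0 hN
    have h1 := per_hasSum hRs J N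
    have h2 := hL.mul_right ((2 : ℝ) ^ (d * J) / 2 ^ z)
    have h3 : ∑ w, per R J w * N w ≤ lam * L * ((2 : ℝ) ^ (d * J) / 2 ^ z) := by
      refine hasSum_le (fun z' => ?_) h1 h2
      rw [mul_assoc]
      refine mul_le_mul_of_nonneg_left ?_ (hR z')
      have := hN z'
      unfold oneNorm
      push_cast
      exact this
    calc ∑ w, Rw w * N w = β * ∑ w, per R J w * N w := by
          rw [Finset.mul_sum]; exact Finset.sum_congr rfl fun w _ => by simp only [hRw]; ring
      _ ≤ β * (lam * L * ((2 : ℝ) ^ (d * J) / 2 ^ z)) := mul_le_mul_of_nonneg_left h3 hβ.le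
      _ = (β * lam) * (L * ((2 : ℝ) ^ (d * J) / 2 ^ z)) := by ring
      _ ≤ b1 * (L * ((2 : ℝ) ^ (d * J) / 2 ^ z)) := mul_le_mul_of_nonneg_right hb1g (by positivity)
      _ = _ := by ring
  obtain ⟨U, h, hU, hH⟩ := exists_diag (HL (Wf q b1 Rw)) (HL_T _)
  have hcoh := coherence hd hq hq1 hb1p hL0 hRw0 hRL hU hH hm
  have hK : Ker (gam (gs U h)) := ker_gam hU hH (Wf_trans q b1 Rw)
  set r' : Torus d J → Torus d J → ℝ := fun x y => Wf q b1 Rw x y / β with hr'
  have hrr : ∀ x y : Torus d J, x ≠ y →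
      rate (fun z => lam * hopping d σ z + R z) J x y = r' x y := by
    intro x y hxy
    have hw : y - x ≠ 0 := fun h => hxy (sub_eq_zero.1 h).symm
    simp only [hr', rate]
    rw [per_eq, per_add (hopping_sum hd hσ).summable hRs, ← per_eq, periodize_hopping hσ hw]
    unfold Wf
    simp only [hRw, hb1, ← hqdef]
    field_simp
  have hH' : HL (fun x y => β * r' x y) = U * diagonal h * Uᵀ := by
    rw [← hH]
    congr 1
    funext x y
    simp only [hr']
    field_simp
  refine ⟨b1, aa (gam (gs U h)) J, hb1g, hcoh, ?_, ?_⟩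
  · rw [wexp_congr hrr, aa_top hK]
    have h1 := wexp_cycle (Λ := Torus d J) hU hH' 0
    rw [t8_card_site] at h1
    exact h1
  · obtain ⟨κ, hκ, h1, _⟩ := part_sum hU hH'
    have h2 : ∑ π, law (rate (fun z => lam * hopping d σ z + R z) J) β π * 2 ^ numCycles π =
        ∑ π, law r' β π * 2 ^ numCycles π := by
      unfold law
      rw [generator_congr hrr]
    rw [h2, h1]
    exact hκ

/-- The formula for the spontaneous magnetisation, on the tori of side `2^J`:
`(1 / 2) lim_n liminf_J E[1_{c(0) > n} 2^N] / E[2^N]` (the limit in `n` is an infimum). -/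
noncomputable def magnetization {d : ℕ} (r : (J : ℕ) → Torus d J → Torus d J → ℝ) (β : ℝ) : ℝ :=
  (1 / 2) * ⨅ n : ℕ, Filter.liminf (fun J : ℕ => wexp (r J) β
    (fun π => if n < cycleLength π 0 then 1 else 0)) Filter.atTop

theorem main_result (d : ℕ) (hd : 1 ≤ d) :
    ∃ T : ℝ → (Fin d → ℤ) → ℝ,
      (∀ σ : ℝ, 0 < σ → T σ 0 = 0 ∧ (∀ z, T σ (-z) = T σ z) ∧ HasSum (T σ) 1 ∧
        ∃ c C : ℝ, 0 < c ∧ ∀ z : Fin d → ℤ, z ≠ 0 →
          c * (supNorm z : ℝ) ^ (-(d + σ)) ≤ T σ z ∧ T σ z ≤ C * (supNorm z : ℝ) ^ (-(d + σ))) ∧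
      ∀ ε : ℝ, 0 < ε → ε ≤ 1 → ∃ σ₀ K : ℝ, 0 < σ₀ ∧ 0 < K ∧ ∀ σ : ℝ, 0 < σ → σ ≤ σ₀ →
        ∀ lam : ℝ, 0 < lam → ∀ R : (Fin d → ℤ) → ℝ, (∀ z, 0 ≤ R z) → (∀ z, R (-z) = R z) →
        R 0 = 0 → ∀ L : ℝ, HasSum (fun z => R z * oneNorm z) (lam * L) →
        ∃ J₀ : ℕ, ∀ β : ℝ, K * (1 + L) ^ ε ≤ β * lam →
          (∀ J ≥ J₀,
            1 / 3 - ε ≤ wexp (rate (fun z => lam * T σ z + R z) J) β
              (fun π => (cycleLength π 0 : ℝ) / 2 ^ (d * J)) ∧
            ∀ δ : ℝ, 0 ≤ δ → 1 / 3 - ε - δ ≤ wexp (rate (fun z => lam * T σ z + R z) J) β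
              (fun π => if δ * 2 ^ (d * J) ≤ cycleLength π 0 then 1 else 0)) ∧
          1 / 6 - ε ≤ magnetization (rate (fun z => lam * T σ z + R z)) β := by
  refine ⟨hopping d, fun σ hσ => ⟨by simp [hopping], hopping_neg σ, hopping_sum hd hσ,
    hopping_decay hd hσ⟩, ?_⟩
  intro ε hε hε1
  obtain ⟨σ₀, hσ₀, K, hK, hpar⟩ := params d hε hε1
  refine ⟨σ₀, K, hσ₀, by linarith, ?_⟩
  intro σ hσ hσ1 lam hlam R hR hRs hR0 L hL
  obtain ⟨hq, hpar2⟩ := hpar σ hσ hσ1
  have hlamL : 0 ≤ lam * L := HasSum.nonneg (fun z => by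
    have h1 := hR z
    positivity) hL
  have hL0 : 0 ≤ L := nonneg_of_mul_nonneg_right hlamL hlam
  obtain ⟨m, hm⟩ := hpar2 L hL0
  refine ⟨2 * m, fun β hβ => ?_⟩
  have hLε : 1 ≤ (1 + L) ^ ε := Real.one_le_rpow (by linarith) hε.le
  have hβlam : 0 < β * lam := by
    refine lt_of_lt_of_le ?_ hβ
    have : 0 < K := by linarith
    positivity
  have hβ0 : 0 < β := pos_of_mul_pos_left hβlam hlam.le
  have hTnn : ∀ z, 0 ≤ hopping d σ z := by
    intro z
    unfold hopping
    split_ifs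
    · exact le_rfl
    · exact div_nonneg (ker_nonneg (by positivity) (two_rpow_lt_one hσ) z) (hopping_pos hd hσ).le
  have hKnn : ∀ z, 0 ≤ lam * hopping d σ z + R z := fun z =>
    add_nonneg (mul_nonneg hlam.le (hTnn z)) (hR z)
  have hrate : ∀ (J : ℕ) (x y : Torus d J), 0 ≤ rate (fun z => lam * hopping d σ z + R z) J x y := by
    intro J x y
    exact per_nonneg hKnn J _
  -- the two finite volume statements, with a margin
  have hfin : ∀ J ≥ 2 * m, 1 / 3 - ε / 2 ≤ wexp (rate (fun z => lam * hopping d σ z + R z) J) β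
      (fun π => (cycleLength π (0 : Torus d J) : ℝ) / 2 ^ (d * J)) ∧
      0 < ∑ π, law (rate (fun z => lam * hopping d σ z + R z) J) β π * 2 ^ numCycles π := by
    intro J hJ
    obtain ⟨b1, a, h1, h2, h3, h4⟩ := finite_volume hd hσ hlam hβ0 hR hR0 hL hL0 hJ hq
    have h5 := hm b1 (hβ.trans h1)
    refine ⟨?_, h4⟩
    rw [h3]
    linarith
  have hmark : ∀ J ≥ 2 * m, ∀ δ : ℝ, 0 ≤ δ → 1 / 3 - ε / 2 - δ ≤
      wexp (rate (fun z => lam * hopping d σ z + R z) J) β
        (fun π => if δ * 2 ^ (d * J) ≤ cycleLength π (0 : Torus d J) then 1 else 0) := by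
    intro J hJ δ hδ
    obtain ⟨h1, h2⟩ := hfin J hJ
    have h3 := wexp_markov (hrate J) hβ0.le h2
      (fun π => (cycleLength π (0 : Torus d J) : ℝ) / 2 ^ (d * J))
      (fun π => if δ * 2 ^ (d * J) ≤ cycleLength π (0 : Torus d J) then 1 else 0) δ (by
        intro π
        have hV : (0 : ℝ) < 2 ^ (d * J) := by positivity
        show (cycleLength π (0 : Torus d J) : ℝ) / 2 ^ (d * J) ≤
          (if δ * 2 ^ (d * J) ≤ cycleLength π (0 : Torus d J) then (1 : ℝ) else 0) + δ
        split_ifs with hc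
        · have h5 : (cycleLength π (0 : Torus d J) : ℝ) ≤ 2 ^ (d * J) := by
            rw [← t8_card_site]
            unfold cycleLength
            have := Set.ncard_le_card (s := {y | π.SameCycle (0 : Torus d J) y})
            rw [Nat.card_eq_fintype_card] at this
            exact_mod_cast this
          have h6 : (cycleLength π (0 : Torus d J) : ℝ) / 2 ^ (d * J) ≤ 1 := by
            rw [div_le_one hV]; exact h5
          linarith
        · rw [zero_add, div_le_iff₀ hV]
          exact (not_le.1 hc).le)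
    linarith
  refine ⟨fun J hJ => ⟨?_, fun δ hδ => ?_⟩, ?_⟩
  · have := (hfin J hJ).1
    linarith
  · have := hmark J hJ δ hδ
    linarith
  · -- the magnetisation
    have hlim : ∀ n : ℕ, 1 / 3 - 2 * ε ≤ Filter.liminf (fun J : ℕ =>
        wexp (rate (fun z => lam * hopping d σ z + R z) J) β
        (fun π => if n < cycleLength π (0 : Torus d J) then 1 else 0)) Filter.atTop := by
      intro n
      obtain ⟨J₁, hJ₁⟩ := exists_pow_lt_of_lt_one (show 0 < ε / (n + 1) by positivity)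
        (show (1 / 2 : ℝ) < 1 by norm_num)
      apply Filter.le_liminf_of_le
      · refine Filter.IsBoundedUnder.isCoboundedUnder_ge ⟨1, ?_⟩
        rw [Filter.eventually_map, Filter.eventually_atTop]
        refine ⟨2 * m, fun J hJ => ?_⟩
        exact wexp_le (hrate J) hβ0.le (hfin J hJ).2 _ (fun π => by split_ifs <;> norm_num)
      · rw [Filter.eventually_atTop]
        refine ⟨max (2 * m) J₁, fun J hJ => ?_⟩
        have hJm : 2 * m ≤ J := (le_max_left _ _).trans hJ
        have hJ1 : J₁ ≤ J := (le_max_right _ _).trans hJ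
        have hV : (0 : ℝ) < 2 ^ (d * J) := by positivity
        have h1 := hmark J hJm ((n + 1) / 2 ^ (d * J)) (by positivity)
        have h2 : ((n : ℝ) + 1) / 2 ^ (d * J) ≤ ε := by
          have h3 : (1 / 2 : ℝ) ^ J ≤ ε / (n + 1) :=
            (pow_le_pow_of_le_one (by norm_num) (by norm_num) hJ1).trans hJ₁.le
          have h4 : 1 / (2 : ℝ) ^ (d * J) ≤ (1 / 2) ^ J := by
            rw [_root_.one_div_pow]
            exact one_div_le_one_div_of_le (by positivity)
              (pow_le_pow_right₀ (by norm_num) (Nat.le_mul_of_pos_left J hd))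
          rw [le_div_iff₀ (by positivity)] at h3
          calc ((n : ℝ) + 1) / 2 ^ (d * J) = (1 / 2 ^ (d * J)) * (n + 1) := by ring
            _ ≤ (1 / 2) ^ J * (n + 1) := mul_le_mul_of_nonneg_right h4 (by positivity)
            _ ≤ ε := h3
        have h5 : (fun π : Equiv.Perm (Torus d J) =>
            if ((n : ℝ) + 1) / 2 ^ (d * J) * 2 ^ (d * J) ≤ cycleLength π (0 : Torus d J) then (1 : ℝ) else 0) =
            fun π => if n < cycleLength π (0 : Torus d J) then 1 else 0 := by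
          funext π
          rw [div_mul_cancel₀ _ hV.ne']
          congr 1
          apply propext
          constructor
          · intro h; exact_mod_cast h
          · intro h; exact_mod_cast h
        rw [h5] at h1
        linarith
    have h6 : 1 / 3 - 2 * ε ≤ ⨅ n : ℕ, Filter.liminf (fun J : ℕ =>
        wexp (rate (fun z => lam * hopping d σ z + R z) J) β
        (fun π => if n < cycleLength π (0 : Torus d J) then 1 else 0)) Filter.atTop :=
      le_ciInf hlim
    unfold magnetization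
    linarith

end Pool.Agent.W761.Interchange
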