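import Pool.Agent.W761.HF.KeyI

/-!
# Coherence at the largest scale
-/

set_option autoImplicit false

open Finset BigOperators Matrix

set_option linter.unusedSectionVars false
set_option linter.unusedSimpArgs false

namespace Pool.Agent.W761.HF

open Pool.Agent.H11R2.BEC (Site cu red emb inn cf ev t6cW tile_exists t8_card_site Cd)
open Pool.Agent.H11R2.BEC.Ker (sp nd)

section gen
variable {Λ : Type} [Fintype Λ] [DecidableEq Λ]

theorem HL_T (W : Λ → Λ → ℝ) : (HL W)ᵀ = HL W := by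
  unfold HL
  simp only [transpose_sum, transpose_smul, dot_transpose]

theorem cj_permE_dot (π : Equiv.Perm Λ) (x y : Λ) :
    cj (permE Bool π) (dot x y) = dot (π x) (π y) := by
  unfold dot
  simp only [cj_add, cj_smul, cj_mul, cj_permE_loc]

theorem HL_perm (W : Λ → Λ → ℝ) (π : Equiv.Perm Λ) (hW : ∀ x y, W (π x) (π y) = W x y) :
    cj (permE Bool π) (HL W) = HL W := by
  unfold HL
  simp only [cj_sum, cj_smul, cj_permE_dot]
  conv_rhs => rw [← Equiv.sum_comp π]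
  refine Finset.sum_congr rfl fun a _ => ?_
  conv_rhs => rw [← Equiv.sum_comp π]
  refine Finset.sum_congr rfl fun a' _ => ?_
  rw [hW]

variable {W : Λ → Λ → ℝ} {U : Matrix (Λ → Bool) (Λ → Bool) ℝ} {h : (Λ → Bool) → ℝ}

theorem gam_perm (hU : Orth U) (hH : HL W = U * diagonal h * Uᵀ) (π : Equiv.Perm Λ)
    (hW : ∀ x y, W (π x) (π y) = W x y) (x y : Λ) :
    gam (gs U h) (π x) (π y) = gam (gs U h) x y := by
  have h1 : cj (permE Bool π) (gs U h) = gs U h := gs_cj hU (by rw [← hH]; exact HL_perm W π hW)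
  unfold gam
  rw [← cj_permE_dot, ← cj_trace (permE Bool π) (gs U h * dot x y), cj_mul, h1]

theorem gam_nonneg (hU : Orth U) (α : Λ → ℝ) : 0 ≤ qf (gam (gs U h)) α :=
  le_trans (sq_nonneg _) (psd_ext gs_pos (gs_tr hU) α)

/-- correlations of the fully polarised state -/
noncomputable def uu0 (x y : Λ) : ℝ := if x = y then 3 / 4 else 1 / 4

theorem gam_le_uu0 (hU : Orth U) (x y : Λ) : gam (gs U h) x y ≤ uu0 x y := by
  unfold uu0
  split_ifs with hxy
  · rw [hxy, gam_self (gs_tr hU)]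
  · exact gam_le gs_pos (gs_tr hU) hxy

theorem dot_up (x y : Λ) : dot x y (fun _ => true) (fun _ => true) = uu0 x y := by
  unfold uu0
  split_ifs with hxy
  · rw [hxy, dot_self, Matrix.smul_apply, Matrix.one_apply_eq]; norm_num
  · rw [dot_eq hxy, Matrix.sub_apply, Matrix.smul_apply, Matrix.smul_apply, Matrix.one_apply_eq]
    have : trn x y (fun _ => true) (fun _ => true) = 1 := by
      unfold trn; rw [if_pos]; rfl
    rw [this]; norm_num

theorem start_ineq (hU : Orth U) (hH : HL W = U * diagonal h * Uᵀ) :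
    ∑ x, ∑ y, W x y * uu0 x y ≤ ∑ x, ∑ y, W x y * gam (gs U h) x y + Fintype.card Λ * Real.log 2 := by
  classical
  have hlow := gibbs_lower hU orth_one h (fun k : Λ → Bool => if k = fun _ => true then (1 : ℝ) else 0)
    (fun k => by split_ifs <;> norm_num) (by simp)
  have h1 : ∑ k : Λ → Bool, (if k = fun _ => true then (1 : ℝ) else 0) *
      ((1 : Matrix (Λ → Bool) (Λ → Bool) ℝ)ᵀ * (U * diagonal h * Uᵀ) *
        (1 : Matrix (Λ → Bool) (Λ → Bool) ℝ)) k k = ∑ x, ∑ y, W x y * uu0 x y := by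
    rw [← hH, transpose_one, Matrix.one_mul, Matrix.mul_one, Finset.sum_eq_single (fun _ => true)]
    · rw [if_pos rfl, one_mul]
      unfold HL
      rw [Matrix.sum_apply]
      refine Finset.sum_congr rfl fun x _ => ?_
      rw [Matrix.sum_apply]
      refine Finset.sum_congr rfl fun y _ => ?_
      rw [Matrix.smul_apply, dot_up, smul_eq_mul]
    · intro k _ hk
      rw [if_neg hk, zero_mul]
    · intro h; exact absurd (Finset.mem_univ _) h
  have h2 : ∑ k : Λ → Bool, (if k = fun _ => true then (1 : ℝ) else 0) *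
      Real.log (if k = fun _ => true then (1 : ℝ) else 0) = 0 := by
    refine Finset.sum_eq_zero fun k _ => ?_
    split_ifs <;> simp
  rw [h1, h2, sub_zero] at hlow
  have hc : (0 : ℝ) < Fintype.card (Λ → Bool) := by exact_mod_cast Fintype.card_pos
  have hup := gibbs_upper hU orth_one h (fun _ : Λ → Bool => 1 / (Fintype.card (Λ → Bool) : ℝ))
    (fun _ => by positivity) (by
      rw [Finset.sum_const, Finset.card_univ, nsmul_eq_mul]; field_simp)
  rw [← gs_energy hU, ← hH, HL_trace] at hup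
  have h3 : ∑ k : Λ → Bool, ((1 : Matrix (Λ → Bool) (Λ → Bool) ℝ)ᵀ *
      (U * diagonal (fun i => Real.exp (h i) / ∑ i, Real.exp (h i)) * Uᵀ) *
      (1 : Matrix (Λ → Bool) (Λ → Bool) ℝ)) k k *
      Real.log (1 / (Fintype.card (Λ → Bool) : ℝ)) = - (Fintype.card Λ * Real.log 2) := by
    rw [← Finset.sum_mul, transpose_one, Matrix.one_mul, Matrix.mul_one]
    have h4 : ∑ k : Λ → Bool, (U * diagonal (fun i => Real.exp (h i) / ∑ i, Real.exp (h i)) * Uᵀ) k k = 1 :=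
      gs_tr hU
    rw [h4, one_mul, one_div, Real.log_inv, Fintype.card_fun, Fintype.card_bool]
    push_cast
    rw [Real.log_pow]
  rw [h3] at hup
  linarith

end gen

variable {d J : ℕ}

theorem ker_gam {W : Site d J → Site d J → ℝ} {U : Matrix (Site d J → Bool) (Site d J → Bool) ℝ}
    {h : (Site d J → Bool) → ℝ} (hU : Orth U) (hH : HL W = U * diagonal h * Uᵀ)
    (hW : ∀ t x y, W (t + x) (t + y) = W x y) : Ker (gam (gs U h)) := by
  refine ⟨gam_comm _, gam_nonneg hU, fun t x y => ?_⟩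
  exact gam_perm hU hH (Equiv.addLeft t) (fun x y => hW t x y) x y

theorem Wf_trans (q b1 : ℝ) (Rw : Site d J → ℝ) (t x y : Site d J) :
    Wf q b1 Rw (t + x) (t + y) = Wf q b1 Rw x y := by
  unfold Wf
  rw [add_sub_add_left_eq_sub]

theorem qf_mono {Λ : Type} [Fintype Λ] {C D : Λ → Λ → ℝ} (hCD : ∀ x y, C x y ≤ D x y) {α : Λ → ℝ}
    (h0 : ∀ x, 0 ≤ α x) : qf C α ≤ qf D α := by
  unfold qf
  refine Finset.sum_le_sum fun x _ => Finset.sum_le_sum fun y _ => ?_
  exact mul_le_mul_of_nonneg_left (hCD x y) (mul_nonneg (h0 x) (h0 y))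

theorem qf_const {Λ : Type} [Fintype Λ] (c : ℝ) {α : Λ → ℝ} (h1 : ∑ x, α x = 1) :
    qf (fun _ _ => c) α = c := by
  unfold qf
  have : ∀ x, ∑ y, α x * α y * c = α x * c := by
    intro x
    rw [← Finset.sum_mul, ← Finset.mul_sum, h1, mul_one]
  simp only [this]
  rw [← Finset.sum_mul, h1, one_mul]

theorem start_bound {q b1 : ℝ} (hq0 : 0 ≤ q) (hq1 : q ≤ 1) (hb1 : 0 < b1)
    {Rw : Site d J → ℝ} (hR0 : ∀ w, 0 ≤ Rw w)
    {U : Matrix (Site d J → Bool) (Site d J → Bool) ℝ} {h : (Site d J → Bool) → ℝ} (hU : Orth U)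
    (hH : HL (Wf q b1 Rw) = U * diagonal h * Uᵀ) {k : ℕ} (hk : k ≤ J) :
    q ^ k * (1 / 4 - aa (gam (gs U h)) k) ≤ Real.log 2 / b1 := by
  set C := gam (gs U h) with hC
  have hK : Ker C := ker_gam hU hH (Wf_trans q b1 Rw)
  have hV : (0 : ℝ) < (2 : ℝ) ^ (d * J) := by positivity
  have h1 := start_ineq hU hH
  rw [← hC, Wf_sum, Wf_sum, t8_card_site] at h1
  have hcf : ∀ s, 0 ≤ cf q J s := fun s => Pool.Agent.H11R2.BEC.cf_nonneg hq0 hq1 J s
  have h2 : ∑ x, ∑ y, Rw (y - x) * C x y ≤ ∑ x, ∑ y, Rw (y - x) * uu0 x y :=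
    Finset.sum_le_sum fun x _ => Finset.sum_le_sum fun y _ =>
      mul_le_mul_of_nonneg_left (gam_le_uu0 hU x y) (hR0 _)
  have hanti : ∀ s t' : ℕ, s ≤ t' → t' ≤ J → aa C t' ≤ aa C s := by
    intro s t' hst
    induction t', hst using Nat.le_induction with
    | base => intro _; exact le_rfl
    | succ n hn' ih => intro hle; exact (aa_antitone hK (by omega)).trans (ih (by omega))
  have h3 : ∀ s ∈ range (J + 1), (cf q J s * (if s < k then (0 : ℝ) else 1)) *
      ((2 : ℝ) ^ (d * J) * (1 / 4 - aa C k)) ≤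
      cf q J s * ∑ w : Site d J, qf uu0 (t6cW s w) - cf q J s * ∑ w : Site d J, qf C (t6cW s w) := by
    intro s hs
    rw [← mul_sub, mul_assoc]
    refine mul_le_mul_of_nonneg_left ?_ (hcf s)
    rw [← Finset.sum_sub_distrib]
    split_ifs with hsk
    · rw [zero_mul]
      refine Finset.sum_nonneg fun w _ => ?_
      have := qf_mono (gam_le_uu0 (h := h) hU) (α := t6cW s w) (t6_nonneg s w)
      linarith
    · rw [one_mul]
      have h4 : ∀ w ∈ (univ : Finset (Site d J)), 1 / 4 - aa C k ≤ qf uu0 (t6cW s w) - qf C (t6cW s w) := by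
        intro w _
        rw [hK.shift]
        have h5 := hanti k s (not_lt.1 hsk) (by have := Finset.mem_range.1 hs; omega)
        have h6 : (1 / 4 : ℝ) ≤ qf uu0 (t6cW s w) := by
          rw [← qf_const (1 / 4) (t6_one s w)]
          refine qf_mono (fun x y => ?_) (t6_nonneg s w)
          unfold uu0
          split_ifs <;> norm_num
        linarith
      have h7 := Finset.sum_le_sum h4
      rw [Finset.sum_const, Finset.card_univ, nsmul_eq_mul, t8_card_site] at h7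
      exact h7
  have h4 := Finset.sum_le_sum h3
  rw [← Finset.sum_mul, Pool.Agent.H11R2.BEC.sum_cf_tail hk, Finset.sum_sub_distrib] at h4
  rw [le_div_iff₀ hb1]
  have h5 : b1 * (q ^ k * ((2 : ℝ) ^ (d * J) * (1 / 4 - aa C k))) ≤ (2 : ℝ) ^ (d * J) * Real.log 2 := by
    calc _ ≤ b1 * (∑ s ∈ range (J + 1), cf q J s * ∑ w : Site d J, qf uu0 (t6cW s w) -
        ∑ s ∈ range (J + 1), cf q J s * ∑ w : Site d J, qf C (t6cW s w)) :=
          mul_le_mul_of_nonneg_left h4 hb1.le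
      _ ≤ _ := by rw [mul_sub]; linarith
  have h6 : (2 : ℝ) ^ (d * J) * (q ^ k * (1 / 4 - aa C k) * b1) ≤ (2 : ℝ) ^ (d * J) * Real.log 2 := by
    calc _ = b1 * (q ^ k * ((2 : ℝ) ^ (d * J) * (1 / 4 - aa C k))) := by ring
      _ ≤ _ := h5
  exact le_of_mul_le_mul_left h6 hV

theorem err_bound {d : ℕ} (hd : 1 ≤ d) (j : ℕ) {b1 L : ℝ} (hb1 : 0 < b1) (hL : 0 ≤ L) :
    1 / (2 * (2 : ℝ) ^ (d * j)) + (3 * (1 / (2 : ℝ) ^ (d * j / 2)) +
      1 / (2 * (2 : ℝ) ^ (d * j) * (1 / (2 : ℝ) ^ (d * j / 2)))) +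
        2 * Real.log ((2 : ℝ) ^ (d * j) + 1) / (b1 * (2 : ℝ) ^ (d * j)) + L / 2 ^ j ≤
      (4 + 4 / b1 + L) * (1 / 2) ^ (j / 2) := by
  have hjd : j ≤ d * j := Nat.le_mul_of_pos_left j hd
  set n := d * j with hn
  have hpow : ∀ a : ℕ, j / 2 ≤ a → 1 / (2 : ℝ) ^ a ≤ (1 / 2) ^ (j / 2) := by
    intro a ha
    rw [_root_.one_div_pow]
    exact one_div_le_one_div_of_le (by positivity) (pow_le_pow_right₀ (by norm_num) ha)
  have hz : 0 < (1 / 2 : ℝ) ^ (j / 2) := by positivity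
  have h1 : 1 / (2 * (2 : ℝ) ^ n) ≤ 1 / 2 * (1 / 2) ^ (j / 2) := by
    have := hpow n (by omega)
    calc 1 / (2 * (2 : ℝ) ^ n) = 1 / 2 * (1 / 2 ^ n) := by rw [one_div_mul_one_div]
      _ ≤ _ := by linarith
  have h2 : 1 / (2 : ℝ) ^ (n / 2) ≤ (1 / 2) ^ (j / 2) := hpow _ (by omega)
  have h3 : 1 / (2 * (2 : ℝ) ^ n * (1 / (2 : ℝ) ^ (n / 2))) ≤ 1 / 2 * (1 / 2) ^ (j / 2) := by
    have h4 := hpow (n - n / 2) (by omega)
    have h5 : (2 : ℝ) ^ n = 2 ^ (n - n / 2) * 2 ^ (n / 2) := by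
      rw [← pow_add]; congr 1; omega
    have h6 : 1 / (2 * (2 : ℝ) ^ n * (1 / (2 : ℝ) ^ (n / 2))) = 1 / 2 * (1 / 2 ^ (n - n / 2)) := by
      rw [h5]; field_simp
    rw [h6]; linarith
  have h4 : 2 * Real.log ((2 : ℝ) ^ n + 1) / (b1 * (2 : ℝ) ^ n) ≤ 4 / b1 * (1 / 2) ^ (j / 2) := by
    set r : ℝ := 2 ^ (n - n / 2) with hr
    have hr0 : 0 < r := by positivity
    have hr2 : (2 : ℝ) ^ n ≤ r ^ 2 := by
      rw [hr, ← pow_mul]
      exact pow_le_pow_right₀ (by norm_num) (by omega)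
    have h5 : Real.log ((2 : ℝ) ^ n + 1) ≤ 2 * r := by
      calc Real.log ((2 : ℝ) ^ n + 1) ≤ Real.log ((r + 1) ^ 2) := by
            apply Real.log_le_log (by positivity)
            nlinarith
        _ = 2 * Real.log (r + 1) := by rw [Real.log_pow]; norm_num
        _ ≤ 2 * r := by
            have := Real.log_le_sub_one_of_pos (show 0 < r + 1 by linarith)
            linarith
    have h6 : r / (2 : ℝ) ^ n = 1 / 2 ^ (n / 2) := by
      rw [hr, div_eq_div_iff (by positivity) (by positivity), one_mul, ← pow_add]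
      congr 1; omega
    calc 2 * Real.log ((2 : ℝ) ^ n + 1) / (b1 * (2 : ℝ) ^ n) ≤ 2 * (2 * r) / (b1 * (2 : ℝ) ^ n) := by
          apply div_le_div_of_nonneg_right _ (by positivity)
          linarith
      _ = 4 / b1 * (r / (2 : ℝ) ^ n) := by field_simp; ring
      _ ≤ 4 / b1 * (1 / 2) ^ (j / 2) := by
          rw [h6]
          exact mul_le_mul_of_nonneg_left h2 (by positivity)
  have h5 : L / 2 ^ j ≤ L * (1 / 2) ^ (j / 2) := by
    have := hpow j (by omega)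
    calc L / 2 ^ j = L * (1 / 2 ^ j) := by ring
      _ ≤ _ := mul_le_mul_of_nonneg_left this hL
  have h6 : (4 + 4 / b1 + L) * (1 / 2 : ℝ) ^ (j / 2) = 1 / 2 * (1 / 2) ^ (j / 2) +
      (3 * (1 / 2) ^ (j / 2) + 1 / 2 * (1 / 2) ^ (j / 2)) + 4 / b1 * (1 / 2) ^ (j / 2) +
      L * (1 / 2) ^ (j / 2) := by ring
  rw [h6]
  linarith

theorem coherence (hd : 1 ≤ d) {q b1 L : ℝ} (hq : 3 / 4 ≤ q) (hq1 : q < 1) (hb1 : 0 < b1)
    (hL : 0 ≤ L) {Rw : Site d J → ℝ} (hR0 : ∀ w, 0 ≤ Rw w)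
    (hRL : ∀ z : ℕ, z ≤ J → ∀ N : Site d J → ℝ, (∀ w, 0 ≤ N w) →
      (∀ z' : Fin d → ℤ, N (fun ν => ((z' ν : ℤ) : ZMod (2 ^ J))) ≤
        (∑ ν, ((z' ν).natAbs : ℝ)) * (2 ^ (d * J) / 2 ^ z)) →
      ∑ w, Rw w * N w ≤ b1 * L * (2 ^ (d * J) / 2 ^ z))
    {U : Matrix (Site d J → Bool) (Site d J → Bool) ℝ} {h : (Site d J → Bool) → ℝ} (hU : Orth U)
    (hH : HL (Wf q b1 Rw) = U * diagonal h * Uᵀ) {m : ℕ} (hm : 2 * m ≤ J) :
    1 / 4 - Real.log 2 / (b1 * q ^ (2 * m)) - 16 * d * (1 + Cd d) * (1 - q) -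
      28 * (4 + 4 / b1 + L) * (8 / 9) ^ m ≤ aa (gam (gs U h)) J := by
  set C := gam (gs U h) with hC
  have hq0 : 0 < q := by linarith
  have hK : Ker C := ker_gam hU hH (Wf_trans q b1 Rw)
  have hC0 : 0 ≤ Cd d := by unfold Cd; positivity
  have hcf : ∀ s, 0 ≤ cf q J s := fun s => Pool.Agent.H11R2.BEC.cf_nonneg hq0.le hq1.le J s
  have h1 := Pool.Agent.H11R2.BEC.summation' (d := d) (J := J) (q := q) (B := 4 + 4 / b1 + L)
    (C := Cd d) hq hq1 (by positivity) hC0 (fun s => aa C s) (fun s hs => aa_antitone hK hs) (by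
      intro j hj
      have h2 := key hj hq0.le hq1.le hb1 hR0 hRL hU hH hK (θ := 1 / (2 : ℝ) ^ (d * j / 2)) (by positivity)
      have h3 := err_bound hd j hb1 hL
      have h4 : ∑ s ∈ range j, cf q J s * ((aa C s - aa C j)
        - (1 / 2 : ℝ) ^ (j - s) * (d * (aa C s - aa C j)
          + 2 * d * Cd d * ∑ i ∈ range (j + 1), (1 / 2 : ℝ) ^ (j - i) * (aa C i - aa C (i + 1))))
          ≤ ∑ s ∈ range j, cf q J s * uu C s j :=
        Finset.sum_le_sum fun s hs =>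
          mul_le_mul_of_nonneg_left (uu_lower hK (Finset.mem_range.1 hs) hj) (hcf s)
      linarith) m hm
  have h2 := start_bound hq0.le hq1.le hb1 hR0 hU hH hm
  rw [← hC] at h2
  have h3 : aa C 0 ≤ 3 / 4 := qf_le (gam_le' gs_pos (gs_tr hU)) (t6_nonneg 0 (0 : Site d J)) (t6_one 0 0)
  have h4 : 0 ≤ aa C J := hK.nonneg _
  have h5 : 1 / 4 - aa C (2 * m) ≤ Real.log 2 / (b1 * q ^ (2 * m)) := by
    rw [le_div_iff₀ hb1] at h2
    rw [le_div_iff₀ (by positivity)]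
    nlinarith
  have h6 : 16 * d * (1 + Cd d) * (1 - q) * (aa C 0 - aa C J) ≤ 16 * d * (1 + Cd d) * (1 - q) := by
    have h7 : 0 ≤ 16 * d * (1 + Cd d) * (1 - q) := by
      have : 0 ≤ 1 - q := by linarith
      positivity
    nlinarith
  linarith

end Pool.Agent.W761.HF
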