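import Pool.Agent.W761.HF.Model
import Pool.Agent.W761.HF.Multi

/-!
# The interchange process and the Heisenberg model
-/

set_option autoImplicit false

open Finset BigOperators Matrix

set_option linter.unusedSectionVars false
set_option linter.unusedSimpArgs false

namespace Pool.Agent.W761.Interchange

open Pool.Agent.W761.HF

section exp
variable {n : Type} [Fintype n] [DecidableEq n]

set_option backward.isDefEq.respectTransparency false in
theorem exp_hasSum (A : Matrix n n ℝ) :
    HasSum (fun k : ℕ => ((k.factorial : ℝ)⁻¹) • A ^ k) (NormedSpace.exp A) :=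
  open scoped Norms.Operator in NormedSpace.exp_series_hasSum_exp' A

theorem exp_diag {U : Matrix n n ℝ} (hU : Orth U) (h : n → ℝ) :
    NormedSpace.exp (U * diagonal h * Uᵀ) = U * diagonal (fun i => Real.exp (h i)) * Uᵀ := by
  have hinv : U⁻¹ = Uᵀ := Matrix.inv_eq_right_inv hU.1
  have hunit : IsUnit U := ⟨⟨U, Uᵀ, hU.1, hU.2⟩, rfl⟩
  have h1 := Matrix.exp_conj U (diagonal h) hunit
  rw [hinv] at h1
  rw [h1, Matrix.exp_diagonal]
  congr 2
  congr 1
  funext i
  rw [Pi.coe_exp, Real.exp_eq_exp_ℝ]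

end exp

variable {Λ : Type} [Fintype Λ] [DecidableEq Λ]

/-- permutation operators -/
def UU (π : Equiv.Perm Λ) : Matrix (Λ → Bool) (Λ → Bool) ℝ := fun f g => if f ∘ π = g then 1 else 0

theorem UU_mul (π π' : Equiv.Perm Λ) : UU (π * π') = UU π * UU π' := by
  funext f g
  rw [Matrix.mul_apply, Finset.sum_eq_single (f ∘ π)]
  · unfold UU
    rw [if_pos rfl, one_mul]
    rfl
  · intro k _ hk
    unfold UU
    rw [if_neg (fun h => hk h.symm), zero_mul]
  · intro h; exact absurd (Finset.mem_univ _) h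

theorem UU_one : UU (1 : Equiv.Perm Λ) = 1 := by
  funext f g
  unfold UU
  rw [Matrix.one_apply]
  rfl

theorem UU_swap (x y : Λ) : UU (Equiv.swap x y) = trn x y := rfl

/-- the operator on spin configurations -/
noncomputable def LL (r : Λ → Λ → ℝ) : Matrix (Λ → Bool) (Λ → Bool) ℝ :=
  (1 / 2 : ℝ) • ∑ x, ∑ y, r x y • (trn x y - 1)

theorem gen_UU (r : Λ → Λ → ℝ) (π : Equiv.Perm Λ) :
    ∑ π', generator r π π' • UU π' = LL r * UU π := by
  have h1 : ∀ π', generator r π π' • UU π' = (1 / 2 : ℝ) • ∑ x, ∑ y, r x y •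
      ((if π' = Equiv.swap x y * π then UU π' else 0) - (if π' = π then UU π' else 0)) := by
    intro π'
    unfold generator
    rw [mul_smul, Finset.sum_smul]
    congr 1
    refine Finset.sum_congr rfl fun x _ => ?_
    rw [Finset.sum_smul]
    refine Finset.sum_congr rfl fun y _ => ?_
    rw [mul_smul, sub_smul]
    split_ifs <;> simp
  simp only [h1]
  rw [← Finset.smul_sum, Finset.sum_comm]
  unfold LL
  rw [Matrix.smul_mul, Finset.sum_mul]
  congr 1
  refine Finset.sum_congr rfl fun x _ => ?_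
  rw [Finset.sum_comm, Finset.sum_mul]
  refine Finset.sum_congr rfl fun y _ => ?_
  rw [← Finset.smul_sum, Finset.sum_sub_distrib, Finset.sum_ite_eq', Finset.sum_ite_eq',
    if_pos (Finset.mem_univ _), if_pos (Finset.mem_univ _), Matrix.smul_mul, Matrix.sub_mul,
    Matrix.one_mul, UU_mul, UU_swap]

/-- the linear map transporting functions on the group -/
noncomputable def Phi (Λ : Type) [Fintype Λ] [DecidableEq Λ] :
    Matrix (Equiv.Perm Λ) (Equiv.Perm Λ) ℝ →ₗ[ℝ] Matrix (Λ → Bool) (Λ → Bool) ℝ where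
  toFun A := ∑ π, A 1 π • UU π
  map_add' A B := by
    simp only [Matrix.add_apply, add_smul, Finset.sum_add_distrib]
  map_smul' c A := by
    simp only [Matrix.smul_apply, smul_eq_mul, mul_smul, RingHom.id_apply]
    rw [Finset.smul_sum]

theorem Phi_mul (r : Λ → Λ → ℝ) (A : Matrix (Equiv.Perm Λ) (Equiv.Perm Λ) ℝ) :
    Phi Λ (A * generator r) = LL r * Phi Λ A := by
  show ∑ π', (A * generator r) 1 π' • UU π' = LL r * ∑ π, A 1 π • UU π
  simp only [Matrix.mul_apply, Finset.sum_smul]
  rw [Finset.sum_comm, Finset.mul_sum]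
  refine Finset.sum_congr rfl fun π _ => ?_
  simp only [mul_smul]
  rw [← Finset.smul_sum, gen_UU, Matrix.mul_smul]

theorem Phi_pow (r : Λ → Λ → ℝ) (t : ℝ) (k : ℕ) :
    Phi Λ ((t • generator r) ^ k) = (t • LL r) ^ k := by
  induction k with
  | zero =>
    rw [pow_zero, pow_zero]
    show ∑ π, (1 : Matrix _ _ ℝ) 1 π • UU π = 1
    rw [Finset.sum_eq_single 1]
    · rw [Matrix.one_apply_eq, one_smul, UU_one]
    · intro π _ hπ
      rw [Matrix.one_apply_ne (Ne.symm hπ), zero_smul]
    · intro h; exact absurd (Finset.mem_univ _) h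
  | succ k ih =>
    rw [pow_succ, Matrix.mul_smul, map_smul, Phi_mul, ih, pow_succ', Matrix.smul_mul]

theorem Phi_exp (r : Λ → Λ → ℝ) (t : ℝ) :
    ∑ π, law r t π • UU π = NormedSpace.exp (t • LL r) := by
  have h1 := exp_hasSum (t • generator r)
  have h2 := exp_hasSum (t • LL r)
  have h3 := h1.mapL (LinearMap.toContinuousLinearMap (Phi Λ))
  have h4 : (fun k : ℕ => (LinearMap.toContinuousLinearMap (Phi Λ))
      (((k.factorial : ℝ)⁻¹) • (t • generator r) ^ k)) =
      fun k : ℕ => ((k.factorial : ℝ)⁻¹) • (t • LL r) ^ k := by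
    funext k
    rw [map_smul]
    congr 1
    exact Phi_pow r t k
  rw [h4] at h3
  exact h3.unique h2

/-- nonnegativity of the law -/
theorem law_nonneg {r : Λ → Λ → ℝ} (hr : ∀ x y, 0 ≤ r x y) {t : ℝ} (ht : 0 ≤ t)
    (π : Equiv.Perm Λ) : 0 ≤ law r t π := by
  set A : Matrix (Equiv.Perm Λ) (Equiv.Perm Λ) ℝ := fun π π' => (1 / 2) * ∑ x, ∑ y, r x y *
    (if π' = Equiv.swap x y * π then 1 else 0) with hA
  set c : ℝ := (1 / 2) * ∑ x, ∑ y, r x y with hc
  have h1 : t • generator r = t • A + (-(t * c)) • (1 : Matrix (Equiv.Perm Λ) (Equiv.Perm Λ) ℝ) := by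
    funext π π'
    have hAe : A π π' = (1 / 2) * ∑ x, ∑ y, r x y *
      (if π' = Equiv.swap x y * π then 1 else 0) := rfl
    rw [Matrix.add_apply, Matrix.smul_apply, Matrix.smul_apply, Matrix.smul_apply, smul_eq_mul,
      smul_eq_mul, smul_eq_mul, hAe]
    unfold generator
    rw [hc]
    have h2 : ∑ x, ∑ y, r x y * ((if π' = Equiv.swap x y * π then (1 : ℝ) else 0) -
        (if π' = π then 1 else 0)) = ∑ x, ∑ y, r x y * (if π' = Equiv.swap x y * π then 1 else 0) -
        (∑ x, ∑ y, r x y) * (if π' = π then 1 else 0) := by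
      rw [Finset.sum_mul, ← Finset.sum_sub_distrib]
      refine Finset.sum_congr rfl fun x _ => ?_
      rw [Finset.sum_mul, ← Finset.sum_sub_distrib]
      exact Finset.sum_congr rfl fun y _ => by ring
    rw [h2, Matrix.one_apply]
    have h3 : (if π' = π then (1 : ℝ) else 0) = if π = π' then 1 else 0 := by
      by_cases h : π = π'
      · rw [if_pos h, if_pos h.symm]
      · rw [if_neg h, if_neg (fun h' => h h'.symm)]
    rw [h3]
    ring
  have h2 : NormedSpace.exp ((-(t * c)) • (1 : Matrix (Equiv.Perm Λ) (Equiv.Perm Λ) ℝ)) =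
      (Real.exp (-(t * c))) • (1 : Matrix (Equiv.Perm Λ) (Equiv.Perm Λ) ℝ) := by
    have h3 : (-(t * c)) • (1 : Matrix (Equiv.Perm Λ) (Equiv.Perm Λ) ℝ) =
        1 * diagonal (fun _ => -(t * c)) * (1 : Matrix (Equiv.Perm Λ) (Equiv.Perm Λ) ℝ)ᵀ := by
      rw [transpose_one, Matrix.one_mul, Matrix.mul_one, ← diagonal_one, ← diagonal_smul]
      congr 1
      funext i; simp
    rw [h3, exp_diag orth_one, transpose_one, Matrix.one_mul, Matrix.mul_one, ← diagonal_one,
      ← diagonal_smul]
    congr 1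
    funext i; simp
  have h3 : law r t π = Real.exp (-(t * c)) * NormedSpace.exp (t • A) 1 π := by
    unfold law
    rw [h1, Matrix.exp_add_of_commute _ _ ((Commute.one_right _).smul_right _), h2, Matrix.mul_smul,
      Matrix.mul_one, Matrix.smul_apply, smul_eq_mul]
  rw [h3]
  refine mul_nonneg (Real.exp_pos _).le ?_
  have hA0 : ∀ k : ℕ, ∀ π π', 0 ≤ ((t • A) ^ k) π π' := by
    intro k
    induction k with
    | zero =>
      intro π π'
      rw [pow_zero, Matrix.one_apply]
      split_ifs <;> norm_num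
    | succ k ih =>
      intro π π'
      rw [pow_succ, Matrix.mul_apply]
      refine Finset.sum_nonneg fun π'' _ => mul_nonneg (ih _ _) ?_
      rw [Matrix.smul_apply, smul_eq_mul]
      refine mul_nonneg ht ?_
      simp only [hA]
      refine mul_nonneg (by norm_num) (Finset.sum_nonneg fun x _ => Finset.sum_nonneg fun y _ => ?_)
      exact mul_nonneg (hr x y) (by split_ifs <;> norm_num)
  have h4 := exp_hasSum (t • A)
  have h5 : HasSum (fun k : ℕ => (((k.factorial : ℝ)⁻¹) • (t • A) ^ k) 1 π)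
      (NormedSpace.exp (t • A) 1 π) := by
    have h6 := Pi.hasSum.1 h4 1
    exact Pi.hasSum.1 h6 π
  refine h5.nonneg fun k => ?_
  rw [Matrix.smul_apply, smul_eq_mul]
  exact mul_nonneg (by positivity) (hA0 k _ _)

theorem generator_congr {r r' : Λ → Λ → ℝ} (h : ∀ x y, x ≠ y → r x y = r' x y) :
    generator r = generator r' := by
  funext π π'
  unfold generator
  congr 1
  refine Finset.sum_congr rfl fun x _ => Finset.sum_congr rfl fun y _ => ?_
  by_cases hxy : x = y
  · subst hxy
    rw [Equiv.swap_self]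
    have : (Equiv.refl Λ : Equiv.Perm Λ) = 1 := rfl
    rw [this, one_mul, sub_self, mul_zero, mul_zero]
  · rw [h x y hxy]

end Pool.Agent.W761.Interchange
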