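import Pool.Agent.W761.HF.InterA

/-!
# Cycles and correlations
-/

set_option autoImplicit false

open Finset BigOperators Matrix

set_option linter.unusedSectionVars false
set_option linter.unusedSimpArgs false

namespace Pool.Agent.W761.Interchange

open Pool.Agent.W761.HF

variable {Λ : Type} [Fintype Λ] [DecidableEq Λ]

theorem fixed_const {π : Equiv.Perm Λ} {f : Λ → Bool} (hf : f ∘ π = f) {x y : Λ}
    (h : π.SameCycle x y) : f x = f y := by
  have h1 : ∀ z, f (π z) = f z := fun z => congrFun hf z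
  have h2 : ∀ z, f (π⁻¹ z) = f z := by
    intro z
    have := h1 (π⁻¹ z)
    rw [← this]; simp
  have h3 : ∀ (n : ℕ) z, f ((π ^ n) z) = f z := by
    intro n
    induction n with
    | zero => intro z; rfl
    | succ n ih => intro z; rw [pow_succ', Equiv.Perm.mul_apply, h1, ih]
  have h4 : ∀ (n : ℕ) z, f ((π⁻¹ ^ n) z) = f z := by
    intro n
    induction n with
    | zero => intro z; rfl
    | succ n ih => intro z; rw [pow_succ', Equiv.Perm.mul_apply, h2, ih]
  obtain ⟨i, hi⟩ := h
  rw [← hi]
  rcases Int.eq_nat_or_neg i with ⟨n, hn | hn⟩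
  · rw [hn, zpow_natCast, h3]
  · rw [hn, _root_.zpow_neg, zpow_natCast, ← inv_pow, h4]

theorem sum_fixed (π : Equiv.Perm Λ) [Fintype (Quotient (Equiv.Perm.SameCycle.setoid π))]
    [DecidableEq (Quotient (Equiv.Perm.SameCycle.setoid π))]
    (D : (Λ → Bool) → ℝ) :
    ∑ f : Λ → Bool, (if f ∘ π = f then D f else 0) =
      ∑ g : Quotient (Equiv.Perm.SameCycle.setoid π) → Bool, D (fun x => g (Quotient.mk _ x)) := by
  rw [← Finset.sum_filter]
  symm
  refine Finset.sum_bij (fun g _ => fun x => g (Quotient.mk _ x)) ?_ ?_ ?_ ?_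
  · intro g _
    rw [Finset.mem_filter]
    refine ⟨Finset.mem_univ _, ?_⟩
    funext x
    simp only [Function.comp]
    congr 1
    apply Quotient.sound
    show π.SameCycle (π x) x
    exact (Equiv.Perm.sameCycle_apply_left).2 (Equiv.Perm.SameCycle.refl _ _)
  · intro g _ g' _ h
    funext a
    induction a using Quotient.ind with
    | _ x => exact congrFun h x
  · intro f hf
    rw [Finset.mem_filter] at hf
    exact ⟨Quotient.lift f (fun x y hxy => fixed_const hf.2 hxy), Finset.mem_univ _, rfl⟩
  · intro g _; rfl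

/-- the sign variable -/
noncomputable def zz (b : Bool) : ℝ := if b then 1 / 2 else -1 / 2

theorem zz_not (b : Bool) : zz (!b) = - zz b := by cases b <;> norm_num [zz]

theorem zz_sq (b : Bool) : zz b * zz b = 1 / 4 := by cases b <;> norm_num [zz]

theorem loc_zz (x y : Λ) : loc x zM * loc y zM = diagonal (fun f : Λ → Bool => zz (f x) * zz (f y)) := by
  have h : zM = diagonal zz := rfl
  rw [h, loc_diagonal, loc_diagonal, diagonal_mul_diagonal]

theorem trace_UU_diag (π : Equiv.Perm Λ) (D : (Λ → Bool) → ℝ) :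
    (UU π * diagonal D).trace = ∑ f : Λ → Bool, (if f ∘ π = f then D f else 0) := by
  rw [Matrix.trace]
  refine Finset.sum_congr rfl fun f _ => ?_
  rw [Matrix.diag_apply, mul_diagonal]
  unfold UU
  split_ifs <;> simp

theorem trace_UU (π : Equiv.Perm Λ) : (UU π).trace = 2 ^ numCycles π := by
  classical
  let _ : Fintype (Quotient (Equiv.Perm.SameCycle.setoid π)) := Fintype.ofFinite _
  have h := trace_UU_diag π (fun _ => 1)
  rw [diagonal_one, Matrix.mul_one, sum_fixed π (fun _ => 1)] at h
  rw [h, Finset.sum_const, Finset.card_univ, Fintype.card_fun, Fintype.card_bool, nsmul_eq_mul,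
    mul_one]
  unfold numCycles
  rw [Nat.card_eq_fintype_card]
  push_cast
  rfl

/-- flipping one coordinate -/
def flAt {α : Type} [DecidableEq α] (a : α) : (α → Bool) ≃ (α → Bool) where
  toFun g := fun b => if b = a then !(g b) else g b
  invFun g := fun b => if b = a then !(g b) else g b
  left_inv g := by funext b; simp only; split_ifs <;> simp
  right_inv g := by funext b; simp only; split_ifs <;> simp

open Classical in
theorem trace_UU_zz (π : Equiv.Perm Λ) (x y : Λ) :
    (UU π * (loc x zM * loc y zM)).trace = if π.SameCycle x y then 2 ^ numCycles π / 4 else 0 := by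
  let _ : Fintype (Quotient (Equiv.Perm.SameCycle.setoid π)) := Fintype.ofFinite _
  have e1 : (UU π * (loc x zM * loc y zM)).trace =
      ∑ g : Quotient (Equiv.Perm.SameCycle.setoid π) → Bool,
        zz (g (Quotient.mk _ x)) * zz (g (Quotient.mk _ y)) := by
    rw [loc_zz, trace_UU_diag]
    have := sum_fixed π (fun f => zz (f x) * zz (f y))
    rw [← this]
  rw [e1]
  split_ifs with h
  · have h1 : (Quotient.mk (Equiv.Perm.SameCycle.setoid π) x) = Quotient.mk _ y := Quotient.sound h
    rw [h1]
    simp only [zz_sq]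
    rw [Finset.sum_const, Finset.card_univ, Fintype.card_fun, Fintype.card_bool, nsmul_eq_mul]
    unfold numCycles
    rw [Nat.card_eq_fintype_card]
    push_cast
    ring
  · have h1 : (Quotient.mk (Equiv.Perm.SameCycle.setoid π) y) ≠ Quotient.mk _ x := by
      intro h2
      exact h ((Quotient.exact h2).symm)
    have h2 : ∑ g : Quotient (Equiv.Perm.SameCycle.setoid π) → Bool,
        zz (g (Quotient.mk _ x)) * zz (g (Quotient.mk _ y)) =
        - ∑ g : Quotient (Equiv.Perm.SameCycle.setoid π) → Bool,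
        zz (g (Quotient.mk _ x)) * zz (g (Quotient.mk _ y)) := by
      conv_lhs => rw [← Equiv.sum_comp (flAt (Quotient.mk (Equiv.Perm.SameCycle.setoid π) x))]
      rw [← Finset.sum_neg_distrib]
      refine Finset.sum_congr rfl fun g _ => ?_
      show zz (if _ then _ else _) * zz (if _ then _ else _) = _
      rw [if_pos rfl, if_neg h1, zz_not]
      ring
    linarith

theorem trn_self (x : Λ) : trn x x = 1 := by
  rw [← UU_swap, Equiv.swap_self]
  exact UU_one

theorem dot_trn (x y : Λ) : dot x y = (1 / 2 : ℝ) • (trn x y - 1) + uu0 x y • (1 : Matrix _ _ ℝ) := by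
  unfold uu0
  split_ifs with h
  · subst h
    rw [dot_self, trn_self]; simp
  · rw [dot_eq h]; module

theorem HL_LL (r : Λ → Λ → ℝ) (t : ℝ) : t • LL r = HL (fun x y => t * r x y) -
    (∑ x, ∑ y, t * r x y * uu0 x y) • (1 : Matrix _ _ ℝ) := by
  unfold LL HL
  rw [Finset.sum_smul, ← Finset.sum_sub_distrib, smul_smul, Finset.smul_sum]
  refine Finset.sum_congr rfl fun x _ => ?_
  rw [Finset.sum_smul, ← Finset.sum_sub_distrib, Finset.smul_sum]
  refine Finset.sum_congr rfl fun y _ => ?_
  rw [dot_trn]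
  module

section gibbs
variable {r : Λ → Λ → ℝ} {t : ℝ} {U : Matrix (Λ → Bool) (Λ → Bool) ℝ} {h : (Λ → Bool) → ℝ}
  (hU : Orth U) (hH : HL (fun x y => t * r x y) = U * diagonal h * Uᵀ)

include hU hH

theorem exp_gs : ∃ κ : ℝ, 0 < κ ∧ NormedSpace.exp (t • LL r) = κ • gs U h := by
  set c := ∑ x, ∑ y, t * r x y * uu0 x y with hc
  have h1 : t • LL r = U * diagonal (fun i => h i - c) * Uᵀ := by
    rw [HL_LL, hH, ← hc]
    have : diagonal (fun i => h i - c) = diagonal h - c • (1 : Matrix (Λ → Bool) (Λ → Bool) ℝ) := by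
      rw [← diagonal_one, ← diagonal_smul, diagonal_sub]
      congr 1
      funext i; simp
    rw [this, Matrix.mul_sub, Matrix.sub_mul, Matrix.mul_smul, Matrix.smul_mul, Matrix.mul_one, hU.1]
  have hZ : 0 < ∑ i, Real.exp (h i) := Finset.sum_pos (fun i _ => Real.exp_pos _) Finset.univ_nonempty
  refine ⟨Real.exp (-c) * ∑ i, Real.exp (h i), by positivity, ?_⟩
  rw [h1, exp_diag hU]
  unfold gs
  rw [← Matrix.smul_mul, ← Matrix.mul_smul, ← diagonal_smul]
  congr 3
  funext i
  rw [Pi.smul_apply, smul_eq_mul, sub_eq_add_neg, Real.exp_add]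
  field_simp

theorem gs_zz (x y : Λ) : (gs U h * (loc x zM * loc y zM)).trace = gam (gs U h) x y / 3 := by
  set ρ := gs U h with hρ
  have htr : ρ.trace = 1 := gs_tr hU
  by_cases hxy : x = y
  · subst hxy
    rw [loc_mul, zM_sq, loc_smul, loc_one, Matrix.mul_smul, trace_smul, Matrix.mul_one, htr,
      gam_self htr]
    norm_num
  · have hc : tot Λ pM * HL (fun x y => t * r x y) = HL (fun x y => t * r x y) * tot Λ pM := by
      rw [← cm_zero_iff]
      unfold HL
      simp only [cm_sum, cm_smul, cm_P_dot, smul_zero, Finset.sum_const_zero]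
    have hcρ : tot Λ pM * ρ = ρ * tot Λ pM := gs_comm hU (by rw [← hH]; exact hc)
    have h1 : ∀ B, (ρ * cm (tot Λ pM) B).trace = 0 := by
      intro B
      unfold cm
      rw [Matrix.mul_sub, trace_sub, ← Matrix.mul_assoc, ← hcρ, Matrix.mul_assoc,
        trace_mul_comm, Matrix.mul_assoc, sub_self]
    have h2 : ∀ u v : Λ, (ρ * (loc u mM * loc v pM)).trace = 2 * (ρ * (loc u zM * loc v zM)).trace := by
      intro u v
      have h3 := h1 (loc u mM * loc v zM)
      rw [cm_mul, cm_tot, cm_tot, cm_pM_mM, cm_pM_zM, loc_smul, loc_neg, Matrix.smul_mul,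
        Matrix.mul_neg, Matrix.mul_add, trace_add, Matrix.mul_smul, trace_smul, Matrix.mul_neg,
        trace_neg, smul_eq_mul] at h3
      linarith
    have h3 : gam ρ x y = 3 * (ρ * (loc x zM * loc y zM)).trace := by
      unfold gam dot
      rw [Matrix.mul_add, trace_add, Matrix.mul_smul, trace_smul, Matrix.mul_add, trace_add,
        loc_comm hxy pM mM, h2, h2, loc_comm (Ne.symm hxy) zM zM, smul_eq_mul]
      ring
    rw [h3]; ring

theorem part_sum : ∃ κ : ℝ, 0 < κ ∧ ∑ π, law r t π * 2 ^ numCycles π = κ ∧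
    ∀ x y, ∑ π : Equiv.Perm Λ, law r t π * 2 ^ numCycles π *
      (haveI := Classical.propDecidable (π.SameCycle x y); if π.SameCycle x y then 1 else 0) =
        κ * (4 / 3 * gam (gs U h) x y) := by
  classical
  obtain ⟨κ, hκ, hexp⟩ := exp_gs hU hH
  have hPhi := Phi_exp r t
  rw [hexp] at hPhi
  refine ⟨κ, hκ, ?_, ?_⟩
  · have h1 := congrArg Matrix.trace hPhi
    rw [trace_sum, trace_smul, gs_tr hU, smul_eq_mul, mul_one] at h1
    rw [← h1]
    refine Finset.sum_congr rfl fun π _ => ?_
    rw [trace_smul, trace_UU, smul_eq_mul]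
  · intro x y
    have h1 := congrArg (fun A => (A * (loc x zM * loc y zM)).trace) hPhi
    simp only [Finset.sum_mul, trace_sum, Matrix.smul_mul, trace_smul, smul_eq_mul] at h1
    rw [gs_zz hU hH] at h1
    have h2 : κ * (4 / 3 * gam (gs U h) x y) = 4 * (κ * (gam (gs U h) x y / 3)) := by ring
    rw [h2, ← h1, Finset.mul_sum]
    refine Finset.sum_congr rfl fun π _ => ?_
    rw [trace_UU_zz]
    by_cases hs : π.SameCycle x y
    · simp only [hs, if_true]; ring
    · simp only [hs, if_false]; ring

end gibbs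

end Pool.Agent.W761.Interchange
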