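import Pool.Agent.W761.HF.Tile

/-!
# The key inequality
-/

set_option autoImplicit false

open Finset BigOperators Matrix

set_option linter.unusedSectionVars false
set_option linter.unusedSimpArgs false

namespace Pool.Agent.W761.HF

open Pool.Agent.H11R2.BEC (Site cu red emb inn cf ev t6cW tile_exists t8_card_site)
open Pool.Agent.H11R2.BEC.Ker (sp nd)

/-- the weights of the Hamiltonian: long-range part and remainder -/
noncomputable def Wf {d J : ℕ} (q b1 : ℝ) (Rw : Site d J → ℝ) (x y : Site d J) : ℝ :=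
  b1 * ∑ s ∈ range (J + 1), cf q J s * sp d J s (y - x) + Rw (y - x)

theorem Wf_sum {d J : ℕ} (q b1 : ℝ) (Rw : Site d J → ℝ) (c : Site d J → Site d J → ℝ) :
    ∑ x, ∑ y, Wf q b1 Rw x y * c x y =
      b1 * ∑ s ∈ range (J + 1), cf q J s * ∑ w, qf c (t6cW s w) + ∑ x, ∑ y, Rw (y - x) * c x y := by
  have h1 : ∀ x y : Site d J, Wf q b1 Rw x y * c x y =
      b1 * ∑ s ∈ range (J + 1), cf q J s * (sp d J s (y - x) * c x y) + Rw (y - x) * c x y := by
    intro x y
    unfold Wf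
    rw [add_mul, mul_assoc, Finset.sum_mul]
    congr 2
    exact Finset.sum_congr rfl fun s _ => by ring
  simp only [h1, Finset.sum_add_distrib]
  congr 1
  simp only [← sp_sum_eq, Finset.mul_sum]
  rw [Finset.sum_congr rfl fun x _ => Finset.sum_comm, Finset.sum_comm]

theorem key {d J j : ℕ} (hj : j < J) {q b1 L : ℝ} (hq0 : 0 ≤ q) (hq1 : q ≤ 1) (hb1 : 0 < b1)
    {Rw : Site d J → ℝ} (hR0 : ∀ w, 0 ≤ Rw w)
    (hRL : ∀ z : ℕ, z ≤ J → ∀ N : Site d J → ℝ, (∀ w, 0 ≤ N w) →
      (∀ z' : Fin d → ℤ, N (fun ν => ((z' ν : ℤ) : ZMod (2 ^ J))) ≤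
        (∑ ν, ((z' ν).natAbs : ℝ)) * (2 ^ (d * J) / 2 ^ z)) →
      ∑ w, Rw w * N w ≤ b1 * L * (2 ^ (d * J) / 2 ^ z))
    {U : Matrix (Site d J → Bool) (Site d J → Bool) ℝ} {h : (Site d J → Bool) → ℝ} (hU : Orth U)
    (hH : HL (Wf q b1 Rw) = U * diagonal h * Uᵀ) (hK : Ker (gam (gs U h))) {θ : ℝ} (hθ : 0 < θ) :
    ∑ s ∈ range (J + 1), cf q J s * (aa (gam (gs U h)) j - aa (gam (gs U h)) s) +
      ∑ s ∈ range j, cf q J s * uu (gam (gs U h)) s j ≤
      1 / (2 * (2 : ℝ) ^ (d * j)) + (3 * θ + 1 / (2 * (2 : ℝ) ^ (d * j) * θ)) +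
        2 * Real.log ((2 : ℝ) ^ (d * j) + 1) / (b1 * (2 : ℝ) ^ (d * j)) + L / 2 ^ j := by
  set C := gam (gs U h) with hC
  have hpos : Pos (gs U h) := gs_pos
  have htr : (gs U h).trace = 1 := gs_tr hU
  obtain ⟨e, h1, h2, h3⟩ := tile_exists (d := d) hj.le
  have hW : ∀ i i' : Fin d → Fin (2 ^ (J - j)), ∃ π : Equiv.Perm (Fin d → Fin (2 ^ (J - j))),
      π i = i' ∧ ∀ a a' : (Fin d → Fin (2 ^ (J - j))) × Site d j,
      Wf q b1 Rw (e.symm (π a.1, a.2)) (e.symm (π a'.1, a'.2)) = Wf q b1 Rw (e.symm a) (e.symm a') := by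
    intro i i'
    obtain ⟨π, t, h4, h5⟩ := tile_perm hj.le e h1 h2 i i'
    refine ⟨π, h4, fun a a' => ?_⟩
    rw [h5, h5]
    unfold Wf
    rw [add_sub_add_left_eq_sub]
  have : Nonempty (Fin d → Fin (2 ^ (J - j))) := ⟨fun _ => ⟨0, by positivity⟩⟩
  obtain ⟨S, p, M, Γ, m, hd1, hp1, hmarg, hmain⟩ := qpL e hW hU hH
  have hb : (0 : ℝ) < (2 : ℝ) ^ (d * j) := by positivity
  have hV : (0 : ℝ) < (2 : ℝ) ^ (d * J) := by positivity
  set b : ℝ := (2 : ℝ) ^ (d * j) with hbdef
  set V : ℝ := (2 : ℝ) ^ (d * J) with hVdef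
  set E : ℝ := 3 * θ + 1 / (2 * b * θ) with hE
  -- block form of the correlations
  have hblk : ∀ q' q'' : Site d j, ∑ n ∈ S, p n * Γ n q' q'' = C (emb 0 q') (emb 0 q'') := by
    intro q' q''
    rw [hmarg (fun _ => ⟨0, by positivity⟩) q' q'', ← hC, symm_emb e h2 _ q', symm_emb e h2 _ q'',
      hK.trans]
  have hqf : ∀ α : Site d j → ℝ, ∑ n ∈ S, p n * qf (Γ n) α =
      qf (fun q' q'' : Site d j => C (emb 0 q') (emb 0 q'')) α := by
    intro α
    unfold qf
    simp only [← hblk, Finset.mul_sum]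
    rw [Finset.sum_comm]
    refine Finset.sum_congr rfl fun x _ => ?_
    rw [Finset.sum_comm]
    refine Finset.sum_congr rfl fun y _ => ?_
    exact Finset.sum_congr rfl fun n _ => by ring
  have hM2 : aa C j - 1 / (2 * b) ≤ ∑ n ∈ S, p n * M n ^ 2 := by
    rw [aa_block, ← hqf]
    have h4 : ∀ n ∈ S, p n * qf (Γ n) (t6cW j 0) ≤ p n * M n ^ 2 + p n * (1 / (2 * b)) := by
      intro n hn
      obtain ⟨h5, h6⟩ := hd1 n hn
      rw [← mul_add]
      refine mul_le_mul_of_nonneg_left ?_ h5.le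
      rw [unif_eq h6]
      have h7 : M n / b ≤ 1 / (2 * b) := by
        rw [div_le_div_iff₀ hb (by positivity)]
        have := h6.hM1
        nlinarith
      linarith
    have h5 := Finset.sum_le_sum h4
    rw [Finset.sum_add_distrib, ← Finset.sum_mul, hp1, one_mul] at h5
    linarith
  -- trial coherences
  have hbig : ∀ s, aa C j - 1 / (2 * b) ≤ ∑ n ∈ S, p n * ((1 / V) * ∑ w, qf (cn e (Γ n) (m n)) (t6cW s w)) := by
    intro s
    refine hM2.trans (Finset.sum_le_sum fun n hn => ?_)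
    obtain ⟨h5, h6⟩ := hd1 n hn
    exact mul_le_mul_of_nonneg_left (ck_big hj.le e h1 h2 h6 s) h5.le
  have hsmall : ∀ s, aa C j - 1 / (2 * b) + (uu C s j - E) ≤
      ∑ n ∈ S, p n * ((1 / V) * ∑ w, qf (cn e (Γ n) (m n)) (t6cW s w)) := by
    intro s
    have h4 : ∑ n ∈ S, p n * (M n ^ 2 + (1 / b) * ∑ z ∈ inn j s,
        qf (Γ n) (fun q' => t6cW s z q' - t6cW j 0 q') - E) ≤
        ∑ n ∈ S, p n * ((1 / V) * ∑ w, qf (cn e (Γ n) (m n)) (t6cW s w)) := by
      refine Finset.sum_le_sum fun n hn => ?_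
      obtain ⟨h5, h6⟩ := hd1 n hn
      exact mul_le_mul_of_nonneg_left (ck_small hj.le e h1 h2 h6 s hθ) h5.le
    refine le_trans ?_ h4
    have h5 : ∑ n ∈ S, p n * (M n ^ 2 + (1 / b) * ∑ z ∈ inn j s,
        qf (Γ n) (fun q' => t6cW s z q' - t6cW j 0 q') - E) =
        ∑ n ∈ S, p n * M n ^ 2 + uu C s j - E := by
      have h6 : ∀ n ∈ S, p n * (M n ^ 2 + (1 / b) * ∑ z ∈ inn j s,
          qf (Γ n) (fun q' => t6cW s z q' - t6cW j 0 q') - E) =
          p n * M n ^ 2 + (1 / b) * ∑ z ∈ inn j s,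
            p n * qf (Γ n) (fun q' => t6cW s z q' - t6cW j 0 q') - p n * E := by
        intro n _
        rw [← Finset.mul_sum]; ring
      rw [Finset.sum_congr rfl h6, Finset.sum_sub_distrib, Finset.sum_add_distrib, ← Finset.sum_mul,
        hp1, one_mul, ← Finset.mul_sum, Finset.sum_comm]
      simp only [hqf]
      rw [uu_block]
    rw [h5]
    linarith
  -- the remainder
  have hcnm : ∀ x y, - (if (e x).1 = (e y).1 then (0 : ℝ) else 1) ≤
      ∑ n ∈ S, p n * cn e (Γ n) (m n) x y - C x y := by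
    intro x y
    by_cases hxy : (e x).1 = (e y).1
    · rw [if_pos hxy]
      have h4 : ∑ n ∈ S, p n * cn e (Γ n) (m n) x y = C x y := by
        have h5 : ∀ n ∈ S, p n * cn e (Γ n) (m n) x y = p n * Γ n (e x).2 (e y).2 := by
          intro n _
          unfold cn
          rw [if_pos hxy]
        rw [Finset.sum_congr rfl h5, hmarg (e x).1, Prod.mk.eta, Equiv.symm_apply_apply, hxy,
          Prod.mk.eta, Equiv.symm_apply_apply]
      rw [h4]; simp
    · rw [if_neg hxy]
      have h4 : ∀ n ∈ S, p n * (-(1 / 4)) ≤ p n * cn e (Γ n) (m n) x y := by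
        intro n hn
        obtain ⟨h5, h6⟩ := hd1 n hn
        refine mul_le_mul_of_nonneg_left ?_ h5.le
        unfold cn
        rw [if_neg hxy]
        have h7 := h6.msq (e x).2
        have h8 := h6.msq (e y).2
        nlinarith [sq_nonneg (m n (e x).2 + m n (e y).2)]
      have h5 := Finset.sum_le_sum h4
      rw [← Finset.sum_mul, hp1, one_mul] at h5
      have h6 : C x y ≤ 3 / 4 := gam_le' hpos htr x y
      linarith
  have hrem : - (b1 * L * (V / 2 ^ j)) ≤
      ∑ n ∈ S, p n * ∑ x, ∑ y, Rw (y - x) * cn e (Γ n) (m n) x y - ∑ x, ∑ y, Rw (y - x) * C x y := by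
    have h4 := hRL j hj.le (cross e) (cross_nonneg e) (cross_rd hj.le e h1 h3)
    have h5 : ∑ w, Rw w * cross e w = ∑ x, ∑ y, Rw (y - x) * (if (e x).1 = (e y).1 then (0 : ℝ) else 1) := by
      unfold cross
      simp only [Finset.mul_sum]
      rw [Finset.sum_comm]
      refine Finset.sum_congr rfl fun x _ => ?_
      rw [← Equiv.sum_comp (Equiv.addLeft x)
        (fun y => Rw (y - x) * (if (e x).1 = (e y).1 then (0 : ℝ) else 1))]
      refine Finset.sum_congr rfl fun w _ => ?_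
      simp only [Equiv.coe_addLeft, add_sub_cancel_left]
      by_cases hx : (e x).1 = (e (x + w)).1 <;> simp [hx]
    have h6 : ∑ n ∈ S, p n * ∑ x, ∑ y, Rw (y - x) * cn e (Γ n) (m n) x y =
        ∑ x, ∑ y, Rw (y - x) * ∑ n ∈ S, p n * cn e (Γ n) (m n) x y := by
      simp only [Finset.mul_sum]
      rw [Finset.sum_comm]
      refine Finset.sum_congr rfl fun x _ => ?_
      rw [Finset.sum_comm]
      refine Finset.sum_congr rfl fun y _ => ?_
      exact Finset.sum_congr rfl fun n _ => by ring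
    rw [h6, ← Finset.sum_sub_distrib]
    have h7 : - ∑ x, ∑ y, Rw (y - x) * (if (e x).1 = (e y).1 then (0 : ℝ) else 1) ≤
        ∑ x, (∑ y, Rw (y - x) * ∑ n ∈ S, p n * cn e (Γ n) (m n) x y - ∑ y, Rw (y - x) * C x y) := by
      rw [← Finset.sum_neg_distrib]
      refine Finset.sum_le_sum fun x _ => ?_
      rw [← Finset.sum_neg_distrib, ← Finset.sum_sub_distrib]
      refine Finset.sum_le_sum fun y _ => ?_
      rw [← mul_sub, ← mul_neg]
      exact mul_le_mul_of_nonneg_left (hcnm x y) (hR0 _)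
    rw [h5] at h4
    linarith
  -- combine
  have hcn : ∀ n, ∑ x, ∑ y, Wf q b1 Rw x y *
      (if (e x).1 = (e y).1 then Γ n (e x).2 (e y).2 else m n (e x).2 * m n (e y).2) =
      b1 * ∑ s ∈ range (J + 1), cf q J s * ∑ w, qf (cn e (Γ n) (m n)) (t6cW s w) +
        ∑ x, ∑ y, Rw (y - x) * cn e (Γ n) (m n) x y := fun n => Wf_sum q b1 Rw (cn e (Γ n) (m n))
  have hCs : ∑ x, ∑ y, Wf q b1 Rw x y * C x y =
      b1 * ∑ s ∈ range (J + 1), cf q J s * (V * aa C s) + ∑ x, ∑ y, Rw (y - x) * C x y := by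
    rw [Wf_sum]
    congr 2
    refine Finset.sum_congr rfl fun s _ => ?_
    rw [Finset.sum_congr rfl fun w _ => hK.shift s w, Finset.sum_const, Finset.card_univ,
      nsmul_eq_mul, t8_card_site]
  simp only [hcn] at hmain
  rw [← hC, hCs] at hmain
  set X : ℕ → ℝ := fun s => ∑ n ∈ S, p n * ((1 / V) * ∑ w, qf (cn e (Γ n) (m n)) (t6cW s w)) with hX
  have h10 : ∑ n ∈ S, p n * (b1 * ∑ s ∈ range (J + 1), cf q J s *
      ∑ w, qf (cn e (Γ n) (m n)) (t6cW s w)) = b1 * V * ∑ s ∈ range (J + 1), cf q J s * X s := by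
    simp only [hX, Finset.mul_sum]
    rw [Finset.sum_comm]
    refine Finset.sum_congr rfl fun s _ => Finset.sum_congr rfl fun n _ =>
      Finset.sum_congr rfl fun w _ => ?_
    field_simp
  simp only [mul_add, Finset.sum_add_distrib] at hmain
  rw [h10] at hmain
  have hcardI : (Fintype.card (Fin d → Fin (2 ^ (J - j))) : ℝ) = V / b := by
    rw [Fintype.card_fun, Fintype.card_fin, Fintype.card_fin, ← pow_mul]
    push_cast
    rw [hVdef, hbdef, eq_div_iff (by positivity), ← pow_add]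
    congr 1
    rw [mul_comm (J - j) d, ← mul_add, Nat.sub_add_cancel hj.le]
  rw [hcardI, t8_card_site] at hmain
  have h11 : ∑ s ∈ range (J + 1), cf q J s * (V * aa C s) = V * ∑ s ∈ range (J + 1), cf q J s * aa C s := by
    rw [Finset.mul_sum]; exact Finset.sum_congr rfl fun s _ => by ring
  rw [h11] at hmain
  have h12 : b1 * V * (∑ s ∈ range (J + 1), cf q J s * X s - ∑ s ∈ range (J + 1), cf q J s * aa C s) ≤
      b1 * V * (2 * Real.log (b + 1) / (b1 * b) + L / 2 ^ j) := by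
    have h13 : b1 * V * (2 * Real.log (b + 1) / (b1 * b) + L / 2 ^ j) =
        2 * (V / b) * Real.log (b + 1) + b1 * L * (V / 2 ^ j) := by
      field_simp
    rw [h13]
    linarith
  have h14 := le_of_mul_le_mul_left h12 (by positivity)
  -- lower bound for the trial coherences
  have hcf : ∀ s, 0 ≤ cf q J s := fun s => Pool.Agent.H11R2.BEC.cf_nonneg hq0 hq1 J s
  have h15 : (aa C j - 1 / (2 * b)) + ∑ s ∈ range j, cf q J s * (uu C s j - E) ≤
      ∑ s ∈ range (J + 1), cf q J s * X s := by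
    have h16 : ∑ s ∈ range (J + 1), cf q J s * ((aa C j - 1 / (2 * b)) +
        (if s < j then (uu C s j - E) else 0)) ≤ ∑ s ∈ range (J + 1), cf q J s * X s := by
      refine Finset.sum_le_sum fun s _ => mul_le_mul_of_nonneg_left ?_ (hcf s)
      split_ifs with hs
      · exact hsmall s
      · rw [add_zero]; exact hbig s
    refine le_trans (le_of_eq ?_) h16
    simp only [mul_add, Finset.sum_add_distrib]
    rw [← Finset.sum_mul, Pool.Agent.H11R2.BEC.sum_cf, one_mul]
    congr 1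
    simp only [mul_ite, mul_zero]
    rw [← Finset.sum_filter]
    refine Finset.sum_congr ?_ fun _ _ => rfl
    ext s
    simp only [Finset.mem_filter, Finset.mem_range]
    omega
  have h17 : ∑ s ∈ range j, cf q J s * (uu C s j - E) ≥ ∑ s ∈ range j, cf q J s * uu C s j - E := by
    simp only [mul_sub, Finset.sum_sub_distrib]
    rw [← Finset.sum_mul]
    have h18 : ∑ s ∈ range j, cf q J s ≤ 1 := by
      rw [← Pool.Agent.H11R2.BEC.sum_cf q J]
      refine Finset.sum_le_sum_of_subset_of_nonneg ?_ fun s _ _ => hcf s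
      intro s hs
      rw [Finset.mem_range] at hs ⊢
      omega
    have hE0 : 0 ≤ E := by rw [hE]; positivity
    nlinarith
  have h19 : ∑ s ∈ range (J + 1), cf q J s * (aa C j - aa C s) =
      aa C j - ∑ s ∈ range (J + 1), cf q J s * aa C s := by
    simp only [mul_sub, Finset.sum_sub_distrib]
    rw [← Finset.sum_mul, Pool.Agent.H11R2.BEC.sum_cf, one_mul]
  rw [h19]
  linarith

end Pool.Agent.W761.HF
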