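import Pool.Agent.W761.HF.Corr

/-!
# Block marginals of an invariant Gibbs state
-/

set_option autoImplicit false

open Finset BigOperators Matrix

set_option linter.unusedSectionVars false
set_option linter.unusedSimpArgs false

namespace Pool.Agent.W761.HF

section gen
variable {I K : Type} [Fintype I] [DecidableEq I] [Fintype K] [DecidableEq K]

/-- the marginal at `i` -/
noncomputable def marg (i : I) (ρ : Matrix (I → K) (I → K) ℝ) : Matrix K K ℝ :=
  fun a b => (ρ * loc i (Matrix.single b a 1)).trace

theorem marg_trace (i : I) (ρ : Matrix (I → K) (I → K) ℝ) (A : Matrix K K ℝ) :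
    (marg i ρ * A).trace = (ρ * loc i A).trace := by
  have h : A = ∑ b, ∑ a, (A b a) • Matrix.single b a (1 : ℝ) := by
    conv_lhs => rw [matrix_eq_sum_single A]
    refine Finset.sum_congr rfl fun b _ => Finset.sum_congr rfl fun a _ => ?_
    rw [smul_single, smul_eq_mul, mul_one]
  conv_rhs => rw [h]
  rw [loc_sum, Finset.mul_sum, trace_sum, Matrix.trace]
  simp only [Matrix.diag_apply, Matrix.mul_apply]
  rw [Finset.sum_comm]
  refine Finset.sum_congr rfl fun b _ => ?_
  rw [loc_sum, Finset.mul_sum, trace_sum]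
  refine Finset.sum_congr rfl fun a _ => ?_
  rw [loc_smul, Matrix.mul_smul, trace_smul, smul_eq_mul, mul_comm]
  rfl

theorem ext_trace {n : Type} [Fintype n] [DecidableEq n] {B C : Matrix n n ℝ}
    (h : ∀ A : Matrix n n ℝ, (B * A).trace = (C * A).trace) : B = C := by
  ext i j
  have h1 := h (Matrix.single j i 1)
  simpa [Matrix.trace_mul_single] using h1

theorem cj_inv_trace {n : Type} [Fintype n] [DecidableEq n] (e : n ≃ n) (he : ∀ x, e (e x) = x)
    (A B : Matrix n n ℝ) : (cj e A * B).trace = (A * cj e B).trace := by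
  rw [← cj_trace e (A * cj e B), cj_mul]
  congr 2
  ext i j
  show B i j = B (e (e i)) (e (e j))
  rw [he, he]

/-- conjugation of all the factors -/
def allE (I : Type) {K : Type} (e : K ≃ K) : (I → K) ≃ (I → K) where
  toFun f := fun i => e (f i)
  invFun f := fun i => e.symm (f i)
  left_inv f := by funext i; simp
  right_inv f := by funext i; simp

theorem cj_allE_loc (e : K ≃ K) (i : I) (A : Matrix K K ℝ) :
    cj (allE I e) (loc i A) = loc i (cj e A) := by
  funext f g
  show ∏ j, (if j = i then A else 1) (e (f j)) (e (g j)) = ∏ j, (if j = i then cj e A else 1) (f j) (g j)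
  refine Finset.prod_congr rfl fun j _ => ?_
  by_cases h : j = i
  · rw [if_pos h, if_pos h]; rfl
  · rw [if_neg h, if_neg h, Matrix.one_apply, Matrix.one_apply]
    simp

/-- permutation of the factors -/
def permE {I : Type} (K : Type) (π : Equiv.Perm I) : (I → K) ≃ (I → K) where
  toFun f := fun i => f (π i)
  invFun f := fun i => f (π.symm i)
  left_inv f := by funext i; simp
  right_inv f := by funext i; simp

theorem cj_permE_loc (π : Equiv.Perm I) (i : I) (A : Matrix K K ℝ) :
    cj (permE K π) (loc i A) = loc (π i) A := loc_submatrix π i A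

variable {ρ : Matrix (I → K) (I → K) ℝ}

theorem marg_pos (i : I) (hρ : Pos ρ) : Pos (marg i ρ) := by
  constructor
  · apply ext_trace
    intro A
    rw [← trace_transpose, transpose_mul, transpose_transpose, trace_mul_comm, marg_trace,
      marg_trace, ← trace_transpose, transpose_mul, loc_transpose, transpose_transpose, hρ.1,
      trace_mul_comm]
  · intro A
    rw [marg_trace, ← loc_mul, ← loc_transpose]
    exact hρ.2 _

theorem marg_tr (i : I) (hρ : ρ.trace = 1) : (marg i ρ).trace = 1 := by
  have := marg_trace i ρ 1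
  rwa [Matrix.mul_one, loc_one, Matrix.mul_one, hρ] at this

theorem marg_comm (i : I) (B : Matrix K K ℝ) (h : tot I B * ρ = ρ * tot I B) :
    B * marg i ρ = marg i ρ * B := by
  apply ext_trace
  intro A
  have h1 : (B * marg i ρ * A).trace = (marg i ρ * (A * B)).trace := by
    rw [Matrix.mul_assoc, trace_mul_comm, Matrix.mul_assoc]
  have h2 : (marg i ρ * B * A).trace = (marg i ρ * (B * A)).trace := by rw [Matrix.mul_assoc]
  rw [h1, h2, ← sub_eq_zero, ← trace_sub, ← Matrix.mul_sub, marg_trace]
  have h3 : A * B - B * A = - cm B A := by unfold cm; abel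
  rw [h3, loc_neg, ← cm_tot]
  unfold cm
  rw [neg_sub, Matrix.mul_sub, trace_sub, ← Matrix.mul_assoc, trace_mul_comm _ (tot I B),
    ← Matrix.mul_assoc, ← Matrix.mul_assoc, h, sub_self]

theorem marg_fl (i : I) (e : K ≃ K) (he : ∀ x, e (e x) = x) (h : cj (allE I e) ρ = ρ) :
    cj e (marg i ρ) = marg i ρ := by
  apply ext_trace
  intro A
  rw [cj_inv_trace e he, marg_trace, marg_trace, ← cj_allE_loc,
    ← cj_inv_trace (allE I e) (by intro f; funext j; exact he _), h]

theorem marg_perm {i i' : I} (π : Equiv.Perm I) (hπ : π i = i') (h : cj (permE K π) ρ = ρ) :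
    marg i' ρ = marg i ρ := by
  apply ext_trace
  intro A
  rw [marg_trace, marg_trace, ← hπ, ← cj_permE_loc, ← cj_trace (permE K π) (ρ * loc i A), cj_mul, h]

theorem pos_sub_min {n : Type} [Fintype n] [DecidableEq n] [Nonempty n] {U : Matrix n n ℝ}
    (hU : Orth U) {p : n → ℝ} (hp : ∀ k, 0 < p k) :
    ∃ c : ℝ, 0 < c ∧ Pos (U * diagonal p * Uᵀ - c • (1 : Matrix n n ℝ)) := by
  obtain ⟨k, _, hk⟩ := Finset.exists_min_image univ p Finset.univ_nonempty
  refine ⟨p k, hp k, ?_⟩
  have : U * diagonal p * Uᵀ - (p k) • (1 : Matrix n n ℝ) = U * diagonal (fun i => p i - p k) * Uᵀ := by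
    have h1 : diagonal (fun i => p i - p k) = diagonal p - (p k) • (1 : Matrix n n ℝ) := by
      rw [← diagonal_one, ← diagonal_smul, diagonal_sub]
      congr 1
      funext i; simp
    rw [h1, Matrix.mul_sub, Matrix.sub_mul, Matrix.mul_smul, Matrix.smul_mul, Matrix.mul_one, hU.1]
  rw [this]
  exact pos_diag fun i => by have := hk i (Finset.mem_univ _); linarith

theorem marg_eig_pos [Nonempty K] (i : I) {U : Matrix (I → K) (I → K) ℝ} (hU : Orth U)
    {p : (I → K) → ℝ} (hp : ∀ k, 0 < p k) (hρ : ρ = U * diagonal p * Uᵀ) {V : Matrix K K ℝ}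
    {e : K → ℝ} (hV : Orth V) (hd : marg i ρ = V * diagonal e * Vᵀ) (k : K) : 0 < e k := by
  obtain ⟨c, hc, hcp⟩ := pos_sub_min hU hp
  rw [← hρ] at hcp
  set D : Matrix K K ℝ := diagonal (fun i => if i = k then (1 : ℝ) else 0) with hD
  have hDD : D * D = D := by
    rw [hD, diagonal_mul_diagonal]
    congr 1
    funext i
    split_ifs <;> simp
  have h1 := hcp.2 (loc i (V * D))
  rw [loc_transpose, loc_mul, transpose_mul, hD, diagonal_transpose, ← hD, Matrix.mul_assoc,
    ← Matrix.mul_assoc D, hDD, ← Matrix.mul_assoc, Matrix.sub_mul, trace_sub, ← marg_trace, hd,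
    Matrix.smul_mul, Matrix.one_mul, trace_smul, smul_eq_mul] at h1
  have h2 : (V * diagonal e * Vᵀ * (V * D * Vᵀ)).trace = e k := by
    have : V * diagonal e * Vᵀ * (V * D * Vᵀ) = V * diagonal (fun i => if i = k then e k else 0) * Vᵀ := by
      calc _ = V * (diagonal e * (Vᵀ * V) * D) * Vᵀ := by simp only [Matrix.mul_assoc]
        _ = _ := by
          rw [hV.2, Matrix.mul_one, hD, diagonal_mul_diagonal]
          congr 3
          funext i
          split_ifs with h5
          · rw [h5, mul_one]
          · rw [mul_zero]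
    rw [this, trace_diag hV, Finset.sum_ite_eq' univ k, if_pos (Finset.mem_univ _)]
  have h3 : 0 < (loc i (V * D * Vᵀ) : Matrix (I → K) (I → K) ℝ).trace := by
    unfold loc
    rw [trace_tens]
    refine Finset.prod_pos fun j _ => ?_
    split_ifs
    · rw [hD, trace_diag hV, Finset.sum_ite_eq' univ k, if_pos (Finset.mem_univ _)]; norm_num
    · rw [trace_one]; exact_mod_cast Fintype.card_pos
  rw [h2] at h1
  have := mul_pos hc h3
  linarith

theorem tens_conj (V D : Matrix K K ℝ) (hV : Orth V) (i : I) :
    tens (fun _ : I => V) * loc i D * (tens (fun _ : I => V))ᵀ = loc i (V * D * Vᵀ) := by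
  unfold loc
  rw [tens_transpose, tens_mul, tens_mul]
  congr 1
  funext j
  split_ifs
  · rfl
  · rw [Matrix.mul_one, hV.1]

/-- the entropy term for a product of block states -/
theorem upper_entropy {V : Matrix K K ℝ} {e : K → ℝ} (hV : Orth V) (he : ∀ k, 0 < e k)
    (hd : ∀ i : I, marg i ρ = V * diagonal e * Vᵀ) :
    ∑ k : I → K, ((tens (fun _ : I => V))ᵀ * ρ * tens (fun _ : I => V)) k k *
      Real.log (∏ i, e (k i)) = - (Fintype.card I * ∑ k, Real.negMulLog (e k)) := by
  set V' := tens (fun _ : I => V) with hV'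
  have h1 : ∀ k : I → K, Real.log (∏ i, e (k i)) = ∑ i, Real.log (e (k i)) := by
    intro k
    rw [Real.log_prod]
    intro i _; exact (he _).ne'
  simp only [h1]
  conv_lhs => simp only [Finset.mul_sum]
  rw [Finset.sum_comm]
  have h2 : ∀ i : I, ∑ k : I → K, (V'ᵀ * ρ * V') k k * Real.log (e (k i)) =
      - ∑ k, Real.negMulLog (e k) := by
    intro i
    have h3 : ∑ k : I → K, (V'ᵀ * ρ * V') k k * Real.log (e (k i)) =
        (V'ᵀ * ρ * V' * loc i (diagonal (fun k => Real.log (e k)))).trace := by
      rw [loc_diagonal, Matrix.trace]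
      refine Finset.sum_congr rfl fun k _ => ?_
      rw [Matrix.diag_apply, mul_diagonal]
    rw [h3]
    calc (V'ᵀ * ρ * V' * loc i (diagonal (fun k => Real.log (e k)))).trace
        = (V'ᵀ * (ρ * (V' * loc i (diagonal (fun k => Real.log (e k)))))).trace := by
          simp only [Matrix.mul_assoc]
      _ = (ρ * (V' * loc i (diagonal (fun k => Real.log (e k)))) * V'ᵀ).trace := trace_mul_comm _ _
      _ = (ρ * (V' * loc i (diagonal (fun k => Real.log (e k))) * V'ᵀ)).trace := by
          simp only [Matrix.mul_assoc]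
      _ = (V * diagonal e * Vᵀ * (V * diagonal (fun k => Real.log (e k)) * Vᵀ)).trace := by
          rw [hV', tens_conj _ _ hV, ← marg_trace, hd]
      _ = (V * diagonal (fun k => e k * Real.log (e k)) * Vᵀ).trace := by
          congr 1
          calc _ = V * (diagonal e * (Vᵀ * V) * diagonal (fun k => Real.log (e k))) * Vᵀ := by
                simp only [Matrix.mul_assoc]
            _ = _ := by rw [hV.2, Matrix.mul_one, diagonal_mul_diagonal]
      _ = _ := by
          rw [trace_diag hV, ← Finset.sum_neg_distrib]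
          refine Finset.sum_congr rfl fun k _ => ?_
          simp [Real.negMulLog]
  rw [Finset.sum_congr rfl fun i _ => h2 i, Finset.sum_const, Finset.card_univ, nsmul_eq_mul]
  ring

theorem pw_eq {W : Matrix K K ℝ} (r : K → ℝ) :
    pw I (W * diagonal r * Wᵀ) = tens (fun _ : I => W) * diagonal (fun k => ∏ i, r (k i)) *
      (tens (fun _ : I => W))ᵀ := by
  unfold pw
  rw [← tens_diagonal (fun _ : I => r), tens_transpose, tens_mul, tens_mul]

theorem lower_entropy {r : K → ℝ} (hr1 : ∑ k, r k = 1) :
    ∑ k : I → K, (∏ i, r (k i)) * Real.log (∏ i, r (k i)) =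
      - (Fintype.card I * ∑ k, Real.negMulLog (r k)) := by
  have h1 : ∀ k : I → K, (∏ i, r (k i)) * Real.log (∏ i, r (k i)) =
      ∑ i, (∏ i, r (k i)) * Real.log (r (k i)) := by
    intro k
    by_cases h : ∃ i, r (k i) = 0
    · obtain ⟨i, hi⟩ := h
      rw [Finset.prod_eq_zero (Finset.mem_univ i) hi]
      simp
    · push Not at h
      rw [Real.log_prod (fun i _ => h i), Finset.mul_sum]
  simp only [h1]
  rw [Finset.sum_comm]
  have h2 : ∀ i : I, ∑ k : I → K, (∏ i, r (k i)) * Real.log (r (k i)) =
      - ∑ k, Real.negMulLog (r k) := by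
    intro i
    have h3 : ∑ k : I → K, (∏ i, r (k i)) * Real.log (r (k i)) =
        (pw I (diagonal r) * loc i (diagonal (fun k => Real.log (r k)))).trace := by
      unfold pw
      rw [tens_diagonal, loc_diagonal, diagonal_mul_diagonal, trace_diagonal]
    rw [h3, trace_pw_loc (by rw [trace_diagonal, hr1]), diagonal_mul_diagonal, trace_diagonal,
      ← Finset.sum_neg_distrib]
    refine Finset.sum_congr rfl fun k _ => ?_
    simp [Real.negMulLog]
  rw [Finset.sum_congr rfl fun i _ => h2 i, Finset.sum_const, Finset.card_univ, nsmul_eq_mul]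
  ring

end gen

end Pool.Agent.W761.HF
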