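import Mathlib

/-!
# The interchange process on a finite set, weighted by `2 ^ (number of cycles)`
-/

set_option autoImplicit false

open Finset BigOperators

namespace Pool.Agent.W761.Interchange

variable {Λ : Type} [Fintype Λ] [DecidableEq Λ]

/-- The generator of the interchange process on `Λ`: for each unordered pair `{x, y}` of distinct
points the current permutation is composed with the transposition `(x y)` at rate `r x y`
(`r` is symmetric; the sum is over ordered pairs, whence the factor `1 / 2`, and the diagonal terms
vanish). -/
noncomputable def generator (r : Λ → Λ → ℝ) : Matrix (Equiv.Perm Λ) (Equiv.Perm Λ) ℝ :=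
  fun π π' => (1 / 2) * ∑ x, ∑ y, r x y *
    ((if π' = Equiv.swap x y * π then 1 else 0) - (if π' = π then 1 else 0))

/-- The law at time `t` of the interchange process started from the identity. -/
noncomputable def law (r : Λ → Λ → ℝ) (t : ℝ) (π : Equiv.Perm Λ) : ℝ :=
  NormedSpace.exp (t • generator r) 1 π

/-- The number of cycles (the fixed points included). -/
noncomputable def numCycles (π : Equiv.Perm Λ) : ℕ :=
  Nat.card (Quotient (Equiv.Perm.SameCycle.setoid π))

/-- The length of the cycle through `x`. -/
noncomputable def cycleLength (π : Equiv.Perm Λ) (x : Λ) : ℕ := {y | π.SameCycle x y}.ncard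

/-- `E[2 ^ N F] / E[2 ^ N]` for the interchange process at time `t`. -/
noncomputable def wexp (r : Λ → Λ → ℝ) (t : ℝ) (F : Equiv.Perm Λ → ℝ) : ℝ :=
  (∑ π, law r t π * 2 ^ numCycles π * F π) / ∑ π, law r t π * 2 ^ numCycles π

end Pool.Agent.W761.Interchange
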