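import Pool.Agent.W761.HF.InterB

/-!
# Choice of the parameters
-/

set_option autoImplicit false

open Finset BigOperators

set_option linter.unusedSectionVars false
set_option linter.unusedSimpArgs false

namespace Pool.Agent.W761.HF

open Pool.Agent.H11R2.BEC (Cd)
open Pool.Agent.H11R2.BEC.Ker (one_sub_le two_rpow_lt_one)

theorem params (d : ℕ) {ε : ℝ} (hε : 0 < ε) (hε1 : ε ≤ 1) :
    ∃ σ₀ : ℝ, 0 < σ₀ ∧ ∃ K : ℝ, 1 ≤ K ∧ ∀ σ : ℝ, 0 < σ → σ ≤ σ₀ → 3 / 4 ≤ (2 : ℝ) ^ (-σ) ∧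
      ∀ L : ℝ, 0 ≤ L → ∃ m : ℕ, ∀ b1 : ℝ, K * (1 + L) ^ ε ≤ b1 →
        Real.log 2 / (b1 * ((2 : ℝ) ^ (-σ)) ^ (2 * m)) + 16 * d * (1 + Cd d) * (1 - (2 : ℝ) ^ (-σ)) +
          28 * (4 + 4 / b1 + L) * (8 / 9) ^ m ≤ 3 * ε / 8 := by
  set D : ℝ := 16 * d * (1 + Cd d) with hD
  have hD0 : 0 ≤ D := by
    have : 0 ≤ Cd d := by unfold Cd; positivity
    positivity
  set l2 := Real.log 2 with hl2
  set l9 := Real.log (9 / 8) with hl9
  have hl2p : 0 < l2 := Real.log_pos (by norm_num)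
  have hl9p : 0 < l9 := Real.log_pos (by norm_num)
  have hl2u : l2 ≤ 1 := by
    have := Real.log_two_lt_d9
    rw [hl2]; linarith
  set σ₀ : ℝ := min (1 / 4) (min (ε / (8 * (D + 1))) (ε * l9 / (2 * l2))) with hσ₀
  set A : ℝ := 1792 / ε with hA
  have hA1 : 1 ≤ A := by
    rw [hA, le_div_iff₀ hε]; linarith
  have hAε : 1 ≤ A ^ ε := Real.one_le_rpow hA1 hε.le
  refine ⟨σ₀, by positivity, 16 * A ^ ε / ε, ?_, ?_⟩
  · rw [le_div_iff₀ hε]; linarith
  intro σ hσ hσ1
  have hs1 : σ ≤ 1 / 4 := hσ1.trans (min_le_left _ _)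
  have hs2 : σ ≤ ε / (8 * (D + 1)) := hσ1.trans ((min_le_right _ _).trans (min_le_left _ _))
  have hs3 : σ ≤ ε * l9 / (2 * l2) := hσ1.trans ((min_le_right _ _).trans (min_le_right _ _))
  have hq1 := one_sub_le hσ
  have hq2 := two_rpow_lt_one hσ
  have hq0 : 0 < (2 : ℝ) ^ (-σ) := by positivity
  refine ⟨by linarith, ?_⟩
  intro L hL
  set X : ℝ := A * (1 + L) with hX
  have hX1 : 1 ≤ X := by
    rw [hX]; nlinarith
  have hlX : 0 ≤ Real.log X := Real.log_nonneg hX1
  refine ⟨⌈Real.log X / l9⌉₊, fun b1 hb => ?_⟩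
  set m : ℕ := ⌈Real.log X / l9⌉₊ with hm
  have hm1 : Real.log X / l9 ≤ m := Nat.le_ceil _
  have hm2 : (m : ℝ) < Real.log X / l9 + 1 := Nat.ceil_lt_add_one (by positivity)
  have hLε : 1 ≤ (1 + L) ^ ε := Real.one_le_rpow (by linarith) hε.le
  have hb1 : 1 ≤ b1 := by
    refine le_trans ?_ hb
    have : 1 ≤ 16 * A ^ ε / ε := by rw [le_div_iff₀ hε]; linarith
    nlinarith
  -- the last term
  have h3 : 28 * (4 + 4 / b1 + L) * (8 / 9 : ℝ) ^ m ≤ ε / 8 := by
    have h4 : (8 / 9 : ℝ) ^ m ≤ 1 / X := by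
      have h5 : X ≤ (9 / 8 : ℝ) ^ m := by
        have h6 : Real.log X ≤ m * l9 := by
          rw [div_le_iff₀ hl9p] at hm1; exact hm1
        rw [← Real.exp_log (show 0 < X by linarith), ← Real.rpow_natCast,
          Real.rpow_def_of_pos (by norm_num)]
        apply Real.exp_le_exp.2
        rw [← hl9]; linarith
      have h6 : (8 / 9 : ℝ) ^ m = 1 / (9 / 8) ^ m := by
        rw [← one_div_pow]; norm_num
      rw [h6]
      exact one_div_le_one_div_of_le (by linarith) h5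
    have h5 : 4 + 4 / b1 + L ≤ 8 * (1 + L) := by
      have : 4 / b1 ≤ 4 := by rw [div_le_iff₀ (by linarith)]; linarith
      linarith
    calc 28 * (4 + 4 / b1 + L) * (8 / 9 : ℝ) ^ m ≤ 28 * (8 * (1 + L)) * (1 / X) := by
          apply mul_le_mul (by linarith) h4 (by positivity) (by positivity)
      _ = ε / 8 := by
          rw [hX, hA]
          have : (1 + L) ≠ 0 := by linarith
          field_simp
          norm_num
  have h2 : D * (1 - (2 : ℝ) ^ (-σ)) ≤ ε / 8 := by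
    have h4 : D * (1 - (2 : ℝ) ^ (-σ)) ≤ D * σ := mul_le_mul_of_nonneg_left (by linarith) hD0
    have h5 : D * σ ≤ D * (ε / (8 * (D + 1))) := mul_le_mul_of_nonneg_left hs2 hD0
    have h6 : D * (ε / (8 * (D + 1))) ≤ ε / 8 := by
      rw [mul_div_assoc', div_le_div_iff₀ (by positivity) (by norm_num)]
      nlinarith
    linarith
  have h1 : l2 / (b1 * ((2 : ℝ) ^ (-σ)) ^ (2 * m)) ≤ ε / 8 := by
    have h4 : ((2 : ℝ) ^ (-σ)) ^ (2 * m) = Real.exp (-(σ * l2 * (2 * m))) := by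
      rw [← Real.rpow_natCast, ← Real.rpow_mul (by norm_num), Real.rpow_def_of_pos (by norm_num), ← hl2]
      congr 1
      push_cast
      ring
    have h5 : σ * l2 * (2 * m) ≤ l2 + ε * Real.log X := by
      have h6 : σ * l2 * (2 * m) ≤ σ * l2 * (2 * (Real.log X / l9 + 1)) := by
        apply mul_le_mul_of_nonneg_left _ (by positivity)
        linarith
      have h7 : σ * l2 * (2 * (Real.log X / l9)) ≤ ε * Real.log X := by
        rw [le_div_iff₀ (by positivity)] at hs3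
        have h8 : σ * l2 * (2 * (Real.log X / l9)) = (σ * (2 * l2)) * (Real.log X / l9) := by ring
        rw [h8]
        calc (σ * (2 * l2)) * (Real.log X / l9) ≤ (ε * l9) * (Real.log X / l9) :=
              mul_le_mul_of_nonneg_right hs3 (by positivity)
          _ = ε * Real.log X := by field_simp
      have h9 : σ * l2 * 2 ≤ l2 := by nlinarith
      linarith
    have h6 : 1 / ((2 : ℝ) ^ (-σ)) ^ (2 * m) ≤ 2 * (A ^ ε * (1 + L) ^ ε) := by
      rw [h4, one_div, ← Real.exp_neg, neg_neg]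
      calc Real.exp (σ * l2 * (2 * m)) ≤ Real.exp (l2 + ε * Real.log X) := Real.exp_le_exp.2 h5
        _ = 2 * X ^ ε := by
            rw [Real.exp_add, hl2, Real.exp_log (by norm_num), Real.rpow_def_of_pos (by linarith)]
            congr 2
            ring
        _ = 2 * (A ^ ε * (1 + L) ^ ε) := by
            rw [hX, Real.mul_rpow (by linarith) (by linarith)]
    have hP : 0 < ((2 : ℝ) ^ (-σ)) ^ (2 * m) := by positivity
    have h7 : l2 / (b1 * ((2 : ℝ) ^ (-σ)) ^ (2 * m)) = l2 / b1 * (1 / ((2 : ℝ) ^ (-σ)) ^ (2 * m)) := by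
      field_simp
    rw [h7]
    have hAp : 0 < A ^ ε * (1 + L) ^ ε := by positivity
    calc l2 / b1 * (1 / ((2 : ℝ) ^ (-σ)) ^ (2 * m)) ≤ 1 / b1 * (2 * (A ^ ε * (1 + L) ^ ε)) := by
          apply mul_le_mul (div_le_div_of_nonneg_right hl2u (by linarith)) h6 (by positivity) (by positivity)
      _ ≤ ε / 8 := by
          rw [div_mul_eq_mul_div, one_mul, div_le_div_iff₀ (by linarith) (by norm_num)]
          have h8 : 16 * A ^ ε * (1 + L) ^ ε ≤ ε * b1 := by
            have h9 := mul_le_mul_of_nonneg_left hb hε.le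
            have h10 : ε * (16 * A ^ ε / ε * (1 + L) ^ ε) = 16 * A ^ ε * (1 + L) ^ ε := by
              field_simp
            linarith
          linarith
  linarith

end Pool.Agent.W761.HF
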