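import Pool.Agent.W761.HF.Marg

/-!
# The variational inequality for blocks
-/

set_option autoImplicit false

open Finset BigOperators Matrix

set_option linter.unusedSectionVars false
set_option linter.unusedSimpArgs false

namespace Pool.Agent.W761.HF

/-- the Gibbs state -/
noncomputable def gs {n : Type} [Fintype n] [DecidableEq n] (U : Matrix n n ℝ) (h : n → ℝ) :
    Matrix n n ℝ := U * diagonal (fun i => Real.exp (h i) / ∑ i, Real.exp (h i)) * Uᵀ

section
variable {n : Type} [Fintype n] [DecidableEq n] {U : Matrix n n ℝ} {h : n → ℝ}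

theorem gs_pos : Pos (gs U h) :=
  pos_diag fun _ => div_nonneg (Real.exp_pos _).le (Finset.sum_nonneg fun _ _ => (Real.exp_pos _).le)

theorem gs_tr [Nonempty n] (hU : Orth U) : (gs U h).trace = 1 := by
  unfold gs
  rw [trace_diag hU, ← Finset.sum_div, div_self]
  exact (Finset.sum_pos (fun i _ => Real.exp_pos _) Finset.univ_nonempty).ne'

theorem gs_comm (hU : Orth U) {B : Matrix n n ℝ}
    (hB : B * (U * diagonal h * Uᵀ) = (U * diagonal h * Uᵀ) * B) : B * gs U h = gs U h * B :=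
  fc_comm hU hB (fun t => Real.exp t / ∑ i, Real.exp (h i))

theorem gs_cj (hU : Orth U) {e : n ≃ n}
    (hB : cj e (U * diagonal h * Uᵀ) = U * diagonal h * Uᵀ) : cj e (gs U h) = gs U h :=
  fc_cj hU hB (fun t => Real.exp t / ∑ i, Real.exp (h i))

theorem gs_energy (hU : Orth U) : (gs U h * (U * diagonal h * Uᵀ)).trace =
    ∑ i, (Real.exp (h i) / ∑ i, Real.exp (h i)) * h i := by
  unfold gs
  have : U * diagonal (fun i => Real.exp (h i) / ∑ i, Real.exp (h i)) * Uᵀ * (U * diagonal h * Uᵀ) =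
      U * diagonal (fun i => (Real.exp (h i) / ∑ i, Real.exp (h i)) * h i) * Uᵀ := by
    calc _ = U * (diagonal (fun i => Real.exp (h i) / ∑ i, Real.exp (h i)) * (Uᵀ * U) * diagonal h) * Uᵀ := by
          simp only [Matrix.mul_assoc]
      _ = _ := by rw [hU.2, Matrix.mul_one, diagonal_mul_diagonal]
  rw [this, trace_diag hU]

end

variable {I Q : Type} [Fintype I] [DecidableEq I] [Fintype Q] [DecidableEq Q]

/-- one site operators in the block picture -/
def sl (a : I × Q) (A : Matrix Bool Bool ℝ) : Matrix (I → Q → Bool) (I → Q → Bool) ℝ :=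
  loc a.1 (loc a.2 A)

/-- spin products in the block picture -/
noncomputable def dotT (a a' : I × Q) : Matrix (I → Q → Bool) (I → Q → Bool) ℝ :=
  (1 / 2 : ℝ) • (sl a pM * sl a' mM + sl a mM * sl a' pM) + sl a zM * sl a' zM

theorem sl_neg (a : I × Q) (A : Matrix Bool Bool ℝ) : sl a (-A) = - sl a A := by
  unfold sl; rw [loc_neg, loc_neg]

theorem sl_smul (a : I × Q) (c : ℝ) (A : Matrix Bool Bool ℝ) : sl a (c • A) = c • sl a A := by
  unfold sl; rw [loc_smul, loc_smul]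

theorem sl_zero (a : I × Q) : sl a (0 : Matrix Bool Bool ℝ) = 0 := by
  unfold sl; rw [loc_zero, loc_zero]

theorem dotT_same (i : I) (q q' : Q) : dotT (i, q) (i, q') = loc i (dot q q') := by
  unfold dotT sl dot
  simp only [loc_mul, loc_add, loc_smul]

theorem cm_sl (B : Matrix Bool Bool ℝ) (a : I × Q) (A : Matrix Bool Bool ℝ) :
    cm (tot I (tot Q B)) (sl a A) = sl a (cm B A) := by
  unfold sl; rw [cm_tot, cm_tot]

theorem cm_P_dotT (x y : I × Q) : cm (tot I (tot Q pM)) (dotT x y) = 0 := by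
  unfold dotT
  simp only [cm_add, cm_smul, cm_mul, cm_sl, cm_pM_pM, cm_pM_mM, cm_pM_zM, sl_zero, sl_smul,
    sl_neg, Matrix.zero_mul, Matrix.mul_zero, Matrix.smul_mul, Matrix.mul_smul, Matrix.neg_mul,
    Matrix.mul_neg]
  module

theorem cm_M_dotT (x y : I × Q) : cm (tot I (tot Q mM)) (dotT x y) = 0 := by
  unfold dotT
  simp only [cm_add, cm_smul, cm_mul, cm_sl, cm_mM_mM, cm_mM_pM, cm_mM_zM, sl_zero, sl_smul,
    sl_neg, Matrix.zero_mul, Matrix.mul_zero, Matrix.smul_mul, Matrix.mul_smul, Matrix.neg_mul,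
    Matrix.mul_neg]
  module

theorem cj_permE_dotT (π : Equiv.Perm I) (x y : I × Q) :
    cj (permE (Q → Bool) π) (dotT x y) = dotT (π x.1, x.2) (π y.1, y.2) := by
  unfold dotT sl
  simp only [cj_add, cj_smul, cj_mul, cj_permE_loc]

theorem cj_fl_dotT (x y : I × Q) : cj (allE I (fl Q)) (dotT x y) = dotT x y := by
  unfold dotT sl
  simp only [cj_add, cj_smul, cj_mul, cj_allE_loc, cj_fl_loc, fl_pM, fl_mM, fl_zM, loc_neg,
    Matrix.neg_mul, Matrix.mul_neg, neg_neg]
  rw [add_comm (loc x.1 (loc x.2 mM) * loc y.1 (loc y.2 pM))]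

/-- the Hamiltonian (with the sign of `-H`) -/
noncomputable def HT (Wt : I × Q → I × Q → ℝ) : Matrix (I → Q → Bool) (I → Q → Bool) ℝ :=
  ∑ a, ∑ a', Wt a a' • dotT a a'

theorem HT_comm (Wt : I × Q → I × Q → ℝ) (B : Matrix (I → Q → Bool) (I → Q → Bool) ℝ)
    (h : ∀ x y : I × Q, cm B (dotT x y) = 0) : B * HT Wt = HT Wt * B := by
  rw [← cm_zero_iff]
  unfold HT
  simp only [cm_sum, cm_smul, h, smul_zero, Finset.sum_const_zero]

theorem HT_perm (Wt : I × Q → I × Q → ℝ) (π : Equiv.Perm I)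
    (hW : ∀ a a' : I × Q, Wt (π a.1, a.2) (π a'.1, a'.2) = Wt a a') :
    cj (permE (Q → Bool) π) (HT Wt) = HT Wt := by
  unfold HT
  simp only [cj_sum, cj_smul, cj_permE_dotT]
  let F : I × Q ≃ I × Q := Equiv.prodCongr π (Equiv.refl Q)
  conv_rhs => rw [← Equiv.sum_comp F]
  refine Finset.sum_congr rfl fun a _ => ?_
  conv_rhs => rw [← Equiv.sum_comp F]
  refine Finset.sum_congr rfl fun a' _ => ?_
  rw [← hW a a']
  rfl

theorem HT_fl (Wt : I × Q → I × Q → ℝ) : cj (allE I (fl Q)) (HT Wt) = HT Wt := by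
  unfold HT
  simp only [cj_sum, cj_smul, cj_fl_dotT]

theorem HT_trace (Wt : I × Q → I × Q → ℝ) (ρ : Matrix (I → Q → Bool) (I → Q → Bool) ℝ) :
    (ρ * HT Wt).trace = ∑ a, ∑ a', Wt a a' * (ρ * dotT a a').trace := by
  unfold HT
  rw [Finset.mul_sum, trace_sum]
  refine Finset.sum_congr rfl fun a _ => ?_
  rw [Finset.mul_sum, trace_sum]
  refine Finset.sum_congr rfl fun a' _ => ?_
  rw [Matrix.mul_smul, trace_smul, smul_eq_mul]

theorem AdState.trial {M : ℝ} {σ W : Matrix (Q → Bool) (Q → Bool) ℝ} {r : (Q → Bool) → ℝ}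
    (h : AdState M σ W r) (a a' : I × Q) : (pw I σ * dotT a a').trace =
      if a.1 = a'.1 then gam σ a.2 a'.2 else mag σ a.2 * mag σ a'.2 := by
  obtain ⟨i, q⟩ := a
  obtain ⟨i', q'⟩ := a'
  simp only
  split_ifs with h1
  · subst h1
    rw [dotT_same, trace_pw_loc h.tr]
    rfl
  · unfold dotT sl
    rw [Matrix.mul_add, trace_add, Matrix.mul_smul, trace_smul, Matrix.mul_add, trace_add,
      trace_pw_loc_loc h.tr h1, trace_pw_loc_loc h.tr h1, trace_pw_loc_loc h.tr h1]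
    unfold mag
    simp [h.tr_p, h.tr_m]

/-- data of a trial state -/
structure Trial (M : ℝ) (Γ : Q → Q → ℝ) (m : Q → ℝ) : Prop where
  hM0 : 0 ≤ M
  hM1 : M ≤ 1 / 2
  ext : ∀ α : Q → ℝ, (∑ q, α q * m q) ^ 2 ≤ ∑ q, ∑ q', α q * α q' * Γ q q'
  comm : ∀ q q', Γ q q' = Γ q' q
  le : ∀ q q', Γ q q' ≤ 3 / 4
  msq : ∀ q, m q ^ 2 ≤ 1 / 4
  msum : ∑ q, m q = Fintype.card Q * M
  gsum : ∑ q, ∑ q', Γ q q' = (Fintype.card Q * M) ^ 2 + Fintype.card Q * M

theorem qp [Nonempty I] [Nonempty Q] {Wt : I × Q → I × Q → ℝ}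
    (hW : ∀ i i' : I, ∃ π : Equiv.Perm I, π i = i' ∧
      ∀ a a' : I × Q, Wt (π a.1, a.2) (π a'.1, a'.2) = Wt a a')
    {U : Matrix (I → Q → Bool) (I → Q → Bool) ℝ} {h : (I → Q → Bool) → ℝ} (hU : Orth U)
    (hH : HT Wt = U * diagonal h * Uᵀ) :
    ∃ (s : Finset ℕ) (p M : ℕ → ℝ) (Γ : ℕ → Q → Q → ℝ) (m : ℕ → Q → ℝ),
      (∀ n ∈ s, 0 < p n ∧ Trial (M n) (Γ n) (m n)) ∧ ∑ n ∈ s, p n = 1 ∧
      (∀ (i : I) (q q' : Q), ∑ n ∈ s, p n * Γ n q q' = (gs U h * dotT (i, q) (i, q')).trace) ∧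
      ∑ n ∈ s, p n * ∑ a : I × Q, ∑ a' : I × Q,
        Wt a a' * (if a.1 = a'.1 then Γ n a.2 a'.2 else m n a.2 * m n a'.2) ≤
      ∑ a : I × Q, ∑ a' : I × Q, Wt a a' * (gs U h * dotT a a').trace +
        2 * Fintype.card I * Real.log (Fintype.card Q + 1) := by
  classical
  set ρ := gs U h with hρ
  have hpos : Pos ρ := gs_pos
  have htr : ρ.trace = 1 := gs_tr hU
  have hcP : tot I (tot Q pM) * ρ = ρ * tot I (tot Q pM) :=
    gs_comm hU (by rw [← hH]; exact HT_comm Wt _ cm_P_dotT)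
  have hcM : tot I (tot Q mM) * ρ = ρ * tot I (tot Q mM) :=
    gs_comm hU (by rw [← hH]; exact HT_comm Wt _ cm_M_dotT)
  have hfl : cj (allE I (fl Q)) ρ = ρ := gs_cj hU (by rw [← hH]; exact HT_fl Wt)
  obtain ⟨i₀⟩ := ‹Nonempty I›
  set R := marg i₀ ρ with hRdef
  have hRi : ∀ i, marg i ρ = R := by
    intro i
    obtain ⟨π, h1, h2⟩ := hW i₀ i
    exact marg_perm π h1 (gs_cj hU (by rw [← hH]; exact HT_perm Wt π h2))
  have hR : Pos R := marg_pos i₀ hpos
  have hRtr : R.trace = 1 := marg_tr i₀ htr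
  have hinv : Inv R := ⟨marg_comm i₀ _ hcP, marg_comm i₀ _ hcM⟩
  have hRfl : cj (fl Q) R = R := marg_fl i₀ (fl Q) (by intro f; funext x; simp [fl]) hfl
  obtain ⟨V, e, hV, hd⟩ := exists_diag R hR.1
  have hp0 : ∀ k, 0 < Real.exp (h k) / ∑ i, Real.exp (h i) := fun k =>
    div_pos (Real.exp_pos _) (Finset.sum_pos (fun i _ => Real.exp_pos _) Finset.univ_nonempty)
  have he : ∀ k, 0 < e k := marg_eig_pos i₀ hU hp0 hρ hV hd
  have he1 : ∑ k, e k = 1 := by rw [← hRtr, hd, trace_diag hV]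
  obtain ⟨s, p, M, σ, W, r, h1, h2, h3, h4⟩ := adapted hR hRtr hinv hRfl hV hd
  refine ⟨s, p, M, fun n => gam (σ n), fun n => mag (σ n), ?_, h2, ?_, ?_⟩
  · intro n hn
    obtain ⟨h5, h6⟩ := h1 n hn
    exact ⟨h5, h6.hM0, h6.hM1, psd_ext h6.hpos h6.tr, gam_comm _, gam_le' h6.hpos h6.tr,
      mag_sq_le h6.hpos h6.tr, h6.mag_sum, h6.gam_sum⟩
  · intro i q q'
    rw [dotT_same, ← marg_trace, hRi i]
    exact h3 (dot q q') (inv_dot q q') (cj_fl_dot q q')
  · have hup := gibbs_upper hU (orth_tens (I := I) hV) h (fun k : I → Q → Bool => ∏ i, e (k i))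
      (fun k => Finset.prod_pos fun i _ => he _) (by
        have := Finset.prod_univ_sum (fun _ : I => (univ : Finset (Q → Bool))) (fun _ k => e k)
        rw [Fintype.piFinset_univ] at this
        rw [← this]; simp [he1])
    have hup2 := upper_entropy (I := I) (ρ := ρ) hV he (fun i => by rw [hRi i, hd])
    have hup3 : ∑ k : I → Q → Bool, ((tens (fun _ : I => V))ᵀ *
        (U * diagonal (fun i => Real.exp (h i) / ∑ i, Real.exp (h i)) * Uᵀ) *
        tens (fun _ : I => V)) k k * Real.log (∏ i, e (k i)) =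
        - (Fintype.card I * ∑ k, Real.negMulLog (e k)) := hup2
    rw [hup3, ← gs_energy hU, ← hH, HT_trace] at hup
    have hlow : ∀ n ∈ s, ∑ a : I × Q, ∑ a' : I × Q, Wt a a' *
        (if a.1 = a'.1 then gam (σ n) a.2 a'.2 else mag (σ n) a.2 * mag (σ n) a'.2) +
        Fintype.card I * ∑ k, Real.negMulLog (r n k) ≤ Real.log (∑ i, Real.exp (h i)) := by
      intro n hn
      obtain ⟨h5, h6⟩ := h1 n hn
      have h7 := gibbs_lower hU (orth_tens (I := I) h6.hW) h (fun k : I → Q → Bool => ∏ i, r n (k i))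
        (fun k => Finset.prod_nonneg fun i _ => h6.hr _) (by
          have := Finset.prod_univ_sum (fun _ : I => (univ : Finset (Q → Bool))) (fun _ k => r n k)
          rw [Fintype.piFinset_univ] at this
          rw [← this]; simp [h6.hr1])
      rw [lower_entropy h6.hr1] at h7
      have h8 : ∑ k : I → Q → Bool, (∏ i, r n (k i)) * ((tens (fun _ : I => W n))ᵀ *
          (U * diagonal h * Uᵀ) * tens (fun _ : I => W n)) k k =
          ∑ a : I × Q, ∑ a' : I × Q, Wt a a' *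
          (if a.1 = a'.1 then gam (σ n) a.2 a'.2 else mag (σ n) a.2 * mag (σ n) a'.2) := by
        have h9 : (pw I (σ n) * HT Wt).trace = ∑ a : I × Q, ∑ a' : I × Q, Wt a a' *
            (if a.1 = a'.1 then gam (σ n) a.2 a'.2 else mag (σ n) a.2 * mag (σ n) a'.2) := by
          rw [HT_trace]
          simp only [h6.trial]
        rw [← h9, h6.hdiag, pw_eq, ← hH]
        set T := tens (fun _ : I => W n) with hT
        calc ∑ k : I → Q → Bool, (∏ i, r n (k i)) * (Tᵀ * HT Wt * T) k k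
            = (diagonal (fun k : I → Q → Bool => ∏ i, r n (k i)) * (Tᵀ * HT Wt * T)).trace := by
              rw [Matrix.trace]
              refine Finset.sum_congr rfl fun k _ => ?_
              rw [Matrix.diag_apply, diagonal_mul]
          _ = ((diagonal (fun k : I → Q → Bool => ∏ i, r n (k i)) * Tᵀ * HT Wt) * T).trace := by
              simp only [Matrix.mul_assoc]
          _ = (T * (diagonal (fun k : I → Q → Bool => ∏ i, r n (k i)) * Tᵀ * HT Wt)).trace :=
              trace_mul_comm _ _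
          _ = _ := by simp only [Matrix.mul_assoc]
      rw [h8] at h7
      linarith
    have hsum : ∑ n ∈ s, p n * (∑ a : I × Q, ∑ a' : I × Q, Wt a a' *
        (if a.1 = a'.1 then gam (σ n) a.2 a'.2 else mag (σ n) a.2 * mag (σ n) a'.2) +
        Fintype.card I * ∑ k, Real.negMulLog (r n k)) ≤ Real.log (∑ i, Real.exp (h i)) := by
      calc _ ≤ ∑ n ∈ s, p n * Real.log (∑ i, Real.exp (h i)) :=
            Finset.sum_le_sum fun n hn => mul_le_mul_of_nonneg_left (hlow n hn) (h1 n hn).1.le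
        _ = _ := by rw [← Finset.sum_mul, h2, one_mul]
    simp only [mul_add, Finset.sum_add_distrib] at hsum
    have hI : (0 : ℝ) ≤ Fintype.card I := Nat.cast_nonneg _
    have h10 : ∑ n ∈ s, p n * ((Fintype.card I : ℝ) * ∑ k, Real.negMulLog (r n k)) =
        Fintype.card I * ∑ n ∈ s, p n * ∑ k, Real.negMulLog (r n k) := by
      rw [Finset.mul_sum]; exact Finset.sum_congr rfl fun n _ => by ring
    rw [h10] at hsum
    have h11 := mul_le_mul_of_nonneg_left h4 hI
    rw [← hρ] at hup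
    have h12 : (Fintype.card I : ℝ) * (∑ n ∈ s, p n * ∑ k, Real.negMulLog (r n k) +
        2 * Real.log (Fintype.card Q + 1)) = Fintype.card I * ∑ n ∈ s, p n * ∑ k, Real.negMulLog (r n k) +
        2 * Fintype.card I * Real.log (Fintype.card Q + 1) := by ring
    rw [h12] at h11
    linarith

end Pool.Agent.W761.HF
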