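import Pool.Agent.W761.HF.QP

/-!
# The variational inequality, transported to a lattice divided into blocks
-/

set_option autoImplicit false

open Finset BigOperators Matrix

set_option linter.unusedSectionVars false
set_option linter.unusedSimpArgs false

namespace Pool.Agent.W761.HF

variable {Λ I Q : Type} [Fintype Λ] [DecidableEq Λ] [Fintype I] [DecidableEq I] [Fintype Q]
  [DecidableEq Q]

/-- configurations of the lattice from configurations of the blocks -/
def cfE (e : Λ ≃ I × Q) : (I → Q → Bool) ≃ (Λ → Bool) where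
  toFun f := fun x => f (e x).1 (e x).2
  invFun g := fun i q => g (e.symm (i, q))
  left_inv f := by funext i q; simp
  right_inv g := by funext x; simp

theorem one_entry (f g : Q → Bool) : (1 : Matrix (Q → Bool) (Q → Bool) ℝ) f g =
    ∏ q, (1 : Matrix Bool Bool ℝ) (f q) (g q) := by
  rw [← tens_one]; rfl

theorem loc_sub_cfE (e : Λ ≃ I × Q) (x : Λ) (A : Matrix Bool Bool ℝ) :
    (loc x A).submatrix (cfE e) (cfE e) = sl (e x) A := by
  funext f g
  show ∏ y : Λ, (if y = x then A else 1) (f (e y).1 (e y).2) (g (e y).1 (e y).2) =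
    ∏ i, (if i = (e x).1 then loc (e x).2 A else 1) (f i) (g i)
  rw [← Equiv.prod_comp e.symm, Fintype.prod_prod_type]
  refine Finset.prod_congr rfl fun i _ => ?_
  by_cases h : i = (e x).1
  · rw [if_pos h]
    show _ = ∏ q, (if q = (e x).2 then A else 1) (f i q) (g i q)
    refine Finset.prod_congr rfl fun q _ => ?_
    rw [Equiv.apply_symm_apply]
    by_cases h2 : q = (e x).2
    · rw [if_pos h2, if_pos]
      rw [h, h2]; exact e.symm_apply_apply x
    · rw [if_neg h2, if_neg]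
      intro h3; apply h2; rw [← h3, Equiv.apply_symm_apply]
  · rw [if_neg h, one_entry]
    refine Finset.prod_congr rfl fun q _ => ?_
    rw [Equiv.apply_symm_apply, if_neg]
    intro h3; apply h; rw [← h3, Equiv.apply_symm_apply]

theorem sub_mul' {m n : Type} [Fintype m] [Fintype n] (e : m ≃ n) (A B : Matrix n n ℝ) :
    (A * B).submatrix e e = A.submatrix e e * B.submatrix e e :=
  (submatrix_mul_equiv A B e e e).symm

theorem sub_trace {m n : Type} [Fintype m] [Fintype n] (e : m ≃ n) (A : Matrix n n ℝ) :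
    (A.submatrix e e).trace = A.trace := Equiv.sum_comp e (fun i => A.diag i)

theorem dot_sub_cfE (e : Λ ≃ I × Q) (x y : Λ) :
    (dot x y).submatrix (cfE e) (cfE e) = dotT (e x) (e y) := by
  unfold dot dotT
  rw [submatrix_add, submatrix_smul, submatrix_add]
  simp only [Pi.add_apply, Pi.smul_apply, sub_mul', loc_sub_cfE]

/-- the Hamiltonian (with the sign of `-H`) -/
noncomputable def HL (W : Λ → Λ → ℝ) : Matrix (Λ → Bool) (Λ → Bool) ℝ :=
  ∑ x, ∑ y, W x y • dot x y

theorem HL_sub (e : Λ ≃ I × Q) (W : Λ → Λ → ℝ) : (HL W).submatrix (cfE e) (cfE e) =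
    HT (fun a a' => W (e.symm a) (e.symm a')) := by
  unfold HL HT
  rw [← Equiv.sum_comp e.symm]
  funext f g
  rw [submatrix_apply, Matrix.sum_apply, Matrix.sum_apply]
  refine Finset.sum_congr rfl fun a _ => ?_
  rw [← Equiv.sum_comp e.symm, Matrix.sum_apply, Matrix.sum_apply]
  refine Finset.sum_congr rfl fun a' _ => ?_
  rw [Matrix.smul_apply, Matrix.smul_apply]
  congr 1
  have := dot_sub_cfE e (e.symm a) (e.symm a')
  rw [Equiv.apply_symm_apply, Equiv.apply_symm_apply] at this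
  rw [← this]
  rfl

theorem HL_trace (W : Λ → Λ → ℝ) (ρ : Matrix (Λ → Bool) (Λ → Bool) ℝ) :
    (ρ * HL W).trace = ∑ a, ∑ a', W a a' * gam ρ a a' := by
  unfold HL gam
  rw [Finset.mul_sum, trace_sum]
  refine Finset.sum_congr rfl fun a _ => ?_
  rw [Finset.mul_sum, trace_sum]
  refine Finset.sum_congr rfl fun a' _ => ?_
  rw [Matrix.mul_smul, trace_smul, smul_eq_mul]

theorem gs_sub {m n : Type} [Fintype m] [Fintype n] [DecidableEq m] [DecidableEq n] (e : m ≃ n)
    (U : Matrix n n ℝ) (h : n → ℝ) :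
    gs (U.submatrix e e) (fun i => h (e i)) = (gs U h).submatrix e e := by
  unfold gs
  rw [diag_submatrix]
  have : ∑ i, Real.exp (h (e i)) = ∑ i, Real.exp (h i) := Equiv.sum_comp e (fun i => Real.exp (h i))
  rw [this]

theorem gam_sub (e : Λ ≃ I × Q) (ρ : Matrix (Λ → Bool) (Λ → Bool) ℝ) (a a' : I × Q) :
    (ρ.submatrix (cfE e) (cfE e) * dotT a a').trace = gam ρ (e.symm a) (e.symm a') := by
  have := dot_sub_cfE e (e.symm a) (e.symm a')
  rw [Equiv.apply_symm_apply, Equiv.apply_symm_apply] at this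
  rw [← this, ← sub_mul', sub_trace]
  rfl

theorem qpL [Nonempty I] [Nonempty Q] (e : Λ ≃ I × Q) {W : Λ → Λ → ℝ}
    (hW : ∀ i i' : I, ∃ π : Equiv.Perm I, π i = i' ∧ ∀ a a' : I × Q,
      W (e.symm (π a.1, a.2)) (e.symm (π a'.1, a'.2)) = W (e.symm a) (e.symm a'))
    {U : Matrix (Λ → Bool) (Λ → Bool) ℝ} {h : (Λ → Bool) → ℝ} (hU : Orth U)
    (hH : HL W = U * diagonal h * Uᵀ) :
    ∃ (s : Finset ℕ) (p M : ℕ → ℝ) (Γ : ℕ → Q → Q → ℝ) (m : ℕ → Q → ℝ),
      (∀ n ∈ s, 0 < p n ∧ Trial (M n) (Γ n) (m n)) ∧ ∑ n ∈ s, p n = 1 ∧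
      (∀ (i : I) (q q' : Q), ∑ n ∈ s, p n * Γ n q q' = gam (gs U h) (e.symm (i, q)) (e.symm (i, q'))) ∧
      ∑ n ∈ s, p n * ∑ x, ∑ y, W x y *
        (if (e x).1 = (e y).1 then Γ n (e x).2 (e y).2 else m n (e x).2 * m n (e y).2) ≤
      ∑ x, ∑ y, W x y * gam (gs U h) x y +
        2 * Fintype.card I * Real.log (Fintype.card Q + 1) := by
  have hH' : HT (fun a a' => W (e.symm a) (e.symm a')) =
      (U.submatrix (cfE e) (cfE e)) * diagonal (fun i => h (cfE e i)) *
        (U.submatrix (cfE e) (cfE e))ᵀ := by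
    rw [← diag_submatrix, ← hH, HL_sub]
  obtain ⟨s, p, M, Γ, m, h1, h2, h3, h4⟩ := qp hW (orth_submatrix hU (cfE e)) hH'
  refine ⟨s, p, M, Γ, m, h1, h2, ?_, ?_⟩
  · intro i q q'
    rw [h3 i q q', gs_sub, gam_sub]
  · have e1 : ∀ F : Λ → Λ → ℝ, ∑ x, ∑ y, F x y = ∑ a, ∑ a', F (e.symm a) (e.symm a') := by
      intro F
      rw [← Equiv.sum_comp e.symm]
      refine Finset.sum_congr rfl fun a _ => ?_
      rw [← Equiv.sum_comp e.symm]
    simp only [e1, Equiv.apply_symm_apply]
    simp only [gs_sub, gam_sub] at h4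
    exact h4

end Pool.Agent.W761.HF
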