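import Pool.Agent.W761.HF.Final

/-!
# Macroscopic cycles in the `2^N`-weighted interchange process with weak long-range rates

On the torus `(ℤ / 2^J)^d` (`Torus d J`), the interchange process with rates `r x y` is the
continuous-time Markov chain on the permutations of the vertices, started from the identity, in
which for every unordered pair `{x, y}` the current permutation is composed with the transposition
`(x y)` at rate `r x y` (`generator`, `law`). `numCycles π` is the number of cycles of `π` (fixed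
points included), `cycleLength π x` the length of the cycle through `x`, and
`wexp r β F = E[2^N F] / E[2^N]` at time `β`.

`rate K J x y` is the sum of `K z` over the `z ∈ ℤ^d` congruent to `y - x` modulo `2^J`.

`magnetization r β = (1/2) inf_n liminf_J E[1_{c(0) > n} 2^N] / E[2^N]`: the formula of the problem,
with the tori of side `2^J` in place of the boxes (the limit in `n` is an infimum).

`supNorm` and `oneNorm` are the sup norm and the `ℓ^1` norm of `ℤ^d`.
-/

set_option autoImplicit false

open Finset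

namespace Pool.Agent.W761.HF.Result

open Pool.Agent.W761.Interchange
open Pool.Agent.H11R2.LatticeBose (Torus supNorm oneNorm)

/-- **Ordered phase at large `β` for the weighted interchange process, in every dimension, for
arbitrary finite-first-moment rates `R` plus an arbitrarily small multiple `lam` of a long-range
rate `T σ` of power-law decay `|z|^{-(d+σ)}`, `σ` small.** -/
theorem result (d : ℕ) (hd : 1 ≤ d) :
    ∃ T : ℝ → (Fin d → ℤ) → ℝ,
      (∀ σ : ℝ, 0 < σ → T σ 0 = 0 ∧ (∀ z, T σ (-z) = T σ z) ∧ HasSum (T σ) 1 ∧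
        ∃ c C : ℝ, 0 < c ∧ ∀ z : Fin d → ℤ, z ≠ 0 →
          c * (supNorm z : ℝ) ^ (-(d + σ)) ≤ T σ z ∧ T σ z ≤ C * (supNorm z : ℝ) ^ (-(d + σ))) ∧
      ∀ ε : ℝ, 0 < ε → ε ≤ 1 → ∃ σ₀ K : ℝ, 0 < σ₀ ∧ 0 < K ∧ ∀ σ : ℝ, 0 < σ → σ ≤ σ₀ →
        ∀ lam : ℝ, 0 < lam → ∀ R : (Fin d → ℤ) → ℝ, (∀ z, 0 ≤ R z) → (∀ z, R (-z) = R z) →
        R 0 = 0 → ∀ L : ℝ, HasSum (fun z => R z * oneNorm z) (lam * L) →
        ∃ J₀ : ℕ, ∀ β : ℝ, K * (1 + L) ^ ε ≤ β * lam →
          (∀ J ≥ J₀,
            1 / 3 - ε ≤ wexp (rate (fun z => lam * T σ z + R z) J) β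
              (fun π => (cycleLength π (0 : Torus d J) : ℝ) / 2 ^ (d * J)) ∧
            ∀ δ : ℝ, 0 ≤ δ → 1 / 3 - ε - δ ≤ wexp (rate (fun z => lam * T σ z + R z) J) β
              (fun π => if δ * 2 ^ (d * J) ≤ cycleLength π (0 : Torus d J) then 1 else 0)) ∧
          1 / 6 - ε ≤ magnetization (rate (fun z => lam * T σ z + R z)) β :=
  main_result d hd

end Pool.Agent.W761.HF.Result
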