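import Pool.Agent.W761.HF.Fc

/-!
# Highest weight projections in a block of spins
-/

set_option autoImplicit false

open Finset BigOperators Matrix

set_option linter.unusedSectionVars false
set_option linter.unusedSimpArgs false

namespace Pool.Agent.W761.HF

section
variable {I K : Type} [Fintype I] [DecidableEq I] [Fintype K] [DecidableEq K]

theorem loc_diagonal (i : I) (a : K → ℝ) :
    loc i (diagonal a) = diagonal (fun f : I → K => a (f i)) := by
  unfold loc
  have : (fun j => if j = i then diagonal a else (1 : Matrix K K ℝ)) =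
      fun j => diagonal (fun k => if j = i then a k else 1) := by
    funext j
    split_ifs
    · rfl
    · exact diagonal_one.symm
  rw [this, tens_diagonal]
  congr 1
  funext f
  rw [Finset.prod_ite_eq' univ i (fun j => a (f j)), if_pos (Finset.mem_univ i)]

end

variable {Q : Type} [Fintype Q] [DecidableEq Q]

/-- number of up spins -/
def cnt (f : Q → Bool) : ℕ := (univ.filter fun x => f x = true).card

theorem cnt_le (f : Q → Bool) : cnt f ≤ Fintype.card Q := Finset.card_filter_le _ _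

theorem tot_zM : tot Q zM = diagonal (fun f : Q → Bool => (cnt f : ℝ) - (Fintype.card Q : ℝ) / 2) := by
  unfold tot
  simp only [zM, loc_diagonal]
  ext f g
  rw [Matrix.sum_apply]
  by_cases h : f = g
  · subst h
    simp only [diagonal_apply_eq]
    have e : ∀ x : Q, (if f x = true then (1 / 2 : ℝ) else -1 / 2) = (if f x = true then 1 else 0) - 1 / 2 := by
      intro x; split_ifs <;> norm_num
    simp only [e]
    rw [Finset.sum_sub_distrib, Finset.sum_boole, Finset.sum_const, Finset.card_univ, nsmul_eq_mul]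
    unfold cnt
    ring
  · simp only [diagonal_apply_ne _ h, Finset.sum_const_zero]

/-- the projection on the configurations with `n` up spins -/
def sec (Q : Type) [Fintype Q] [DecidableEq Q] (n : ℕ) : Matrix (Q → Bool) (Q → Bool) ℝ :=
  diagonal (fun f => if cnt f = n then 1 else 0)

theorem sec_T (n : ℕ) : (sec Q n)ᵀ = sec Q n := diagonal_transpose _

theorem sec_sq (n : ℕ) : sec Q n * sec Q n = sec Q n := by
  unfold sec
  rw [diagonal_mul_diagonal]
  congr 1
  funext f
  split_ifs <;> simp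

theorem tP_T : (tot Q pM)ᵀ = tot Q mM := by rw [tot_transpose, pM_T]
theorem tM_T : (tot Q mM)ᵀ = tot Q pM := by rw [tot_transpose, mM_T]
theorem tZ_T : (tot Q zM)ᵀ = tot Q zM := by rw [tot_transpose, zM_T]

theorem PM_rel : tot Q pM * tot Q mM - tot Q mM * tot Q pM = (2 : ℝ) • tot Q zM := by
  have := cm_tot_tot (S := Q) pM mM
  rw [cm_pM_mM, tot_smul] at this
  exact this

theorem PZ_rel : tot Q pM * tot Q zM - tot Q zM * tot Q pM = - tot Q pM := by
  have := cm_tot_tot (S := Q) pM zM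
  rw [cm_pM_zM, tot_neg] at this
  exact this

theorem P_sec (n : ℕ) : tot Q pM * sec Q n = sec Q (n + 1) * tot Q pM := by
  have h1 := PZ_rel (Q := Q)
  have h2 : tot Q pM * ((1 : Matrix _ _ ℝ) * diagonal (fun f : Q → Bool => (cnt f : ℝ) - (Fintype.card Q : ℝ) / 2 + 1) *
      (1 : Matrix _ _ ℝ)ᵀ) = ((1 : Matrix _ _ ℝ) * diagonal (fun f : Q → Bool => (cnt f : ℝ) - (Fintype.card Q : ℝ) / 2) *
      (1 : Matrix _ _ ℝ)ᵀ) * tot Q pM := by
    rw [transpose_one, Matrix.mul_one, Matrix.mul_one, Matrix.one_mul, Matrix.one_mul, ← tot_zM]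
    have h3 : diagonal (fun f : Q → Bool => (cnt f : ℝ) - (Fintype.card Q : ℝ) / 2 + 1) =
        tot Q zM + 1 := by
      rw [tot_zM, ← diagonal_one, diagonal_add]
    rw [h3, Matrix.mul_add, Matrix.mul_one]
    have h4 : tot Q pM * tot Q zM = tot Q zM * tot Q pM - tot Q pM := by
      rw [← sub_eq_zero]
      rw [← sub_eq_zero] at h1
      rw [← h1]; abel
    rw [h4]; abel
  have h3 := fc_intertwine orth_one orth_one h2
    (fun t => if t = (n : ℝ) + 1 - (Fintype.card Q : ℝ) / 2 then 1 else 0)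
  simp only [transpose_one, Matrix.mul_one, Matrix.one_mul] at h3
  have h4 : (fun f : Q → Bool => if (cnt f : ℝ) - (Fintype.card Q : ℝ) / 2 + 1 =
      (n : ℝ) + 1 - (Fintype.card Q : ℝ) / 2 then (1 : ℝ) else 0) =
      fun f => if cnt f = n then 1 else 0 := by
    funext f
    congr 1
    apply propext
    constructor
    · intro h
      have : (cnt f : ℝ) = n := by linarith
      exact_mod_cast this
    · intro h; rw [h]; ring
  have h5 : (fun f : Q → Bool => if (cnt f : ℝ) - (Fintype.card Q : ℝ) / 2 =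
      (n : ℝ) + 1 - (Fintype.card Q : ℝ) / 2 then (1 : ℝ) else 0) =
      fun f => if cnt f = n + 1 then 1 else 0 := by
    funext f
    congr 1
    apply propext
    constructor
    · intro h
      have : (cnt f : ℝ) = (n + 1 : ℕ) := by push_cast; linarith
      exact_mod_cast this
    · intro h; rw [h]; push_cast; ring
  rw [h4, h5] at h3
  exact h3

theorem M_sec (n : ℕ) : tot Q mM * sec Q (n + 1) = sec Q n * tot Q mM := by
  have h := congrArg Matrix.transpose (P_sec (Q := Q) n)
  rw [transpose_mul, transpose_mul, sec_T, sec_T, tP_T] at h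
  exact h.symm

theorem Z_sec (n : ℕ) : tot Q zM * sec Q n = ((n : ℝ) - (Fintype.card Q : ℝ) / 2) • sec Q n := by
  unfold sec
  rw [tot_zM, diagonal_mul_diagonal, ← diagonal_smul]
  congr 1
  funext f
  simp only [Pi.smul_apply, smul_eq_mul]
  split_ifs with h
  · rw [h]
  · simp

theorem sec_sum : ∑ n ∈ range (Fintype.card Q + 1), sec Q n = 1 := by
  ext f g
  rw [Matrix.sum_apply]
  unfold sec
  by_cases h : f = g
  · subst h
    simp only [diagonal_apply_eq, Matrix.one_apply_eq]
    rw [Finset.sum_ite_eq (range (Fintype.card Q + 1)) (cnt f), if_pos]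
    rw [Finset.mem_range]; have := cnt_le f; omega
  · simp only [diagonal_apply_ne _ h, Finset.sum_const_zero, Matrix.one_apply_ne h]

theorem sec_top : sec Q (Fintype.card Q + 1) = 0 := by
  unfold sec
  rw [← diagonal_zero]
  congr 1
  funext f
  rw [if_neg (by have := cnt_le f; omega)]

theorem cnt_fl (f : Q → Bool) : cnt (fl Q f) + cnt f = Fintype.card Q := by
  have h := Finset.card_filter_add_card_filter_not (s := (univ : Finset Q)) (fun x => f x = true)
  rw [Finset.card_univ] at h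
  rw [← h, add_comm]
  congr 1
  unfold cnt fl
  congr 1
  ext x
  simp

theorem cj_sec {n : ℕ} (hn : n ≤ Fintype.card Q) : cj (fl Q) (sec Q n) = sec Q (Fintype.card Q - n) := by
  ext f g
  show diagonal (fun f => if cnt f = n then (1 : ℝ) else 0) (fl Q f) (fl Q g) =
    diagonal (fun f => if cnt f = Fintype.card Q - n then (1 : ℝ) else 0) f g
  by_cases h : f = g
  · subst h
    rw [diagonal_apply_eq, diagonal_apply_eq]
    have h1 := cnt_fl f
    congr 1
    apply propext
    constructor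
    · intro h; omega
    · intro h; omega
  · rw [diagonal_apply_ne _ h, diagonal_apply_ne _ (fun h' => h ((fl Q).injective h'))]

/-- the `SU(2)` invariant operators -/
structure Inv (A : Matrix (Q → Bool) (Q → Bool) ℝ) : Prop where
  cP : tot Q pM * A = A * tot Q pM
  cM : tot Q mM * A = A * tot Q mM

theorem Inv.cZ {A : Matrix (Q → Bool) (Q → Bool) ℝ} (h : Inv A) : tot Q zM * A = A * tot Q zM := by
  have h1 : tot Q zM = (1 / 2 : ℝ) • (tot Q pM * tot Q mM - tot Q mM * tot Q pM) := by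
    rw [PM_rel, smul_smul]; norm_num
  rw [h1, Matrix.smul_mul, Matrix.mul_smul, Matrix.sub_mul, Matrix.mul_sub, Matrix.mul_assoc,
    Matrix.mul_assoc, h.cM, h.cP, ← Matrix.mul_assoc, ← Matrix.mul_assoc, h.cP, h.cM,
    Matrix.mul_assoc, Matrix.mul_assoc]

theorem Inv.csec {A : Matrix (Q → Bool) (Q → Bool) ℝ} (h : Inv A) (n : ℕ) :
    sec Q n * A = A * sec Q n := by
  have h1 := h.cZ
  rw [tot_zM] at h1
  have h2 := fc_comm (B := A) orth_one (h := fun f : Q → Bool => (cnt f : ℝ) - (Fintype.card Q : ℝ) / 2)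
    (by simp only [transpose_one, Matrix.mul_one, Matrix.one_mul]; exact h1.symm)
    (fun t => if t = (n : ℝ) - (Fintype.card Q : ℝ) / 2 then 1 else 0)
  simp only [transpose_one, Matrix.mul_one, Matrix.one_mul] at h2
  have h4 : (fun f : Q → Bool => if (cnt f : ℝ) - (Fintype.card Q : ℝ) / 2 =
      (n : ℝ) - (Fintype.card Q : ℝ) / 2 then (1 : ℝ) else 0) =
      fun f => if cnt f = n then 1 else 0 := by
    funext f
    congr 1
    apply propext
    constructor
    · intro h
      have : (cnt f : ℝ) = n := by linarith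
      exact_mod_cast this
    · intro h; rw [h]
  rw [h4] at h2
  exact h2.symm

theorem Inv.mul {A B : Matrix (Q → Bool) (Q → Bool) ℝ} (hA : Inv A) (hB : Inv B) : Inv (A * B) := by
  constructor
  · rw [← Matrix.mul_assoc, hA.cP, Matrix.mul_assoc, hB.cP, Matrix.mul_assoc]
  · rw [← Matrix.mul_assoc, hA.cM, Matrix.mul_assoc, hB.cM, Matrix.mul_assoc]

theorem inv_dot (x y : Q) : Inv (dot x y) :=
  ⟨(cm_zero_iff _ _).1 (cm_P_dot x y), (cm_zero_iff _ _).1 (cm_M_dot x y)⟩

/-- the Casimir type operator to be inverted -/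
noncomputable def Gm (Q : Type) [Fintype Q] [DecidableEq Q] (n : ℕ) :
    Matrix (Q → Bool) (Q → Bool) ℝ :=
  tot Q mM * tot Q pM + (2 * (n : ℝ) + 2 - Fintype.card Q) • (1 : Matrix _ _ ℝ)

/-- highest weight projection -/
noncomputable def hw (Q : Type) [Fintype Q] [DecidableEq Q] (n : ℕ) :
    Matrix (Q → Bool) (Q → Bool) ℝ :=
  sec Q n - tot Q mM * (Gm Q n)⁻¹ * tot Q pM * sec Q n

section hw
variable {n : ℕ} (hn : Fintype.card Q ≤ 2 * n)

include hn

theorem Gm_unit : IsUnit (Gm Q n).det := by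
  unfold Gm
  rw [← tP_T]
  apply det_unit
  have : (Fintype.card Q : ℝ) ≤ 2 * n := by exact_mod_cast hn
  linarith

omit hn in
theorem Gm_T : (Gm Q n)ᵀ = Gm Q n := by
  unfold Gm
  rw [transpose_add, transpose_mul, tP_T, tM_T, transpose_smul, transpose_one]

omit hn in
theorem Gm_sec (k : ℕ) : Gm Q n * sec Q k = sec Q k * Gm Q n := by
  unfold Gm
  rw [Matrix.add_mul, Matrix.mul_add, Matrix.mul_assoc, P_sec, ← Matrix.mul_assoc, M_sec,
    Matrix.mul_assoc, Matrix.smul_mul, Matrix.mul_smul, Matrix.one_mul, Matrix.mul_one]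

theorem Gi_sec (k : ℕ) : (Gm Q n)⁻¹ * sec Q k = sec Q k * (Gm Q n)⁻¹ :=
  inv_comm (Gm_unit hn) (Gm_sec k)

omit hn in
theorem PM_sec : tot Q pM * tot Q mM * sec Q (n + 1) = Gm Q n * sec Q (n + 1) := by
  have h1 : tot Q pM * tot Q mM = tot Q mM * tot Q pM + (2 : ℝ) • tot Q zM := by
    rw [← PM_rel]; abel
  rw [h1, Gm, Matrix.add_mul, Matrix.add_mul, Matrix.smul_mul, Z_sec, smul_smul, Matrix.smul_mul,
    Matrix.one_mul]
  congr 2
  push_cast
  ring

theorem hw_form : hw Q n = sec Q n - tot Q mM * (Gm Q n)⁻¹ * sec Q (n + 1) * tot Q pM := by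
  unfold hw
  rw [Matrix.mul_assoc (tot Q mM * (Gm Q n)⁻¹), P_sec, ← Matrix.mul_assoc]

theorem P_hw : tot Q pM * hw Q n = 0 := by
  rw [hw_form hn, Matrix.mul_sub, P_sec]
  have h1 : tot Q pM * (tot Q mM * (Gm Q n)⁻¹ * sec Q (n + 1) * tot Q pM) =
      sec Q (n + 1) * tot Q pM := by
    calc _ = tot Q pM * tot Q mM * ((Gm Q n)⁻¹ * sec Q (n + 1)) * tot Q pM := by
          simp only [Matrix.mul_assoc]
      _ = (tot Q pM * tot Q mM * sec Q (n + 1)) * (Gm Q n)⁻¹ * tot Q pM := by
          rw [Gi_sec hn]; simp only [Matrix.mul_assoc]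
      _ = (sec Q (n + 1) * (Gm Q n * (Gm Q n)⁻¹)) * tot Q pM := by
          rw [PM_sec, Gm_sec]; simp only [Matrix.mul_assoc]
      _ = _ := by rw [Matrix.mul_nonsing_inv _ (Gm_unit hn), Matrix.mul_one]
  rw [h1, sub_self]

theorem hw_T : (hw Q n)ᵀ = hw Q n := by
  have h1 : (hw Q n)ᵀ = sec Q n - tot Q mM * (sec Q (n + 1) * (Gm Q n)⁻¹) * tot Q pM := by
    rw [hw_form hn, transpose_sub, transpose_mul, transpose_mul, transpose_mul, sec_T, sec_T,
      tM_T, tP_T, transpose_nonsing_inv, Gm_T]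
    simp only [Matrix.mul_assoc]
  rw [h1, ← Gi_sec hn, hw_form hn]
  simp only [Matrix.mul_assoc]

theorem sec_hw : sec Q n * hw Q n = hw Q n := by
  have h1 : sec Q n * (tot Q mM * (Gm Q n)⁻¹ * sec Q (n + 1) * tot Q pM) =
      tot Q mM * (Gm Q n)⁻¹ * sec Q (n + 1) * tot Q pM := by
    calc _ = (sec Q n * tot Q mM) * ((Gm Q n)⁻¹ * sec Q (n + 1)) * tot Q pM := by
          simp only [Matrix.mul_assoc]
      _ = tot Q mM * (sec Q (n + 1) * sec Q (n + 1)) * (Gm Q n)⁻¹ * tot Q pM := by
          rw [← M_sec, Gi_sec hn]; simp only [Matrix.mul_assoc]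
      _ = tot Q mM * ((Gm Q n)⁻¹ * sec Q (n + 1)) * tot Q pM := by
          rw [sec_sq, Gi_sec hn]; simp only [Matrix.mul_assoc]
      _ = _ := by simp only [Matrix.mul_assoc]
  rw [hw_form hn, Matrix.mul_sub, sec_sq, h1]

theorem hw_sec : hw Q n * sec Q n = hw Q n := by
  have h := congrArg Matrix.transpose (sec_hw hn)
  rwa [transpose_mul, sec_T, hw_T hn] at h

theorem hw_sq : hw Q n * hw Q n = hw Q n := by
  conv_lhs => rw [show hw Q n * hw Q n = (sec Q n - tot Q mM * (Gm Q n)⁻¹ * tot Q pM * sec Q n) * hw Q n from rfl]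
  rw [Matrix.sub_mul, sec_hw hn, Matrix.mul_assoc, sec_hw hn, Matrix.mul_assoc, P_hw hn,
    Matrix.mul_zero, sub_zero]

theorem hw_comm {A : Matrix (Q → Bool) (Q → Bool) ℝ} (hA : Inv A) : hw Q n * A = A * hw Q n := by
  have hG : Gm Q n * A = A * Gm Q n := by
    unfold Gm
    rw [Matrix.add_mul, Matrix.mul_add, Matrix.mul_assoc, hA.cP, ← Matrix.mul_assoc, hA.cM,
      Matrix.mul_assoc, Matrix.smul_mul, Matrix.mul_smul, Matrix.one_mul, Matrix.mul_one]
  have hGi := inv_comm (Gm_unit hn) hG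
  unfold hw
  rw [Matrix.sub_mul, Matrix.mul_sub, hA.csec]
  congr 1
  calc tot Q mM * (Gm Q n)⁻¹ * tot Q pM * sec Q n * A =
      tot Q mM * (Gm Q n)⁻¹ * tot Q pM * (sec Q n * A) := by simp only [Matrix.mul_assoc]
    _ = tot Q mM * (Gm Q n)⁻¹ * (tot Q pM * A) * sec Q n := by
        rw [hA.csec]; simp only [Matrix.mul_assoc]
    _ = tot Q mM * ((Gm Q n)⁻¹ * A) * tot Q pM * sec Q n := by
        rw [hA.cP]; simp only [Matrix.mul_assoc]
    _ = (tot Q mM * A) * (Gm Q n)⁻¹ * tot Q pM * sec Q n := by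
        rw [hGi]; simp only [Matrix.mul_assoc]
    _ = _ := by rw [hA.cM]; simp only [Matrix.mul_assoc]

theorem hw_trace {A : Matrix (Q → Bool) (Q → Bool) ℝ} (hA : Inv A) :
    (hw Q n * A).trace = (sec Q n * A).trace - (sec Q (n + 1) * A).trace := by
  rw [hw_form hn, Matrix.sub_mul, trace_sub]
  congr 1
  have hG : Gm Q n * A = A * Gm Q n := by
    unfold Gm
    rw [Matrix.add_mul, Matrix.mul_add, Matrix.mul_assoc, hA.cP, ← Matrix.mul_assoc, hA.cM,
      Matrix.mul_assoc, Matrix.smul_mul, Matrix.mul_smul, Matrix.one_mul, Matrix.mul_one]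
  calc (tot Q mM * (Gm Q n)⁻¹ * sec Q (n + 1) * tot Q pM * A).trace =
      (tot Q mM * ((Gm Q n)⁻¹ * sec Q (n + 1) * tot Q pM * A)).trace := by
        simp only [Matrix.mul_assoc]
    _ = ((Gm Q n)⁻¹ * sec Q (n + 1) * tot Q pM * A * tot Q mM).trace := trace_mul_comm _ _
    _ = ((Gm Q n)⁻¹ * (sec Q (n + 1) * (tot Q pM * tot Q mM)) * A).trace := by
        rw [Matrix.mul_assoc _ A, ← hA.cM]; simp only [Matrix.mul_assoc]
    _ = ((Gm Q n)⁻¹ * (Gm Q n * sec Q (n + 1)) * A).trace := by
        congr 3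
        have h := congrArg Matrix.transpose (PM_sec (Q := Q) (n := n))
        rw [transpose_mul, transpose_mul, transpose_mul, sec_T, tM_T, tP_T, Gm_T] at h
        rw [h, Gm_sec]
    _ = _ := by
        rw [← Matrix.mul_assoc (Gm Q n)⁻¹, Matrix.nonsing_inv_mul _ (Gm_unit hn), Matrix.one_mul]

end hw

theorem comb_aux {b : ℕ} (T : ℕ → ℝ) (hT : T (b + 1) = 0) (hs : ∀ n, n ≤ b → T (b - n) = T n) :
    ∑ n ∈ range (b + 1), (if b ≤ 2 * n then (2 * (n : ℝ) - b + 1) * (T n - T (n + 1)) else 0) =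
      ∑ n ∈ range (b + 1), T n := by
  have h1 : ∀ n, n ≤ b → T n = ∑ m ∈ range (b + 1), if n ≤ m then (T m - T (m + 1)) else 0 := by
    intro n hn
    rw [← Finset.sum_filter]
    have : (range (b + 1)).filter (fun m => n ≤ m) = Finset.Ico n (b + 1) := by
      ext m; simp only [Finset.mem_filter, Finset.mem_range, Finset.mem_Ico]; omega
    rw [this]
    have h2 := Finset.sum_Ico_sub T (show n ≤ b + 1 by omega)
    have h3 : ∑ m ∈ Finset.Ico n (b + 1), (T m - T (m + 1)) =
        - ∑ m ∈ Finset.Ico n (b + 1), (T (m + 1) - T m) := by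
      rw [← Finset.sum_neg_distrib]; exact Finset.sum_congr rfl fun m _ => by ring
    rw [h3, h2, hT]; ring
  have h2 : ∀ n ∈ range (b + 1), T n = ∑ m ∈ range (b + 1),
      if n ≤ m ∧ b ≤ m + n then (T m - T (m + 1)) else 0 := by
    intro n hn
    rw [Finset.mem_range] at hn
    by_cases h : b ≤ 2 * n
    · rw [h1 n (by omega)]
      refine Finset.sum_congr rfl fun m _ => ?_
      by_cases h3 : n ≤ m
      · rw [if_pos h3, if_pos ⟨h3, by omega⟩]
      · rw [if_neg h3, if_neg (fun h4 => h3 h4.1)]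
    · rw [← hs n (by omega), h1 (b - n) (by omega)]
      refine Finset.sum_congr rfl fun m _ => ?_
      by_cases h3 : b - n ≤ m
      · rw [if_pos h3, if_pos ⟨by omega, by omega⟩]
      · rw [if_neg h3, if_neg (fun h4 => h3 (by omega))]
  rw [Finset.sum_congr rfl h2, Finset.sum_comm]
  refine Finset.sum_congr rfl fun m hm => ?_
  rw [Finset.mem_range] at hm
  rw [← Finset.sum_filter]
  have h3 : (range (b + 1)).filter (fun n => n ≤ m ∧ b ≤ m + n) = Finset.Icc (b - m) m := by
    ext n; simp only [Finset.mem_filter, Finset.mem_range, Finset.mem_Icc]; omega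
  rw [h3, Finset.sum_const, Nat.card_Icc, nsmul_eq_mul]
  split_ifs with h4
  · have : ((m + 1 - (b - m) : ℕ) : ℝ) = 2 * m - b + 1 := by
      have h5 : m + 1 - (b - m) + b = 2 * m + 1 := by omega
      have h6 : ((m + 1 - (b - m) : ℕ) : ℝ) + b = 2 * m + 1 := by exact_mod_cast h5
      linarith
    rw [this]
  · have : m + 1 - (b - m) = 0 := by omega
    rw [this]; simp

/-- the trace identity -/
theorem trace_identity {A : Matrix (Q → Bool) (Q → Bool) ℝ} (hA : Inv A)
    (hf : cj (fl Q) A = A) :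
    ∑ n ∈ range (Fintype.card Q + 1), (if Fintype.card Q ≤ 2 * n then
      (2 * (n : ℝ) - Fintype.card Q + 1) * (hw Q n * A).trace else 0) = A.trace := by
  have h1 := comb_aux (b := Fintype.card Q) (fun n => (sec Q n * A).trace)
    (by simp only [sec_top, Matrix.zero_mul, trace_zero])
    (by
      intro n hn
      show (sec Q (Fintype.card Q - n) * A).trace = (sec Q n * A).trace
      rw [← cj_sec hn, ← cj_trace (fl Q) (sec Q n * A), cj_mul, hf])
  have h2 : ∑ n ∈ range (Fintype.card Q + 1), (sec Q n * A).trace = A.trace := by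
    rw [← trace_sum, ← Finset.sum_mul, sec_sum, Matrix.one_mul]
  rw [← h2, ← h1]
  refine Finset.sum_congr rfl fun n _ => ?_
  split_ifs with h
  · rw [hw_trace h hA]
  · rfl

end Pool.Agent.W761.HF
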