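import Pool.Agent.W761.HF.QPL
import Pool.Agent.H11R2.BEC3.Final

/-!
# Spectral representation of translation invariant correlations on the torus
-/

set_option autoImplicit false

open Finset BigOperators Matrix

set_option linter.unusedSectionVars false
set_option linter.unusedSimpArgs false

namespace Pool.Agent.W761.HF

open Pool.Agent.H11R2.BEC (Site cu red emb inn cf ph chi Cd t6cW t6c_ph h819_parseval h819_conv)

/-- quadratic form of a kernel -/
noncomputable def qf {Λ : Type} [Fintype Λ] (C : Λ → Λ → ℝ) (α : Λ → ℝ) : ℝ :=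
  ∑ x, ∑ y, α x * α y * C x y

/-- symmetric, nonnegative, translation invariant kernels -/
structure Ker {d J : ℕ} (C : Site d J → Site d J → ℝ) : Prop where
  symm : ∀ x y, C x y = C y x
  nonneg : ∀ α, 0 ≤ qf C α
  trans : ∀ t x y, C (t + x) (t + y) = C x y

theorem qf_factor {Λ : Type} [Fintype Λ] [DecidableEq Λ] {C : Λ → Λ → ℝ}
    (hs : ∀ x y, C x y = C y x) (hp : ∀ α, 0 ≤ qf C α) :
    ∃ g : Λ → Λ → ℝ, ∀ x y, C x y = ∑ ω, g ω x * g ω y := by
  obtain ⟨V, e, hV, hd⟩ := exists_diag (Matrix.of C) (by ext x y; exact hs y x)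
  have hC : ∀ x y, C x y = ∑ ω, V x ω * e ω * V y ω := by
    intro x y
    have h1 : C x y = (V * diagonal e * Vᵀ) x y := by rw [← hd]; rfl
    rw [h1, Matrix.mul_apply]
    refine Finset.sum_congr rfl fun ω _ => ?_
    rw [mul_diagonal, transpose_apply]
  have he : ∀ ω, 0 ≤ e ω := by
    intro ω
    have h1 := hp (fun x => V x ω)
    have h2 : qf C (fun x => V x ω) = (Vᵀ * Matrix.of C * V) ω ω := by
      unfold qf
      rw [Matrix.mul_apply, Finset.sum_comm]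
      refine Finset.sum_congr rfl fun y _ => ?_
      rw [Matrix.mul_apply, Finset.sum_mul]
      refine Finset.sum_congr rfl fun x _ => ?_
      rw [transpose_apply, Matrix.of_apply]; ring
    rw [h2, hd] at h1
    have h3 : Vᵀ * (V * diagonal e * Vᵀ) * V = diagonal e := by
      calc _ = (Vᵀ * V) * diagonal e * (Vᵀ * V) := by simp only [Matrix.mul_assoc]
        _ = _ := by rw [hV.2, Matrix.one_mul, Matrix.mul_one]
    rw [h3, diagonal_apply_eq] at h1
    exact h1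
  refine ⟨fun ω x => Real.sqrt (e ω) * V x ω, fun x y => ?_⟩
  rw [hC]
  refine Finset.sum_congr rfl fun ω _ => ?_
  have := Real.mul_self_sqrt (he ω)
  calc V x ω * e ω * V y ω = V x ω * (Real.sqrt (e ω) * Real.sqrt (e ω)) * V y ω := by rw [this]
    _ = _ := by ring

theorem qf_of_factor {Λ : Type} [Fintype Λ] {C : Λ → Λ → ℝ} {g : Λ → Λ → ℝ}
    (hg : ∀ x y, C x y = ∑ ω, g ω x * g ω y) (α : Λ → ℝ) :
    qf C α = ∑ ω, (∑ x, α x * g ω x) ^ 2 := by
  unfold qf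
  simp only [hg, Finset.mul_sum]
  have h1 : ∀ x : Λ, ∑ y, ∑ ω, α x * α y * (g ω x * g ω y) =
      ∑ ω, ∑ y, α x * g ω x * (α y * g ω y) := by
    intro x
    rw [Finset.sum_comm]
    exact Finset.sum_congr rfl fun ω _ => Finset.sum_congr rfl fun y _ => by ring
  rw [Finset.sum_congr rfl fun x _ => h1 x, Finset.sum_comm]
  refine Finset.sum_congr rfl fun ω _ => ?_
  rw [sq, Finset.sum_mul_sum]

variable {d J : ℕ}

theorem spec {C : Site d J → Site d J → ℝ} (hC : Ker C) :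
    ∃ N : Site d J → ℝ, (∀ k, 0 ≤ N k) ∧
      ∀ α : Site d J → ℝ, qf C α = ∑ k, N k * ‖∑ x, (α x : ℂ) * chi k x‖ ^ 2 := by
  obtain ⟨g, hg⟩ := qf_factor hC.symm hC.nonneg
  have hV : (2 : ℝ) ^ (d * J) ≠ 0 := by positivity
  refine ⟨fun k => (1 / (2 : ℝ) ^ (d * J)) ^ 2 *
    ∑ ω, ‖∑ y, (starRingEnd ℂ) (chi k y) * (g ω y : ℂ)‖ ^ 2, fun k => by positivity, fun α => ?_⟩
  have h1 : ∀ ω, ∑ w : Site d J, (∑ x, α x * g ω (w + x)) ^ 2 =
      (1 / (2 : ℝ) ^ (d * J)) * ∑ k : Site d J, ‖∑ x, (α x : ℂ) * chi k x‖ ^ 2 *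
        ‖∑ y, (starRingEnd ℂ) (chi k y) * (g ω y : ℂ)‖ ^ 2 := by
    intro ω
    have h2 := h819_parseval (fun w => ∑ x, (α x : ℂ) * (g ω (w + x) : ℂ))
    simp only [h819_conv α (fun y => (g ω y : ℂ))] at h2
    simp only [norm_mul, mul_pow] at h2
    rw [h2, ← mul_assoc, one_div, inv_mul_cancel₀ hV, one_mul]
    refine Finset.sum_congr rfl fun w _ => ?_
    have : (∑ x, (α x : ℂ) * (g ω (w + x) : ℂ)) = ((∑ x, α x * g ω (w + x) : ℝ) : ℂ) := by
      push_cast; rfl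
    rw [this, Complex.norm_real, Real.norm_eq_abs, sq_abs]
  have h3 : ∀ w : Site d J, qf C α = ∑ ω, (∑ x, α x * g ω (w + x)) ^ 2 := by
    intro w
    have h4 : ∀ x y, C x y = ∑ ω, g ω (w + x) * g ω (w + y) := by
      intro x y
      rw [← hC.trans w, hg]
    exact qf_of_factor (g := fun ω x => g ω (w + x)) h4 α
  have h5 : (2 : ℝ) ^ (d * J) * qf C α = ∑ w : Site d J, ∑ ω, (∑ x, α x * g ω (w + x)) ^ 2 := by
    rw [← Finset.sum_congr rfl fun w _ => h3 w, Finset.sum_const, Finset.card_univ, nsmul_eq_mul,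
      Pool.Agent.H11R2.BEC.t8_card_site]
  rw [Finset.sum_comm, Finset.sum_congr rfl fun ω _ => h1 ω, ← Finset.mul_sum, Finset.sum_comm] at h5
  have h6 : qf C α = (1 / (2 : ℝ) ^ (d * J)) * ((2 : ℝ) ^ (d * J) * qf C α) := by
    field_simp
  rw [h6, h5, ← mul_assoc, ← sq, Finset.mul_sum]
  refine Finset.sum_congr rfl fun k _ => ?_
  rw [← Finset.mul_sum]
  ring

/-- coherence at scale `2^s` -/
noncomputable def aa (C : Site d J → Site d J → ℝ) (s : ℕ) : ℝ := qf C (t6cW s 0)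

/-- fluctuation of the averages at scale `2^s` within a cube of side `2^j` -/
noncomputable def uu (C : Site d J → Site d J → ℝ) (s j : ℕ) : ℝ :=
  (1 / (2 : ℝ) ^ (d * j)) * ∑ z ∈ inn j s, qf C (fun x => t6cW s (emb 0 z) x - t6cW j 0 x)

section main
variable {C : Site d J → Site d J → ℝ} {N : Site d J → ℝ}
    (hN : ∀ α : Site d J → ℝ, qf C α = ∑ k, N k * ‖∑ x, (α x : ℂ) * chi k x‖ ^ 2)

include hN

theorem aa_eq (s : ℕ) : aa C s = ∑ k, N k * ‖ph s k 0‖ ^ 2 := by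
  unfold aa
  rw [hN]
  simp only [t6c_ph]

theorem uu_eq (s j : ℕ) : uu C s j = ∑ k, N k * ((1 / (2 : ℝ) ^ (d * j)) *
    ∑ z ∈ inn j s, ‖ph s k (emb 0 z) - ph j k 0‖ ^ 2) := by
  have h1 : ∀ z : Site d j, qf C (fun x => t6cW s (emb 0 z) x - t6cW j 0 x) =
      ∑ k, N k * ‖ph s k (emb 0 z) - ph j k 0‖ ^ 2 := by
    intro z
    rw [hN]
    refine Finset.sum_congr rfl fun k _ => ?_
    rw [← t6c_ph, ← t6c_ph, ← Finset.sum_sub_distrib]
    congr 3
    refine Finset.sum_congr rfl fun x _ => ?_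
    push_cast
    ring
  unfold uu
  rw [Finset.sum_congr rfl (fun z _ => h1 z), Finset.sum_comm, Finset.mul_sum]
  refine Finset.sum_congr rfl fun k _ => ?_
  rw [← Finset.mul_sum]
  ring

end main

theorem aa_antitone {C : Site d J → Site d J → ℝ} (hC : Ker C) {s : ℕ} (hs : s < J) :
    aa C (s + 1) ≤ aa C s := by
  obtain ⟨N, hN0, hN⟩ := spec hC
  rw [aa_eq hN, aa_eq hN]
  exact Finset.sum_le_sum fun k _ =>
    mul_le_mul_of_nonneg_left (Pool.Agent.H11R2.BEC.ph_antitone hs k) (hN0 k)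

theorem uu_lower {C : Site d J → Site d J → ℝ} (hC : Ker C) {s j : ℕ} (hs : s < j) (hj : j < J) :
    (aa C s - aa C j)
      - (1 / 2 : ℝ) ^ (j - s) * (d * (aa C s - aa C j)
        + 2 * d * Cd d * ∑ i ∈ range (j + 1), (1 / 2 : ℝ) ^ (j - i) * (aa C i - aa C (i + 1)))
      ≤ uu C s j := by
  obtain ⟨N, hN0, hN⟩ := spec hC
  set L : (Site d J → ℝ) →ₗ[ℝ] ℝ := ∑ k, N k • LinearMap.proj k with hL
  have hLa : ∀ f : Site d J → ℝ, L f = ∑ k, N k * f k := by
    intro f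
    simp [hL]
  set a : ℕ → Site d J → ℝ := fun i k => ‖ph i k 0‖ ^ 2 with ha
  have hcoh : ∀ i, aa C i = L (a i) := by
    intro i
    rw [hLa, aa_eq hN]
  have h1 : (aa C s - aa C j)
      - (1 / 2 : ℝ) ^ (j - s) * (d * (aa C s - aa C j)
        + 2 * d * Cd d * ∑ i ∈ range (j + 1), (1 / 2 : ℝ) ^ (j - i) * (aa C i - aa C (i + 1))) =
      L ((a s - a j) - (1 / 2 : ℝ) ^ (j - s) • ((d : ℝ) • (a s - a j)
        + (2 * d * Cd d) • ∑ i ∈ range (j + 1), ((1 / 2 : ℝ) ^ (j - i)) • (a i - a (i + 1)))) := by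
    simp only [hcoh, map_sub, map_add, map_smul, map_sum, smul_eq_mul]
  rw [h1, uu_eq hN, hLa]
  refine Finset.sum_le_sum fun k _ => mul_le_mul_of_nonneg_left ?_ (hN0 k)
  have := Pool.Agent.H11R2.BEC.pointwise hs hj k
  simp only [ha, Pi.sub_apply, Pi.smul_apply, Pi.add_apply, Finset.sum_apply, smul_eq_mul]
  exact this

end Pool.Agent.W761.HF
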