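import Pool.Agent.W761.HF.Tens

/-!
# Spin one half operators
-/

set_option autoImplicit false

open Finset BigOperators Matrix

set_option linter.unusedSectionVars false
set_option linter.unusedSimpArgs false

namespace Pool.Agent.W761.HF

/-- raising -/
def pM : Matrix Bool Bool ℝ := fun i j => if i = true ∧ j = false then 1 else 0
/-- lowering -/
def mM : Matrix Bool Bool ℝ := fun i j => if i = false ∧ j = true then 1 else 0
/-- third component -/
noncomputable def zM : Matrix Bool Bool ℝ := diagonal (fun i => if i then 1 / 2 else -1 / 2)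

theorem pM_mM : pM * mM - mM * pM = (2 : ℝ) • zM := by
  ext i j; cases i <;> cases j <;> norm_num [pM, mM, zM, Matrix.mul_apply, diagonal]

theorem mM_pM : mM * pM - pM * mM = (-2 : ℝ) • zM := by
  ext i j; cases i <;> cases j <;> norm_num [pM, mM, zM, Matrix.mul_apply, diagonal]

theorem pM_zM : pM * zM - zM * pM = - pM := by
  ext i j; cases i <;> cases j <;> norm_num [pM, mM, zM, Matrix.mul_apply, diagonal]

theorem mM_zM : mM * zM - zM * mM = mM := by
  ext i j; cases i <;> cases j <;> norm_num [pM, mM, zM, Matrix.mul_apply, diagonal]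

theorem pm_add : pM * mM + mM * pM = 1 := by
  ext i j; cases i <;> cases j <;> norm_num [pM, mM, zM, Matrix.mul_apply, diagonal]

theorem zM_sq : zM * zM = (1 / 4 : ℝ) • 1 := by
  ext i j; cases i <;> cases j <;> norm_num [pM, mM, zM, Matrix.mul_apply, diagonal]

theorem pM_T : pMᵀ = mM := by
  ext i j; cases i <;> cases j <;> simp [pM, mM]

theorem mM_T : mMᵀ = pM := by
  ext i j; cases i <;> cases j <;> simp [pM, mM]

theorem zM_T : zMᵀ = zM := by
  unfold zM; exact diagonal_transpose _

section cm
variable {n : Type} [Fintype n] [DecidableEq n]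

/-- commutator -/
def cm (B A : Matrix n n ℝ) : Matrix n n ℝ := B * A - A * B

theorem cm_mul (B A C : Matrix n n ℝ) : cm B (A * C) = cm B A * C + A * cm B C := by
  unfold cm; noncomm_ring

theorem cm_add (B A C : Matrix n n ℝ) : cm B (A + C) = cm B A + cm B C := by
  unfold cm; noncomm_ring

theorem cm_smul (B A : Matrix n n ℝ) (c : ℝ) : cm B (c • A) = c • cm B A := by
  unfold cm; rw [Matrix.mul_smul, Matrix.smul_mul, smul_sub]

theorem cm_sum {ι : Type} (s : Finset ι) (B : Matrix n n ℝ) (A : ι → Matrix n n ℝ) :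
    cm B (∑ i ∈ s, A i) = ∑ i ∈ s, cm B (A i) := by
  unfold cm; rw [Finset.mul_sum, Finset.sum_mul, Finset.sum_sub_distrib]

theorem cm_zero_iff (B A : Matrix n n ℝ) : cm B A = 0 ↔ B * A = A * B := by
  unfold cm; rw [sub_eq_zero]

end cm

section tot
variable {S K : Type} [Fintype S] [DecidableEq S] [Fintype K] [DecidableEq K]

/-- the sum over the sites of a one site operator -/
def tot (S : Type) [Fintype S] [DecidableEq S] {K : Type} [Fintype K] [DecidableEq K]
    (A : Matrix K K ℝ) : Matrix (S → K) (S → K) ℝ := ∑ x : S, loc x A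

theorem cm_tot (B A : Matrix K K ℝ) (i : S) : cm (tot S B) (loc i A) = loc i (cm B A) :=
  comm_loc_total B A i

theorem cm_tot_tot (B A : Matrix K K ℝ) : cm (tot S B) (tot S A) = tot S (cm B A) := by
  conv_lhs => rw [show tot S A = ∑ x : S, loc x A from rfl]
  rw [cm_sum]
  simp only [cm_tot]
  rfl

theorem tot_smul (c : ℝ) (A : Matrix K K ℝ) : tot S (c • A) = c • tot S A := by
  unfold tot; rw [Finset.smul_sum]; simp only [loc_smul]

theorem tot_neg (A : Matrix K K ℝ) : tot S (-A) = - tot S A := by
  have := tot_smul (S := S) (-1) A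
  simpa using this

theorem loc_neg (i : S) (A : Matrix K K ℝ) : loc i (-A) = - loc i A := by
  have := loc_smul i (-1) A
  simpa using this

theorem tot_transpose (A : Matrix K K ℝ) : (tot S A)ᵀ = tot S Aᵀ := by
  unfold tot; rw [transpose_sum]; simp only [loc_transpose]

end tot

section dot
variable {S : Type} [Fintype S] [DecidableEq S]

/-- the scalar product of two spins -/
noncomputable def dot (x y : S) : Matrix (S → Bool) (S → Bool) ℝ :=
  (1 / 2 : ℝ) • (loc x pM * loc y mM + loc x mM * loc y pM) + loc x zM * loc y zM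

theorem cm_pM_pM : cm pM pM = 0 := sub_self _
theorem cm_mM_mM : cm mM mM = 0 := sub_self _
theorem cm_pM_mM : cm pM mM = (2 : ℝ) • zM := pM_mM
theorem cm_mM_pM : cm mM pM = (-2 : ℝ) • zM := mM_pM
theorem cm_pM_zM : cm pM zM = - pM := pM_zM
theorem cm_mM_zM : cm mM zM = mM := mM_zM

theorem cm_P_dot (x y : S) : cm (tot S pM) (dot x y) = 0 := by
  unfold dot
  simp only [cm_add, cm_smul, cm_mul, cm_tot, cm_pM_pM, cm_pM_mM, cm_pM_zM, loc_zero, loc_smul,
    loc_neg, Matrix.zero_mul, Matrix.mul_zero, Matrix.smul_mul, Matrix.mul_smul, Matrix.neg_mul,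
    Matrix.mul_neg]
  module

theorem cm_M_dot (x y : S) : cm (tot S mM) (dot x y) = 0 := by
  unfold dot
  simp only [cm_add, cm_smul, cm_mul, cm_tot, cm_mM_mM, cm_mM_pM, cm_mM_zM, loc_zero, loc_smul,
    loc_neg, Matrix.zero_mul, Matrix.mul_zero, Matrix.smul_mul, Matrix.mul_smul, Matrix.neg_mul,
    Matrix.mul_neg]
  module

theorem dot_self (x : S) : dot x x = (3 / 4 : ℝ) • 1 := by
  unfold dot
  rw [loc_mul, loc_mul, loc_mul, ← loc_add, pm_add, zM_sq, loc_smul, loc_one]
  module

theorem dot_comm (x y : S) : dot x y = dot y x := by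
  by_cases h : x = y
  · rw [h]
  · unfold dot
    rw [loc_comm h, loc_comm h, loc_comm h, add_comm (loc y mM * loc x pM)]

theorem dot_transpose (x y : S) : (dot x y)ᵀ = dot x y := by
  by_cases h : x = y
  · subst h
    rw [dot_self, transpose_smul, transpose_one]
  · unfold dot
    rw [transpose_add, transpose_smul, transpose_add, transpose_mul, transpose_mul, transpose_mul,
      loc_transpose, loc_transpose, loc_transpose, loc_transpose, loc_transpose, loc_transpose,
      pM_T, mM_T, zM_T, loc_comm (Ne.symm h), loc_comm (Ne.symm h), loc_comm (Ne.symm h),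
      add_comm (loc x mM * loc y pM)]

/-- the spin flip -/
def fl (S : Type) : (S → Bool) ≃ (S → Bool) where
  toFun f := fun x => !(f x)
  invFun f := fun x => !(f x)
  left_inv f := by funext x; simp
  right_inv f := by funext x; simp

/-- conjugation by a permutation of the basis -/
def cj {n : Type} (e : n ≃ n) (A : Matrix n n ℝ) : Matrix n n ℝ := A.submatrix e e

theorem cj_mul {n : Type} [Fintype n] (e : n ≃ n) (A B : Matrix n n ℝ) :
    cj e (A * B) = cj e A * cj e B := by
  unfold cj; exact (submatrix_mul_equiv A B e e e).symm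

theorem cj_add {n : Type} (e : n ≃ n) (A B : Matrix n n ℝ) : cj e (A + B) = cj e A + cj e B := rfl

theorem cj_smul {n : Type} (e : n ≃ n) (c : ℝ) (B : Matrix n n ℝ) : cj e (c • B) = c • cj e B := rfl

theorem cj_sum {n ι : Type} (e : n ≃ n) (s : Finset ι) (B : ι → Matrix n n ℝ) :
    cj e (∑ i ∈ s, B i) = ∑ i ∈ s, cj e (B i) := by
  unfold cj
  funext f g
  rw [submatrix_apply, Matrix.sum_apply, Matrix.sum_apply]
  rfl

theorem cj_trace {n : Type} [Fintype n] (e : n ≃ n) (B : Matrix n n ℝ) :
    (cj e B).trace = B.trace := by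
  unfold cj Matrix.trace
  exact Equiv.sum_comp e (fun i => B.diag i)

theorem cj_fl_loc (x : S) (A : Matrix Bool Bool ℝ) :
    cj (fl S) (loc x A) = loc x (A.submatrix (fun b => !b) (fun b => !b)) := by
  funext f g
  show ∏ j, (if j = x then A else 1) (!(f j)) (!(g j)) =
    ∏ j, (if j = x then A.submatrix (fun b => !b) (fun b => !b) else 1) (f j) (g j)
  refine Finset.prod_congr rfl fun j _ => ?_
  by_cases h : j = x
  · simp [h]
  · simp only [if_neg h, Matrix.one_apply, Bool.not_inj_iff]

theorem fl_pM : pM.submatrix (fun b => !b) (fun b => !b) = mM := by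
  ext i j; cases i <;> cases j <;> simp [pM, mM]

theorem fl_mM : mM.submatrix (fun b => !b) (fun b => !b) = pM := by
  ext i j; cases i <;> cases j <;> simp [pM, mM]

theorem fl_zM : zM.submatrix (fun b => !b) (fun b => !b) = -zM := by
  ext i j; cases i <;> cases j <;> norm_num [zM, diagonal]

theorem cj_fl_dot (x y : S) : cj (fl S) (dot x y) = dot x y := by
  unfold dot
  simp only [cj_add, cj_smul, cj_mul, cj_fl_loc, fl_pM, fl_mM, fl_zM, loc_neg, Matrix.neg_mul,
    Matrix.mul_neg, neg_neg]
  rw [add_comm (loc x mM * loc y pM)]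

/-- the transposition operator -/
def trn (x y : S) : Matrix (S → Bool) (S → Bool) ℝ :=
  fun f g => if f ∘ Equiv.swap x y = g then 1 else 0

theorem loc_mul_loc_apply {K : Type} [Fintype K] [DecidableEq K] {x y : S} (h : x ≠ y)
    (A B : Matrix K K ℝ) (f g : S → K) :
    (loc x A * loc y B) f g = A (f x) (g x) * B (f y) (g y) *
      (if ∀ z, z ≠ x → z ≠ y → f z = g z then 1 else 0) := by
  unfold loc
  rw [tens_mul]
  unfold tens
  rw [← Finset.mul_prod_erase univ _ (Finset.mem_univ x),
    ← Finset.mul_prod_erase (univ.erase x) _ (Finset.mem_erase.2 ⟨h.symm, Finset.mem_univ y⟩)]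
  simp only [if_true, if_neg h, if_neg h.symm, Matrix.mul_one, Matrix.one_mul]
  rw [← mul_assoc]
  congr 1
  split_ifs with h1
  · refine Finset.prod_eq_one fun z hz => ?_
    rw [Finset.mem_erase, Finset.mem_erase] at hz
    rw [if_neg hz.1, if_neg hz.2.1, Matrix.mul_one, h1 z hz.2.1 hz.1, Matrix.one_apply_eq]
  · push Not at h1
    obtain ⟨z, hz1, hz2, hz3⟩ := h1
    refine Finset.prod_eq_zero (i := z) ?_ ?_
    · rw [Finset.mem_erase, Finset.mem_erase]; exact ⟨hz2, hz1, Finset.mem_univ _⟩
    · rw [if_neg hz1, if_neg hz2, Matrix.mul_one, Matrix.one_apply_ne hz3]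

theorem dot_eq {x y : S} (h : x ≠ y) : dot x y = (1 / 2 : ℝ) • trn x y - (1 / 4 : ℝ) • 1 := by
  funext f g
  unfold dot
  simp only [Matrix.add_apply, Matrix.smul_apply, Matrix.sub_apply, smul_eq_mul,
    loc_mul_loc_apply h, trn]
  by_cases h1 : ∀ z, z ≠ x → z ≠ y → f z = g z
  · rw [if_pos h1]
    have e1 : (f ∘ Equiv.swap x y = g) ↔ (f y = g x ∧ f x = g y) := by
      constructor
      · intro h2
        constructor
        · rw [← h2]; simp
        · rw [← h2]; simp
      · rintro ⟨h2, h3⟩
        funext z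
        by_cases hz1 : z = x
        · subst hz1; simp [h2]
        · by_cases hz2 : z = y
          · subst hz2; simp [h3]
          · simp only [Function.comp]
            rw [Equiv.swap_apply_of_ne_of_ne hz1 hz2]
            exact h1 z hz1 hz2
    have e2 : (f = g) ↔ (f x = g x ∧ f y = g y) := by
      constructor
      · intro h2; rw [h2]; exact ⟨rfl, rfl⟩
      · rintro ⟨h2, h3⟩
        funext z
        by_cases hz1 : z = x
        · subst hz1; exact h2
        · by_cases hz2 : z = y
          · subst hz2; exact h3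
          · exact h1 z hz1 hz2
    rw [Matrix.one_apply]
    simp only [e1, e2]
    generalize f x = a1
    generalize f y = a2
    generalize g x = a3
    generalize g y = a4
    cases a1 <;> cases a2 <;> cases a3 <;> cases a4 <;> norm_num [pM, mM, zM, diagonal]
  · rw [if_neg h1]
    have e1 : ¬ (f ∘ Equiv.swap x y = g) := by
      intro h2; apply h1; intro z hz1 hz2
      rw [← h2]; simp only [Function.comp]; rw [Equiv.swap_apply_of_ne_of_ne hz1 hz2]
    have e2 : ¬ (f = g) := by
      intro h2; apply h1; intro z _ _; rw [h2]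
    rw [if_neg e1, Matrix.one_apply, if_neg e2]
    ring

theorem trn_sq (x y : S) : trn x y * trn x y = 1 := by
  funext f g
  rw [Matrix.mul_apply, Finset.sum_eq_single (f ∘ Equiv.swap x y)]
  · unfold trn
    rw [if_pos rfl, one_mul, Matrix.one_apply]
    congr 1
    rw [Function.comp_assoc]
    have : (Equiv.swap x y : S → S) ∘ (Equiv.swap x y) = id := by
      funext z; simp
    rw [this, Function.comp_id]
  · intro k _ hk
    unfold trn
    rw [if_neg (fun h => hk h.symm), zero_mul]
  · intro h; exact absurd (Finset.mem_univ _) h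

theorem trn_transpose (x y : S) : (trn x y)ᵀ = trn x y := by
  funext f g
  show trn x y g f = trn x y f g
  unfold trn
  have h : ∀ u v : S → Bool, u ∘ Equiv.swap x y = v → v ∘ Equiv.swap x y = u := by
    intro u v h
    rw [← h, Function.comp_assoc]
    have : (Equiv.swap x y : S → S) ∘ (Equiv.swap x y) = id := by
      funext z; simp
    rw [this, Function.comp_id]
  by_cases h1 : f ∘ Equiv.swap x y = g
  · rw [if_pos h1, if_pos (h _ _ h1)]
  · rw [if_neg h1, if_neg (fun h2 => h1 (h _ _ h2))]

end dot

section pos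
variable {n : Type} [Fintype n] [DecidableEq n]

/-- nonnegative symmetric matrices, tested by traces -/
def Pos (σ : Matrix n n ℝ) : Prop := σᵀ = σ ∧ ∀ A : Matrix n n ℝ, 0 ≤ (σ * (A * Aᵀ)).trace

theorem pos_diag {U : Matrix n n ℝ} {p : n → ℝ} (hp : ∀ k, 0 ≤ p k) :
    Pos (U * diagonal p * Uᵀ) := by
  constructor
  · rw [transpose_mul, transpose_mul, transpose_transpose, diagonal_transpose, Matrix.mul_assoc]
  · intro A
    have h : (U * diagonal p * Uᵀ * (A * Aᵀ)).trace = ∑ i, p i * ∑ k, ((Uᵀ * A) i k) ^ 2 := by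
      have h1 : U * diagonal p * Uᵀ * (A * Aᵀ) = (U * (diagonal p * (Uᵀ * A) * Aᵀ)) := by
        simp only [Matrix.mul_assoc]
      have h2 : (Uᵀ * A)ᵀ = Aᵀ * U := by rw [transpose_mul, transpose_transpose]
      rw [h1, trace_mul_comm, Matrix.mul_assoc, ← h2, Matrix.trace]
      refine Finset.sum_congr rfl fun i _ => ?_
      rw [Matrix.diag_apply, Matrix.mul_apply, Finset.mul_sum]
      refine Finset.sum_congr rfl fun k _ => ?_
      rw [diagonal_mul, transpose_apply]; ring
    rw [h]
    exact Finset.sum_nonneg fun i _ => mul_nonneg (hp i) (Finset.sum_nonneg fun k _ => sq_nonneg _)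

end pos

end Pool.Agent.W761.HF
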