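import Pool.Agent.W761.HF.Ent

/-!
# Tensor powers of matrices
-/

set_option autoImplicit false

open Finset BigOperators Matrix

set_option linter.unusedSectionVars false

namespace Pool.Agent.W761.HF

variable {I K : Type} [Fintype I] [DecidableEq I] [Fintype K] [DecidableEq K]

/-- tensor product of matrices -/
def tens (A : I → Matrix K K ℝ) : Matrix (I → K) (I → K) ℝ := fun f g => ∏ i, A i (f i) (g i)

theorem tens_mul (A B : I → Matrix K K ℝ) : tens A * tens B = tens (fun i => A i * B i) := by
  funext f g
  rw [Matrix.mul_apply]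
  simp only [tens, Matrix.mul_apply]
  rw [Finset.prod_univ_sum, Fintype.piFinset_univ]
  refine Finset.sum_congr rfl fun h _ => ?_
  rw [← Finset.prod_mul_distrib]

theorem tens_transpose (A : I → Matrix K K ℝ) : (tens A)ᵀ = tens (fun i => (A i)ᵀ) := rfl

theorem tens_diagonal (a : I → K → ℝ) :
    tens (fun i => diagonal (a i)) = diagonal (fun f : I → K => ∏ i, a i (f i)) := by
  funext f g
  rw [diagonal_apply]
  split_ifs with h
  · subst h
    simp [tens]
  · have : ∃ i, f i ≠ g i := by
      by_contra hc
      push Not at hc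
      exact h (funext hc)
    obtain ⟨i, hi⟩ := this
    refine Finset.prod_eq_zero (Finset.mem_univ i) ?_
    show diagonal (a i) (f i) (g i) = 0
    exact diagonal_apply_ne _ hi

theorem tens_one : tens (fun _ : I => (1 : Matrix K K ℝ)) = 1 := by
  have h := tens_diagonal (I := I) (K := K) (fun _ _ => (1 : ℝ))
  simp only [Finset.prod_const_one] at h
  rw [diagonal_one] at h
  exact h

theorem trace_tens (A : I → Matrix K K ℝ) : (tens A).trace = ∏ i, (A i).trace := by
  simp only [Matrix.trace, Matrix.diag]
  rw [Finset.prod_univ_sum, Fintype.piFinset_univ]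
  rfl

theorem orth_tens {V : Matrix K K ℝ} (hV : Orth V) : Orth (tens (fun _ : I => V)) := by
  constructor
  · rw [tens_transpose, tens_mul]; simp only [hV.1]; exact tens_one
  · rw [tens_transpose, tens_mul]; simp only [hV.2]; exact tens_one

/-- the operator `A` acting at `i` -/
def loc (i : I) (A : Matrix K K ℝ) : Matrix (I → K) (I → K) ℝ :=
  tens (fun j => if j = i then A else 1)

theorem loc_mul (i : I) (A B : Matrix K K ℝ) : loc i A * loc i B = loc i (A * B) := by
  unfold loc
  rw [tens_mul]
  congr 1
  funext j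
  split_ifs <;> simp

theorem loc_one (i : I) : loc i (1 : Matrix K K ℝ) = 1 := by
  unfold loc
  simp only [ite_self]
  exact tens_one

theorem loc_comm {i j : I} (h : i ≠ j) (A B : Matrix K K ℝ) : loc i A * loc j B = loc j B * loc i A := by
  unfold loc
  rw [tens_mul, tens_mul]
  congr 1
  funext l
  by_cases h1 : l = i
  · have h2 : ¬ l = j := fun h2 => h (h1.symm.trans h2)
    simp [h1, if_neg (h1 ▸ h2 : ¬ i = j)]
  · simp [h1]

theorem loc_transpose (i : I) (A : Matrix K K ℝ) : (loc i A)ᵀ = loc i Aᵀ := by
  unfold loc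
  rw [tens_transpose]
  congr 1
  funext j
  split_ifs <;> simp

theorem loc_apply (i : I) (A : Matrix K K ℝ) (f g : I → K) :
    loc i A f g = A (f i) (g i) * ∏ j ∈ univ.erase i, (1 : Matrix K K ℝ) (f j) (g j) := by
  unfold loc tens
  rw [← Finset.mul_prod_erase univ _ (Finset.mem_univ i)]
  congr 1
  · simp
  · refine Finset.prod_congr rfl fun j hj => ?_
    show (if j = i then A else 1) (f j) (g j) = _
    rw [if_neg (Finset.ne_of_mem_erase hj)]

theorem loc_add (i : I) (A B : Matrix K K ℝ) : loc i (A + B) = loc i A + loc i B := by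
  funext f g
  rw [Matrix.add_apply, loc_apply, loc_apply, loc_apply, Matrix.add_apply]; ring

theorem loc_smul (i : I) (c : ℝ) (A : Matrix K K ℝ) : loc i (c • A) = c • loc i A := by
  funext f g
  rw [Matrix.smul_apply, loc_apply, loc_apply, Matrix.smul_apply, smul_eq_mul, smul_eq_mul]; ring

/-- `loc i` as a linear map -/
def locL (i : I) : Matrix K K ℝ →ₗ[ℝ] Matrix (I → K) (I → K) ℝ where
  toFun := loc i
  map_add' := loc_add i
  map_smul' := loc_smul i

theorem loc_sub (i : I) (A B : Matrix K K ℝ) : loc i (A - B) = loc i A - loc i B :=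
  (locL i).map_sub A B

theorem loc_sum {ι : Type} (s : Finset ι) (i : I) (A : ι → Matrix K K ℝ) :
    loc i (∑ a ∈ s, A a) = ∑ a ∈ s, loc i (A a) := map_sum (locL i) A s

theorem loc_zero (i : I) : loc i (0 : Matrix K K ℝ) = 0 := (locL i).map_zero

/-- product matrices -/
def pw (I : Type) [Fintype I] [DecidableEq I] (σ : Matrix K K ℝ) : Matrix (I → K) (I → K) ℝ := tens (fun _ : I => σ)

theorem trace_pw_loc {σ : Matrix K K ℝ} (h : σ.trace = 1) (i : I) (A : Matrix K K ℝ) :
    (pw I σ * loc i A).trace = (σ * A).trace := by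
  unfold pw loc
  rw [tens_mul, trace_tens, ← Finset.mul_prod_erase univ _ (Finset.mem_univ i)]
  rw [Finset.prod_eq_one, mul_one]
  · simp
  · intro j hj
    rw [if_neg (Finset.ne_of_mem_erase hj), Matrix.mul_one, h]

theorem trace_pw_loc_loc {σ : Matrix K K ℝ} (h : σ.trace = 1) {i j : I} (hij : i ≠ j)
    (A B : Matrix K K ℝ) :
    (pw I σ * (loc i A * loc j B)).trace = (σ * A).trace * (σ * B).trace := by
  unfold pw loc
  rw [tens_mul, tens_mul, trace_tens, ← Finset.mul_prod_erase univ _ (Finset.mem_univ i),
    ← Finset.mul_prod_erase (univ.erase i) _ (Finset.mem_erase.2 ⟨hij.symm, Finset.mem_univ j⟩)]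
  rw [Finset.prod_eq_one, mul_one]
  · simp [hij, hij.symm]
  · intro l hl
    rw [Finset.mem_erase, Finset.mem_erase] at hl
    rw [if_neg hl.2.1, if_neg hl.1, Matrix.mul_one, Matrix.mul_one, h]

theorem trace_pw {σ : Matrix K K ℝ} (h : σ.trace = 1) : (pw I σ).trace = 1 := by
  unfold pw
  rw [trace_tens]
  simp [h]

/-- a matrix commuting with the sum of the `loc j B` -/
theorem comm_loc_total (B A : Matrix K K ℝ) (i : I) :
    (∑ j, loc j B) * loc i A - loc i A * (∑ j, loc j B) = loc i (B * A - A * B) := by
  rw [Finset.sum_mul, Finset.mul_sum, ← Finset.sum_sub_distrib, loc_sub, ← loc_mul, ← loc_mul]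
  rw [Finset.sum_eq_single i]
  · intro j _ hj
    rw [loc_comm hj, sub_self]
  · intro h; exact absurd (Finset.mem_univ i) h

/-- invariance of `loc` under permutations of the tiles -/
theorem loc_submatrix (π : Equiv.Perm I) (i : I) (A : Matrix K K ℝ) :
    (loc i A).submatrix (fun f : I → K => f ∘ π) (fun f : I → K => f ∘ π) = loc (π i) A := by
  funext f g
  rw [submatrix_apply]
  unfold loc tens
  simp only [Function.comp]
  rw [← Equiv.prod_comp π (fun j => (if j = π i then A else 1) (f j) (g j))]
  refine Finset.prod_congr rfl fun j _ => ?_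
  by_cases h : j = i
  · simp [h]
  · have : ¬ π j = π i := fun h' => h (π.injective h')
    rw [if_neg h, if_neg this]

end Pool.Agent.W761.HF
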