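import Pool.Agent.W761.HF.Coh

/-!
# Translations of the tiling, crossings, and cubes inside a tile
-/

set_option autoImplicit false

open Finset BigOperators

set_option linter.unusedSectionVars false
set_option linter.unusedSimpArgs false

namespace Pool.Agent.W761.HF

open Pool.Agent.H11R2.BEC (Site cu red emb inn cf ev t6cW t2a_red ki_emb_add ki_inn
  ki_emb_zero ki_cu_bij t8_card_site t8_card_cube ki_inn_card sum_red)
open Pool.Agent.H11R2.BEC.Ker (sp nd)

section tile
variable {d J j : ℕ} (hj : j ≤ J) (e : Site d J ≃ (Fin d → Fin (2 ^ (J - j))) × Site d j)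
  (h1 : ∀ x, (e x).2 = red j x)
  (h2 : ∀ (i : Fin d → Fin (2 ^ (J - j))) (z : Site d j) (s : ℕ) (u : Fin d → Fin (2 ^ s)),
        (∀ ν, (z ν).val + (u ν : ℕ) < 2 ^ j) →
          e.symm (i, z) + cu J u = e.symm (i, z + cu j u))
  (h3 : ∀ (i : Fin d → Fin (2 ^ (J - j))) (z : Site d j) (ν : Fin d),
        (z ν).val + 1 < 2 ^ j → e.symm (i, z) + ev J ν = e.symm (i, z + ev j ν))

include hj in
theorem red_add' (x y : Site d J) : red j (x + y) = red j x + red j y := by
  funext ν
  rw [Pi.add_apply, t2a_red hj, t2a_red hj, t2a_red hj, Pi.add_apply, map_add]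

include hj in
theorem red_sub' (x y : Site d J) : red j (x - y) = red j x - red j y := by
  funext ν
  rw [Pi.sub_apply, t2a_red hj, t2a_red hj, t2a_red hj, Pi.sub_apply, map_sub]

include h2 in
theorem symm_emb (i : Fin d → Fin (2 ^ (J - j))) (q : Site d j) :
    e.symm (i, q) = e.symm (i, 0) + emb 0 q := by
  have h := h2 i 0 j (fun ν => ⟨(q ν).val, ZMod.val_lt _⟩) (by
    intro ν
    simp only [Pi.zero_apply, ZMod.val_zero, zero_add]
    exact ZMod.val_lt _)
  have e1 : (cu J (fun ν => (⟨(q ν).val, ZMod.val_lt _⟩ : Fin (2 ^ j))) : Site d J) = emb 0 q := by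
    funext ν
    simp [cu, emb]
  have e2 : (cu j (fun ν => (⟨(q ν).val, ZMod.val_lt _⟩ : Fin (2 ^ j))) : Site d j) = q := by
    funext ν
    simp [cu]
  rw [e1, e2, zero_add] at h
  exact h.symm

include h1 in
theorem red_symm (i : Fin d → Fin (2 ^ (J - j))) (q : Site d j) : red j (e.symm (i, q)) = q := by
  rw [← h1, Equiv.apply_symm_apply]

include hj h1 h2 in
theorem tile_perm (i i' : Fin d → Fin (2 ^ (J - j))) :
    ∃ (π : Equiv.Perm (Fin d → Fin (2 ^ (J - j)))) (t : Site d J), π i = i' ∧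
      ∀ a : (Fin d → Fin (2 ^ (J - j))) × Site d j, e.symm (π a.1, a.2) = t + e.symm a := by
  set t : Site d J := e.symm (i', 0) - e.symm (i, 0) with ht
  have ht0 : red j t = 0 := by
    rw [ht, red_sub' hj, red_symm e h1, red_symm e h1, sub_self]
  set f : (Fin d → Fin (2 ^ (J - j))) → (Fin d → Fin (2 ^ (J - j))) := fun k =>
    (e (t + e.symm (k, 0))).1 with hf
  have hf1 : ∀ k, e.symm (f k, 0) = t + e.symm (k, 0) := by
    intro k
    have h4 := symm_red' e h1 (t + e.symm (k, 0))
    rw [red_add' hj, ht0, red_symm e h1, add_zero] at h4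
    exact h4
  have hinj : Function.Injective f := by
    intro k k' hk
    have h5 : t + e.symm (k, 0) = t + e.symm (k', 0) := by rw [← hf1, ← hf1, hk]
    have h6 := e.symm.injective (add_left_cancel h5)
    exact (Prod.mk.inj h6).1
  refine ⟨Equiv.ofBijective f (Finite.injective_iff_bijective.1 hinj), t, ?_, ?_⟩
  · show (e (t + e.symm (i, 0))).1 = i'
    rw [ht, sub_add_cancel, Equiv.apply_symm_apply]
  · intro a
    show e.symm (f a.1, a.2) = t + e.symm (a.1, a.2)
    rw [symm_emb e h2 (f a.1), symm_emb e h2 a.1, hf1, add_assoc]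

/-- number of points whose tile changes under the translation by `w` -/
noncomputable def cross (e : Site d J ≃ (Fin d → Fin (2 ^ (J - j))) × Site d j) (w : Site d J) : ℝ :=
  ∑ x : Site d J, if (e x).1 = (e (x + w)).1 then 0 else 1

theorem cross_zero : cross e 0 = 0 := by
  unfold cross; simp

theorem cross_add (w w' : Site d J) : cross e (w + w') ≤ cross e w + cross e w' := by
  have h : cross e w' = ∑ x : Site d J, if (e (x + w)).1 = (e (x + w + w')).1 then (0 : ℝ) else 1 := by
    unfold cross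
    exact (Equiv.sum_comp (Equiv.addRight w)
      (fun x => if (e x).1 = (e (x + w')).1 then (0 : ℝ) else 1)).symm
  rw [h]
  unfold cross
  rw [← Finset.sum_add_distrib]
  refine Finset.sum_le_sum fun x _ => ?_
  rw [← add_assoc]
  by_cases ha : (e x).1 = (e (x + w)).1
  · by_cases hb : (e (x + w)).1 = (e (x + w + w')).1
    · rw [if_pos (ha.trans hb), if_pos ha, if_pos hb]; norm_num
    · rw [if_neg hb, if_pos ha]; split_ifs <;> norm_num
  · rw [if_neg ha]; split_ifs <;> norm_num

theorem cross_neg (w : Site d J) : cross e (-w) = cross e w := by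
  unfold cross
  rw [← Equiv.sum_comp (Equiv.addRight w)]
  refine Finset.sum_congr rfl fun x _ => ?_
  simp only [Equiv.coe_addRight, add_neg_cancel_right]
  by_cases h : (e (x + w)).1 = (e x).1
  · rw [if_pos h, if_pos h.symm]
  · rw [if_neg h, if_neg (fun h' => h h'.symm)]

theorem cross_nonneg (w : Site d J) : 0 ≤ cross e w :=
  Finset.sum_nonneg fun x _ => by split_ifs <;> norm_num

theorem cross_nsmul (n : ℕ) (w : Site d J) : cross e (n • w) ≤ n * cross e w := by
  induction n with
  | zero => simp [cross_zero]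
  | succ n ih =>
    rw [succ_nsmul]
    have := cross_add e (n • w) w
    push_cast
    linarith

theorem cross_zsmul (k : ℤ) (w : Site d J) : cross e (k • w) ≤ (k.natAbs : ℝ) * cross e w := by
  rcases Int.natAbs_eq k with h | h
  · conv_lhs => rw [h]
    rw [natCast_zsmul]
    exact cross_nsmul e _ w
  · conv_lhs => rw [h]
    rw [neg_smul, cross_neg, natCast_zsmul]
    exact cross_nsmul e _ w

theorem cross_sum {ι : Type} (s : Finset ι) (w : ι → Site d J) :
    cross e (∑ i ∈ s, w i) ≤ ∑ i ∈ s, cross e (w i) := by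
  classical
  induction s using Finset.induction_on with
  | empty => simp [cross_zero]
  | insert a s ha ih =>
    rw [Finset.sum_insert ha, Finset.sum_insert ha]
    have := cross_add e (w a) (∑ i ∈ s, w i)
    linarith

include hj h1 h3 in
theorem cross_ev (ν : Fin d) : cross e (ev J ν) ≤ 2 ^ (d * J) / 2 ^ j := by
  have h4 : cross e (ev J ν) ≤ ∑ x : Site d J, (if ((red j x) ν).val + 1 < 2 ^ j then (0 : ℝ) else 1) := by
    unfold cross
    refine Finset.sum_le_sum fun x _ => ?_
    by_cases h : ((red j x) ν).val + 1 < 2 ^ j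
    · rw [if_pos h, if_pos]
      have h5 := h3 (e x).1 (red j x) ν h
      rw [symm_red' e h1] at h5
      rw [h5, Equiv.apply_symm_apply]
    · rw [if_neg h]; split_ifs <;> norm_num
  refine h4.trans ?_
  rw [sum_red hj (fun q : Site d j => if (q ν).val + 1 < 2 ^ j then (0 : ℝ) else 1)]
  have h5 := Pool.Agent.H11R2.BEC.T2c.sum_last (d := d) (j := j) ν
  calc (2 : ℝ) ^ (d * (J - j)) * ∑ x : Site d j, (if (x ν).val + 1 < 2 ^ j then (0 : ℝ) else 1)
      ≤ (2 : ℝ) ^ (d * (J - j)) * ((2 : ℝ) ^ (d * j) / 2 ^ j) :=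
        mul_le_mul_of_nonneg_left h5 (by positivity)
    _ = 2 ^ (d * J) / 2 ^ j := by
      rw [← mul_div_assoc, ← pow_add, ← mul_add, Nat.sub_add_cancel hj]

include hj h1 h3 in
theorem cross_rd (z : Fin d → ℤ) :
    cross e (fun ν => ((z ν : ℤ) : ZMod (2 ^ J))) ≤
      (∑ ν, ((z ν).natAbs : ℝ)) * (2 ^ (d * J) / 2 ^ j) := by
  have h4 : (fun ν => ((z ν : ℤ) : ZMod (2 ^ J)) : Site d J) = ∑ ν, (z ν) • (ev J ν : Site d J) := by
    funext ν
    rw [Finset.sum_apply, Finset.sum_eq_single ν]
    · simp [ev]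
    · intro ν' _ hν
      simp [ev, Pi.single_eq_of_ne (Ne.symm hν)]
    · intro h; exact absurd (Finset.mem_univ _) h
  rw [h4, Finset.sum_mul]
  refine (cross_sum e _ _).trans (Finset.sum_le_sum fun ν _ => ?_)
  refine (cross_zsmul e _ _).trans ?_
  exact mul_le_mul_of_nonneg_left (cross_ev hj e h1 h3 ν) (Nat.cast_nonneg _)

end tile

section hat
variable {d J j : ℕ} (hj : j ≤ J)

/-- push forward of weights on the cube of side `2^j` -/
noncomputable def hat (α : Site d j → ℝ) (x : Site d J) : ℝ := ∑ q, if emb 0 q = x then α q else 0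

theorem hat_sum (α : Site d j → ℝ) (f : Site d J → ℝ) :
    ∑ x, hat α x * f x = ∑ q, α q * f (emb 0 q) := by
  unfold hat
  simp only [Finset.sum_mul]
  rw [Finset.sum_comm]
  refine Finset.sum_congr rfl fun q _ => ?_
  rw [Finset.sum_eq_single (emb 0 q)]
  · simp
  · intro b _ hb
    rw [if_neg (fun h => hb h.symm), zero_mul]
  · intro h; exact absurd (Finset.mem_univ _) h

theorem qf_hat (C : Site d J → Site d J → ℝ) (α : Site d j → ℝ) :
    qf C (hat α) = qf (fun q q' => C (emb 0 q) (emb 0 q')) α := by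
  unfold qf
  have h1 : ∀ x, ∑ y, hat α x * hat α y * C x y = hat α x * ∑ y, hat α y * C x y := by
    intro x
    rw [Finset.mul_sum]; exact Finset.sum_congr rfl fun y _ => by ring
  simp only [h1]
  rw [hat_sum α (fun x => ∑ y, hat α y * C x y)]
  refine Finset.sum_congr rfl fun q _ => ?_
  rw [hat_sum α (fun y => C (emb 0 q) y), Finset.mul_sum]
  exact Finset.sum_congr rfl fun q' _ => by ring

theorem hat_t6 {s : ℕ} {z : Site d j} (hz : z ∈ inn j s) :
    hat (t6cW s z) = (t6cW s (emb 0 z) : Site d J → ℝ) := by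
  funext x
  unfold hat t6cW
  have h1 : ∀ q : Site d j, (if emb 0 q = x then (1 / (2 : ℝ) ^ (d * s)) *
      ∑ u : Fin d → Fin (2 ^ s), (if z + cu j u = q then (1 : ℝ) else 0) else 0) =
      (1 / (2 : ℝ) ^ (d * s)) * ∑ u : Fin d → Fin (2 ^ s),
        (if z + cu j u = q then (if emb 0 q = x then (1 : ℝ) else 0) else 0) := by
    intro q
    split_ifs with h
    · rfl
    · simp
  simp only [h1]
  rw [← Finset.mul_sum, Finset.sum_comm]
  congr 1
  refine Finset.sum_congr rfl fun u _ => ?_
  rw [Finset.sum_ite_eq univ (z + cu j u), if_pos (Finset.mem_univ _),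
    ki_emb_add 0 z u (ki_inn hz u)]

theorem zero_inn : (0 : Site d j) ∈ inn j j := by
  unfold inn
  rw [Finset.mem_filter]
  exact ⟨Finset.mem_univ _, fun ν => by simp⟩

theorem hat_top : hat (t6cW j (0 : Site d j)) = (t6cW j 0 : Site d J → ℝ) := by
  rw [hat_t6 zero_inn, ki_emb_zero]

theorem hat_sub (α β : Site d j → ℝ) :
    (hat (fun q => α q - β q) : Site d J → ℝ) = fun x => hat α x - hat β x := by
  funext x
  unfold hat
  rw [← Finset.sum_sub_distrib]
  refine Finset.sum_congr rfl fun q _ => ?_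
  split_ifs <;> simp

theorem aa_block (C : Site d J → Site d J → ℝ) (j : ℕ) :
    aa C j = qf (fun q q' : Site d j => C (emb 0 q) (emb 0 q')) (t6cW j 0) := by
  unfold aa
  rw [← hat_top, qf_hat]

theorem uu_block (C : Site d J → Site d J → ℝ) (s j : ℕ) :
    uu C s j = (1 / (2 : ℝ) ^ (d * j)) * ∑ z ∈ inn j s,
      qf (fun q q' : Site d j => C (emb 0 q) (emb 0 q')) (fun q => t6cW s z q - t6cW j 0 q) := by
  unfold uu
  congr 1
  refine Finset.sum_congr rfl fun z hz => ?_
  rw [← qf_hat, hat_sub, hat_t6 hz, hat_top]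

end hat

section kernel
variable {d J : ℕ}

theorem sp_sum_eq (s : ℕ) (c : Site d J → Site d J → ℝ) :
    ∑ x, ∑ y, sp d J s (y - x) * c x y = ∑ w, qf c (t6cW s w) := by
  have e1 : ∀ w, qf c (t6cW s w) = (1 / (4 : ℝ) ^ (d * s)) *
      ∑ u : Fin d → Fin (2 ^ s), ∑ v : Fin d → Fin (2 ^ s), c (w + cu J u) (w + cu J v) := by
    intro w
    rw [qf_t6, ← Finset.mul_sum, ← mul_assoc]
    congr 1
    rw [show (4 : ℝ) = 2 * 2 by norm_num, mul_pow]
    field_simp
  simp only [e1]
  rw [← Finset.mul_sum]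
  conv_rhs => rw [Finset.sum_comm]
  have e2 : ∀ u : Fin d → Fin (2 ^ s), ∑ w : Site d J, ∑ v : Fin d → Fin (2 ^ s),
      c (w + cu J u) (w + cu J v) = ∑ x : Site d J, ∑ y : Site d J, ∑ v : Fin d → Fin (2 ^ s),
        if cu J v - cu J u = y - x then c x y else 0 := by
    intro u
    rw [← Equiv.sum_comp (Equiv.addRight (-cu J u : Site d J))]
    refine Finset.sum_congr rfl fun x _ => ?_
    rw [Finset.sum_comm]
    refine Finset.sum_congr rfl fun v _ => ?_
    rw [Finset.sum_eq_single (x + (cu J v - cu J u))]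
    · rw [if_pos (by abel)]
      simp only [Equiv.coe_addRight]
      congr 1
      · abel
      · abel
    · intro y _ hy
      rw [if_neg]
      intro h
      apply hy
      rw [h]; abel
    · intro h; exact absurd (Finset.mem_univ _) h
  simp only [e2]
  conv_rhs => rw [Finset.sum_comm, Finset.mul_sum]
  refine Finset.sum_congr rfl fun x _ => ?_
  conv_rhs => rw [Finset.sum_comm, Finset.mul_sum]
  refine Finset.sum_congr rfl fun y _ => ?_
  have e3 : ∑ u : Fin d → Fin (2 ^ s), ∑ v : Fin d → Fin (2 ^ s),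
      (if cu J v - cu J u = y - x then c x y else 0) = (nd d J s (y - x) : ℝ) * c x y := by
    rw [Pool.Agent.H11R2.BEC.Ker.nd_eq]
    unfold Pool.Agent.H11R2.BEC.npairs
    rw [Finset.card_filter, Nat.cast_sum, Finset.sum_mul, Fintype.sum_prod_type]
    refine Finset.sum_congr rfl fun u _ => Finset.sum_congr rfl fun v _ => ?_
    split_ifs <;> simp
  rw [e3]
  unfold sp
  ring

theorem Ker.shift {C : Site d J → Site d J → ℝ} (hC : Ker C) (s : ℕ) (w : Site d J) :
    qf C (t6cW s w) = aa C s := by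
  unfold aa
  rw [qf_t6, qf_t6]
  congr 1
  refine Finset.sum_congr rfl fun u _ => ?_
  congr 1
  refine Finset.sum_congr rfl fun v _ => ?_
  rw [zero_add, zero_add, hC.trans]

end kernel

end Pool.Agent.W761.HF
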